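import Pool.Agent.Lib.MP_f80667_ag.ZC.Conic

/-! Linear combinations of the quadratic forms of a smooth complete intersection have large rank. -/

open MvPolynomial

namespace ZC

universe u

namespace RkC

/-- The substitution `X i ↦ 0` for `i ∈ s`. -/
noncomputable def kil (k : Type u) [Field k] {σ : Type} (s : Finset σ) :
    MvPolynomial σ k →ₐ[k] MvPolynomial σ k := by
  classical
  exact MvPolynomial.aeval (fun i => if i ∈ s then 0 else MvPolynomial.X i)

variable {k : Type u} [Field k]

theorem kil_X {σ : Type} [DecidableEq σ] (s : Finset σ) (i : σ) :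
    kil k s (MvPolynomial.X i) = if i ∈ s then 0 else MvPolynomial.X i := by
  unfold kil
  simp

theorem kil_kil {σ : Type} {s t : Finset σ} (h : s ⊆ t) (p : MvPolynomial σ k) :
    kil k t (kil k s p) = kil k t p := by
  classical
  have : (kil k t).comp (kil k s) = kil k t := by
    apply MvPolynomial.algHom_ext
    intro i
    simp only [AlgHom.comp_apply, kil_X]
    by_cases hi : i ∈ s
    · simp [hi, h hi]
    · simp only [hi, if_false, kil_X]
  exact DFunLike.congr_fun this p

theorem card_le_height {σ : Type} (s : Finset σ) :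
    (s.card : ℕ∞) ≤ (RingHom.ker (kil k s)).height := by
  classical
  induction s using Finset.induction_on with
  | empty => simp
  | insert a s ha ih =>
    rw [Finset.card_insert_of_notMem ha]
    have hp1 : (RingHom.ker (kil k s)).IsPrime := RingHom.ker_isPrime _
    have hp2 : (RingHom.ker (kil k (insert a s))).IsPrime := RingHom.ker_isPrime _
    have hlt : RingHom.ker (kil k s) < RingHom.ker (kil k (insert a s)) := by
      refine lt_of_le_of_ne ?_ ?_
      · intro p hp
        rw [RingHom.mem_ker] at hp ⊢
        rw [← kil_kil (Finset.subset_insert a s), hp, map_zero]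
      · intro he
        have h1 : (MvPolynomial.X a : MvPolynomial σ k) ∈ RingHom.ker (kil k (insert a s)) := by
          rw [RingHom.mem_ker, kil_X]
          simp
        rw [← he, RingHom.mem_ker, kil_X, if_neg ha] at h1
        exact MvPolynomial.X_ne_zero a h1
    have := Ideal.height_add_one_le_of_lt_of_isPrime hlt
    push_cast
    refine le_trans ?_ this
    gcongr

theorem card_le_height_eval {σ : Type} [Fintype σ] :
    (Fintype.card σ : ℕ∞) ≤ (RingHom.ker (MvPolynomial.eval (0 : σ → k))).height := by
  classical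
  have h := card_le_height (k := k) (Finset.univ : Finset σ)
  rw [Finset.card_univ] at h
  refine h.trans (Ideal.height_mono ?_)
  intro p hp
  rw [RingHom.mem_ker] at hp ⊢
  have : (MvPolynomial.eval (0 : σ → k)) (kil k Finset.univ p) =
      MvPolynomial.eval (0 : σ → k) p := by
    unfold kil
    rw [MvPolynomial.aeval_def, MvPolynomial.algebraMap_eq]
    change (MvPolynomial.eval (0 : σ → k)) (MvPolynomial.bind₁ _ p) = _
    rw [MvPolynomial.eval, MvPolynomial.eval₂Hom_bind₁]
    congr 1
    simp only [MvPolynomial.coe_eval₂Hom]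
    simp
  rw [← this, hp, map_zero]

end RkC

/-- Fewer than `m` polynomials without constant term in `m` variables over an algebraically closed
field have a common nontrivial zero. -/
theorem exists_common_zero {Ω : Type u} [Field Ω] [IsAlgClosed Ω] {ι σ : Type} [Fintype ι]
    [Fintype σ] (hc : Fintype.card ι < Fintype.card σ) (F : ι → MvPolynomial σ Ω)
    (hF : ∀ i, eval (0 : σ → Ω) (F i) = 0) : ∃ x : σ → Ω, x ≠ 0 ∧ ∀ i, eval x (F i) = 0 := by
  classical
  by_contra hcon
  push Not at hcon
  set m0 : Ideal (MvPolynomial σ Ω) := RingHom.ker (MvPolynomial.eval (0 : σ → Ω)) with hm0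
  have hm0p : m0.IsPrime := RingHom.ker_isPrime _
  have hIm : Ideal.span (Set.range F) ≤ m0 := by
    rw [Ideal.span_le]
    rintro _ ⟨i, rfl⟩
    exact (RingHom.mem_ker).2 (hF i)
  obtain ⟨P, hPmin, hPm⟩ := Ideal.exists_minimalPrimes_le hIm
  have hPp : P.IsPrime := hPmin.1.1
  have hFP : ∀ i, F i ∈ P := fun i => hPmin.1.2 (Ideal.subset_span ⟨i, rfl⟩)
  have hP1 : P.height ≤ (Fintype.card ι : ℕ∞) := by
    refine (Ideal.height_le_card_of_mem_minimalPrimes_span (Set.finite_range F) hPmin).trans ?_
    rw [Nat.cast_le, ← Set.image_univ, ← Nat.card_eq_fintype_card, ← Set.ncard_univ]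
    exact Set.ncard_image_le (Set.finite_univ)
  have heq : m0 ≤ P := by
    have hrad : P = MvPolynomial.vanishingIdeal Ω (MvPolynomial.zeroLocus Ω P) := by
      rw [MvPolynomial.IsPrime.vanishingIdeal_zeroLocus]
    intro g hg
    rw [hrad, MvPolynomial.mem_vanishingIdeal_iff]
    intro x hx
    rw [MvPolynomial.mem_zeroLocus_iff] at hx
    have hx0 : x = 0 := by
      by_contra hx0
      obtain ⟨i, hi⟩ := hcon x hx0
      exact hi (by simpa using hx _ (hFP i))
    rw [hx0]
    simpa using RingHom.mem_ker.1 hg
  have h1 := RkC.card_le_height_eval (k := Ω) (σ := σ)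
  have h2 := (h1.trans (Ideal.height_mono heq)).trans hP1
  rw [Nat.cast_le] at h2
  omega

/-- Vectors in the kernel of a matrix, with a left inverse. -/
theorem exists_kernel {K : Type u} [Field K] {n r : ℕ} (M : Matrix (Fin n) (Fin n) K)
    (h : M.rank + r ≤ n) : ∃ (V : Matrix (Fin n) (Fin r) K) (L : Matrix (Fin r) (Fin n) K),
      L * V = 1 ∧ M * V = 0 := by
  have h1 : r ≤ Module.finrank K (LinearMap.ker M.mulVecLin) := by
    have h2 := LinearMap.finrank_range_add_finrank_ker M.mulVecLin
    rw [Module.finrank_fin_fun] at h2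
    have h3 : M.rank = Module.finrank K (LinearMap.range M.mulVecLin) := rfl
    omega
  obtain ⟨f, hf⟩ := exists_linearIndependent_of_le_finrank h1
  let φ : (Fin r → K) →ₗ[K] (Fin n → K) :=
    (LinearMap.ker M.mulVecLin).subtype ∘ₗ Fintype.linearCombination K f
  have hφ : LinearMap.ker φ = ⊥ := by
    rw [LinearMap.ker_comp_of_ker_eq_bot _ (Submodule.ker_subtype _)]
    exact LinearMap.ker_eq_bot.mpr (linearIndependent_iff_injective_fintypeLinearCombination.mp hf)
  obtain ⟨ψ, hψ⟩ := φ.exists_leftInverse_of_injective hφ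
  refine ⟨LinearMap.toMatrix' φ, LinearMap.toMatrix' ψ, ?_, ?_⟩
  · rw [← LinearMap.toMatrix'_comp, hψ, LinearMap.toMatrix'_id]
  · have h2 : M.mulVecLin ∘ₗ φ = 0 := LinearMap.ext fun x =>
      LinearMap.mem_ker.mp (Fintype.linearCombination K f x).2
    have h3 : M = LinearMap.toMatrix' M.mulVecLin := by
      rw [← Matrix.toLin'_apply', LinearMap.toMatrix'_toLin']
    rw [h3, ← LinearMap.toMatrix'_comp, h2, map_zero]

variable {K Ω : Type u} [Field K] [CharZero K] [Field Ω] [IsAlgClosed Ω] [Algebra K Ω] {n r : ℕ}

/-- The rank of the linear combinations of the quadratic forms of a smooth complete intersection. -/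
theorem le_rank_add (A : Fin r → Matrix (Fin n) (Fin n) K)
    (hsm : ∀ x : Fin n → Ω, x ≠ 0 → (∀ i, qv (A i) x = 0) →
      ∀ c : Fin r → Ω, (∀ y, ∑ i, c i * bv (A i) x y = 0) → c = 0)
    (μ : Fin r → K) (hμ : μ ≠ 0) :
    n ≤ (∑ i, μ i • (A i + (A i).transpose)).rank + (r - 1) := by
  classical
  by_contra hcon
  obtain ⟨i₀, hi₀⟩ : ∃ i, μ i ≠ 0 := by
    by_contra h
    push Not at h
    exact hμ (funext h)
  have hr : 0 < r := i₀.pos
  set M := ∑ i, μ i • (A i + (A i).transpose) with hM
  obtain ⟨V, L, hLV, hMV⟩ := exists_kernel M (r := r) (by omega)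
  let ι := {i : Fin r // i ≠ i₀}
  let vec : (Fin r → Ω) → (Fin n → Ω) := fun t => (V.map (algebraMap K Ω)).mulVec t
  let P : Fin n → MvPolynomial (Fin r) Ω := fun a => ∑ c, C (algebraMap K Ω (V a c)) * X c
  have hP : ∀ t a, eval t (P a) = vec t a := by
    intro t a
    simp only [P, vec, Matrix.mulVec, dotProduct, Matrix.map_apply, map_sum, map_mul, eval_C,
      eval_X]
  let F : ι → MvPolynomial (Fin r) Ω := fun i =>
    ∑ a, ∑ b, C (algebraMap K Ω (A i.1 a b)) * (P a * P b)
  have hF : ∀ t i, eval t (F i) = qv (A i.1) (vec t) := by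
    intro t i
    simp only [F, qv, map_sum, map_mul, eval_C, hP]
  have hv0 : vec 0 = 0 := Matrix.mulVec_zero _
  obtain ⟨t, ht, ht0⟩ := exists_common_zero (ι := ι) (σ := Fin r) (by
    rw [Fintype.card_subtype_compl, Fintype.card_subtype_eq, Fintype.card_fin]
    omega) F (by
      intro i
      rw [hF, hv0]
      simp [qv])
  set x := vec t with hx
  have hLx : (L.map (algebraMap K Ω)).mulVec x = t := by
    rw [hx]
    change (L.map (algebraMap K Ω)).mulVec ((V.map (algebraMap K Ω)).mulVec t) = t
    rw [Matrix.mulVec_mulVec, ← Matrix.map_mul, hLV, Matrix.map_one _ (map_zero _) (map_one _),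
      Matrix.one_mulVec]
  have hx0 : x ≠ 0 := by
    intro h0
    rw [h0, Matrix.mulVec_zero] at hLx
    exact ht hLx.symm
  have hMx : (M.map (algebraMap K Ω)).mulVec x = 0 := by
    rw [hx]
    change (M.map (algebraMap K Ω)).mulVec ((V.map (algebraMap K Ω)).mulVec t) = 0
    rw [Matrix.mulVec_mulVec, ← Matrix.map_mul, hMV, Matrix.map_zero _ (map_zero _),
      Matrix.zero_mulVec]
  have hbv : ∀ y, ∑ i, algebraMap K Ω (μ i) * bv (A i) x y =
      dotProduct y ((M.map (algebraMap K Ω)).mulVec x) := by
    intro y
    have h1 : ∀ a b, (M.map (algebraMap K Ω)) a b =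
        ∑ i, algebraMap K Ω (μ i) * (algebraMap K Ω (A i a b) + algebraMap K Ω (A i b a)) := by
      intro a b
      rw [Matrix.map_apply, hM, Matrix.sum_apply, map_sum]
      refine Finset.sum_congr rfl fun i _ => ?_
      rw [Matrix.smul_apply, Matrix.add_apply, Matrix.transpose_apply, smul_eq_mul, map_mul,
        map_add]
    have h2 : ∀ i, bv (A i) x y =
        ∑ a, ∑ b, (algebraMap K Ω (A i a b) + algebraMap K Ω (A i b a)) * (y a * x b) := by
      intro i
      simp only [bv, add_mul, mul_add, Finset.sum_add_distrib]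
      rw [Finset.sum_comm (f := fun a b => algebraMap K Ω (A i b a) * (y a * x b)), add_comm]
      congr 1
      refine Finset.sum_congr rfl fun a _ => Finset.sum_congr rfl fun b _ => ?_
      rw [mul_comm (y b)]
    calc ∑ i, algebraMap K Ω (μ i) * bv (A i) x y
        = ∑ i, ∑ a, ∑ b, algebraMap K Ω (μ i) *
            ((algebraMap K Ω (A i a b) + algebraMap K Ω (A i b a)) * (y a * x b)) := by
          refine Finset.sum_congr rfl fun i _ => ?_
          rw [h2, Finset.mul_sum]
          refine Finset.sum_congr rfl fun a _ => ?_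
          rw [Finset.mul_sum]
      _ = ∑ a, ∑ b, ∑ i, algebraMap K Ω (μ i) *
            ((algebraMap K Ω (A i a b) + algebraMap K Ω (A i b a)) * (y a * x b)) := by
          rw [Finset.sum_comm]
          refine Finset.sum_congr rfl fun a _ => ?_
          rw [Finset.sum_comm]
      _ = dotProduct y ((M.map (algebraMap K Ω)).mulVec x) := by
          simp only [dotProduct, Matrix.mulVec, Finset.mul_sum]
          refine Finset.sum_congr rfl fun a _ => Finset.sum_congr rfl fun b _ => ?_
          rw [h1, Finset.sum_mul, Finset.mul_sum]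
          refine Finset.sum_congr rfl fun i _ => ?_
          ring
  have hμ0 : (fun i => algebraMap K Ω (μ i)) = 0 := by
    refine hsm x hx0 ?_ _ ?_
    · have h1 : ∀ i, i ≠ i₀ → qv (A i) x = 0 := by
        intro i hi
        have := ht0 ⟨i, hi⟩
        rwa [hF] at this
      intro i
      by_cases hi : i = i₀
      · subst hi
        have h2 := hbv x
        rw [hMx, dotProduct_zero] at h2
        have h3 : ∀ j, bv (A j) x x = 2 * qv (A j) x := by
          intro j
          simp only [bv, qv, Finset.mul_sum]
          refine Finset.sum_congr rfl fun a _ => Finset.sum_congr rfl fun b _ => ?_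
          ring
        rw [Finset.sum_eq_single i] at h2
        · rw [h3] at h2
          have h4 : (2 : Ω) ≠ 0 := by
            have : CharZero Ω := charZero_of_injective_algebraMap (algebraMap K Ω).injective
            exact two_ne_zero
          have h5 : algebraMap K Ω (μ i) ≠ 0 := by
            rw [Ne, map_eq_zero]
            exact hi₀
          exact (mul_eq_zero.mp ((mul_eq_zero.mp h2).resolve_left h5)).resolve_left h4
        · intro j _ hj
          rw [h3, h1 j hj, mul_zero, mul_zero]
        · intro h
          exact absurd (Finset.mem_univ i) h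
      · exact h1 i hi
    · intro y
      rw [hbv y, hMx, dotProduct_zero]
  exact hi₀ ((map_eq_zero (algebraMap K Ω)).mp (congrFun hμ0 i₀))

end ZC
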