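import Mathlib

/-!
Zero-cycles on a closed subset `X` of projective space, given by homogeneous polynomials
`f i ∈ k[x_0, ..., x_(n-1)]` over a field `k` (perfect in the applications); `Ω` is an algebraic
closure of `k`.

* `Zer f E x`: the vector `x ∈ E^n` is a zero of all `f i` (for `x ≠ 0` this says `[x] ∈ X(E)`).
* `mapPt φ`: the map `P^(n-1)(M) → P^(n-1)(Ω)` induced by a homomorphism of fields `φ`.
* `Place k E Ω`: an `Ω`-valued place of a field extension `E/k`: a valuation ring `V ≠ E` of `E`
  containing `k`, and a homomorphism `V → Ω` over `k` whose kernel is the maximal ideal; in other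
  words a valuation ring together with an embedding of its residue field into `Ω` over `k`.
* `IsFunField k E`: `E/k` is a function field of one variable.
* `IsPush g p z`: the cycle `z` is the push-forward of the divisor of `g` from the normal projective
  curve with function field `E` under the morphism to `P^(n-1)` given by `p ∈ P^(n-1)(E)`.
  (All valuation rings of a function field of one variable `E/k`, other than `E`, which contain `k`
  are discrete valuation rings with residue field finite over `k`, and every `g ≠ 0` has only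
  finitely many zeros and poles, so such a finite set `S` of `Ω`-valued places exists.)
* `ratEq f`: the cycles rationally equivalent to `0` on `X`.
* `cyc f`: the zero-cycles of `X` over `k` (Galois invariant elements of `ℤ[X(Ω)]`), `cyc0 f`:
  those of degree `0`, `F1 f`: zero-cycles of degree `0` modulo rational equivalence.
* `normCyc f`: the group generated by the norms of the points of `X(Ω)` (for `Ω/k` finite);
  `F1bar f`: the image of `F1 f` in `CH_0(X)` modulo the norms.
-/

open scoped LinearAlgebra.Projectivization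

namespace ZC

universe u

section basic

variable {k : Type u} [Field k] {n : ℕ} {ι : Type}

/-- `x` is a common zero of the polynomials `f i`. -/
def Zer (f : ι → MvPolynomial (Fin n) k) (E : Type*) [CommRing E] [Algebra k E]
    (x : Fin n → E) : Prop :=
  ∀ i, MvPolynomial.aeval x (f i) = 0

theorem comp_ne {M Ω : Type*} [Field M] [Field Ω] (φ : M →+* Ω) {x : Fin n → M} (hx : x ≠ 0) :
    (fun i => φ (x i)) ≠ 0 := by
  intro h
  apply hx
  funext i
  have := congrFun h i
  exact (map_eq_zero φ).1 this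

/-- The map on projective spaces induced by a homomorphism of fields. -/
noncomputable def mapPt {M Ω : Type*} [Field M] [Field Ω] (φ : M →+* Ω)
    (x : ℙ M (Fin n → M)) : ℙ Ω (Fin n → Ω) :=
  Projectivization.mk Ω (fun i => φ (x.rep i)) (comp_ne φ x.rep_nonzero)

end basic

/-- An `Ω`-valued place of `E/k`. -/
structure Place (k E Ω : Type u) [Field k] [Field E] [Field Ω] [Algebra k E] [Algebra k Ω] where
  /-- the valuation ring -/
  V : ValuationSubring E
  ne_top : V ≠ ⊤
  mem : ∀ a : k, algebraMap k E a ∈ V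
  /-- the residue map -/
  res : V →+* Ω
  res_k : ∀ a : k, res ⟨algebraMap k E a, mem a⟩ = algebraMap k Ω a
  res_zero : ∀ x : V, ¬ IsUnit x → res x = 0

section place

variable {k E Ω : Type u} [Field k] [Field E] [Field Ω] [Algebra k E] [Algebra k Ω]

/-- `m` is the order of `g` at the place `w`: `g = u π ^ m` with a unit `u` and a generator `π` of
the maximal ideal of the valuation ring. -/
def Place.IsOrd (w : Place k E Ω) (g : E) (m : ℤ) : Prop :=
  ∃ π u : E, π ≠ 0 ∧ (∀ x : E, x ∈ w.V.nonunits ↔ x / π ∈ w.V) ∧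
    u ∈ w.V ∧ u⁻¹ ∈ w.V ∧ u ≠ 0 ∧ g = u * π ^ m

/-- `x` is the value of the point `[p]` of `P^(n-1)(E)` at the place `w`: multiply `p` by `c` such
that all coordinates of `c p` are in the valuation ring and not all of them in the maximal ideal, and
take residues. -/
def Place.IsVal (w : Place k E Ω) {n : ℕ} (p : Fin n → E) (x : ℙ Ω (Fin n → Ω)) : Prop :=
  ∃ (c : E) (hc : ∀ i, c * p i ∈ w.V) (h0 : (fun i => w.res ⟨c * p i, hc i⟩) ≠ 0),
    x = Projectivization.mk Ω (fun i => w.res ⟨c * p i, hc i⟩) h0

/-- `z` is the push-forward of the divisor of `g` along `p`: `S` is a finite set of places which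
contains all zeros and poles of `g`. -/
def IsPush (k : Type u) {E : Type u} (Ω : Type u) [Field k] [Field E] [Field Ω] [Algebra k E]
    [Algebra k Ω] {n : ℕ} (g : E) (p : Fin n → E) (z : ℙ Ω (Fin n → Ω) →₀ ℤ) : Prop :=
  ∃ (S : Finset (Place k E Ω)) (m : Place k E Ω → ℤ) (x : Place k E Ω → ℙ Ω (Fin n → Ω)),
    (∀ w, w ∉ S → g ∈ w.V ∧ g⁻¹ ∈ w.V) ∧ (∀ w ∈ S, w.IsOrd g (m w) ∧ w.IsVal p (x w)) ∧
    z = ∑ w ∈ S, Finsupp.single (x w) (m w)

/-- `E/k` is a function field of one variable. -/
def IsFunField (k E : Type u) [Field k] [Field E] [Algebra k E] : Prop :=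
  ∃ t : E, Transcendental k t ∧ FiniteDimensional (IntermediateField.adjoin k {t}) E

end place

section cycles

variable {k : Type u} [Field k] (Ω : Type u) [Field Ω] [Algebra k Ω] {n : ℕ} {ι : Type}

/-- The zero-cycles rationally equivalent to `0`. -/
noncomputable def ratEq (f : ι → MvPolynomial (Fin n) k) : AddSubgroup (ℙ Ω (Fin n → Ω) →₀ ℤ) :=
  AddSubgroup.closure {z | ∃ (E : Type u) (_ : Field E) (_ : Algebra k E), IsFunField k E ∧
    ∃ (g : E) (p : Fin n → E), g ≠ 0 ∧ p ≠ 0 ∧ Zer f E p ∧ IsPush k Ω g p z}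

/-- The zero-cycles of `X` over `k`: the Galois invariant elements of `ℤ[X(Ω)]`. -/
noncomputable def cyc (f : ι → MvPolynomial (Fin n) k) : AddSubgroup (ℙ Ω (Fin n → Ω) →₀ ℤ) where
  carrier := {z | (∀ x ∈ z.support, Zer f Ω x.rep) ∧
    ∀ (σ : Ω ≃ₐ[k] Ω) (x : ℙ Ω (Fin n → Ω)), z (mapPt (σ : Ω →+* Ω) x) = z x}
  zero_mem' := ⟨fun x hx => by simp at hx, fun σ x => by simp⟩
  add_mem' := by
    classical
    rintro a b ⟨ha, ha'⟩ ⟨hb, hb'⟩
    refine ⟨fun x hx => ?_, fun σ x => by simp [ha', hb']⟩
    rcases Finset.mem_union.1 (Finsupp.support_add hx) with h | h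
    · exact ha x h
    · exact hb x h
  neg_mem' := by
    rintro a ⟨ha, ha'⟩
    exact ⟨fun x hx => ha x (by simpa using hx), fun σ x => by simp [ha']⟩

/-- The degree of a zero-cycle. -/
noncomputable def deg : (ℙ Ω (Fin n → Ω) →₀ ℤ) →+ ℤ :=
  Finsupp.liftAddHom (fun _ => AddMonoidHom.id ℤ)

/-- The zero-cycles of degree `0`. -/
noncomputable def cyc0 (f : ι → MvPolynomial (Fin n) k) : AddSubgroup (ℙ Ω (Fin n → Ω) →₀ ℤ) :=
  cyc Ω f ⊓ (deg Ω).ker

/-- Zero-cycles of degree `0` modulo rational equivalence. -/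
abbrev F1 (f : ι → MvPolynomial (Fin n) k) : Type u :=
  cyc0 Ω f ⧸ (ratEq Ω f).addSubgroupOf (cyc0 Ω f)

/-- The group generated by the norms of the points of `X(Ω)`. -/
noncomputable def normCyc (f : ι → MvPolynomial (Fin n) k) :
    AddSubgroup (ℙ Ω (Fin n → Ω) →₀ ℤ) :=
  AddSubgroup.closure {z | ∃ x : ℙ Ω (Fin n → Ω), Zer f Ω x.rep ∧
    z = ∑ᶠ σ : Ω ≃ₐ[k] Ω, Finsupp.single (mapPt (σ : Ω →+* Ω) x) 1}

/-- The image of `F1` in the zero-cycles modulo rational equivalence and norms. -/
abbrev F1bar (f : ι → MvPolynomial (Fin n) k) : Type u :=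
  cyc0 Ω f ⧸ (ratEq Ω f ⊔ normCyc Ω f).addSubgroupOf (cyc0 Ω f)

end cycles

end ZC
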