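import Pool.Agent.Lib.MP_f80667_ag.ZC.Place

/-! Two points of `X(M)` on a rational curve `A + tB + t^2C` have the same trace. -/

open Polynomial
open scoped LinearAlgebra.Projectivization

namespace ZC

universe u

section gen

variable {M E : Type u} [Field M] [Field E] [Algebra M E] {s : E}

theorem rev_pow (hs : s ≠ 0) (f : M[X]) :
    aeval s⁻¹ (reverse f) * s ^ f.natDegree = aeval s f := by
  let : Invertible s := invertibleOfNonzero hs
  have h := Polynomial.eval₂_reverse_mul_pow (algebraMap M E) s f
  rw [invOf_eq_inv] at h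
  exact h

theorem rev_pow' (hs : s ≠ 0) (f : M[X]) :
    aeval s (reverse f) * s⁻¹ ^ f.natDegree = aeval s⁻¹ f := by
  have := rev_pow (inv_ne_zero hs) f
  rwa [inv_inv] at this

theorem Gen.inv (H : Gen M s) : Gen M s⁻¹ := by
  have hs := H.ne_zero
  constructor
  · rw [injective_iff_map_eq_zero]
    intro f hf
    rw [← rev_pow' hs f] at hf
    rcases mul_eq_zero.1 hf with h | h
    · have : reverse f = 0 := by
        by_contra hcon
        exact H.ne hcon h
      rwa [reverse_eq_zero] at this
    · exact absurd h (pow_ne_zero _ (inv_ne_zero hs))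
  · intro x
    obtain ⟨f, g, hg, hx⟩ := H.frac x
    refine ⟨X ^ g.natDegree * reverse f, X ^ f.natDegree * reverse g, ?_, ?_⟩
    · apply mul_ne_zero (pow_ne_zero _ X_ne_zero)
      rwa [Ne, reverse_eq_zero]
    · rw [← rev_pow hs f, ← rev_pow hs g] at hx
      simp only [map_mul, map_pow, aeval_X]
      have h1 : s ^ g.natDegree * s⁻¹ ^ g.natDegree = 1 := by
        rw [← mul_pow, mul_inv_cancel₀ hs, one_pow]
      have h2 : s ^ f.natDegree * s⁻¹ ^ f.natDegree = 1 := by
        rw [← mul_pow, mul_inv_cancel₀ hs, one_pow]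
      calc x * (s⁻¹ ^ f.natDegree * aeval s⁻¹ (reverse g))
          = (x * (aeval s⁻¹ (reverse g) * s ^ g.natDegree)) *
            (s⁻¹ ^ g.natDegree * s⁻¹ ^ f.natDegree) := by
            rw [show (x * (aeval s⁻¹ (reverse g) * s ^ g.natDegree)) *
              (s⁻¹ ^ g.natDegree * s⁻¹ ^ f.natDegree) = x * (s⁻¹ ^ f.natDegree *
              aeval s⁻¹ (reverse g)) * (s ^ g.natDegree * s⁻¹ ^ g.natDegree) by ring, h1, mul_one]
        _ = _ := by
            rw [hx, show (aeval s⁻¹ (reverse f) * s ^ f.natDegree) *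
              (s⁻¹ ^ g.natDegree * s⁻¹ ^ f.natDegree) = s⁻¹ ^ g.natDegree *
              aeval s⁻¹ (reverse f) * (s ^ f.natDegree * s⁻¹ ^ f.natDegree) by ring, h2, mul_one]

theorem gen_X (M : Type u) [Field M] : Gen M (RatFunc.X : RatFunc M) := by
  constructor
  · intro f g h
    rw [RatFunc.aeval_X_left_eq_algebraMap, RatFunc.aeval_X_left_eq_algebraMap] at h
    exact RatFunc.algebraMap_injective M h
  · intro x
    refine ⟨x.num, x.denom, x.denom_ne_zero, ?_⟩
    rw [RatFunc.aeval_X_left_eq_algebraMap, RatFunc.aeval_X_left_eq_algebraMap]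
    have h := RatFunc.num_div_denom x
    have h0 : algebraMap M[X] (RatFunc M) x.denom ≠ 0 := RatFunc.algebraMap_ne_zero x.denom_ne_zero
    rw [div_eq_iff h0] at h
    exact h.symm

end gen

section funField

variable (k M : Type u) [Field k] [Field M] [Algebra k M] [FiniteDimensional k M]

theorem isFunField_ratFunc : IsFunField k (RatFunc M) := by
  have hG := gen_X M
  refine ⟨RatFunc.X, ?_, ?_⟩
  · intro h
    have h1 : IsAlgebraic M (RatFunc.X : RatFunc M) := h.tower_top M
    obtain ⟨p, hp, hp0⟩ := h1
    exact hG.ne hp hp0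
  · set K0 := IntermediateField.adjoin k {(RatFunc.X : RatFunc M)} with hK0
    let b := Module.finBasis k M
    let S : Set (RatFunc M) := Set.range (fun i => algebraMap M (RatFunc M) (b i))
    have hfin : FiniteDimensional K0 (IntermediateField.adjoin K0 S) := by
      have : Finite S := Set.finite_range _
      apply IntermediateField.finiteDimensional_adjoin
      rintro _ ⟨i, rfl⟩
      have h1 : IsIntegral k (b i) := IsIntegral.of_finite k (b i)
      have h2 : IsIntegral k (algebraMap M (RatFunc M) (b i)) := h1.algebraMap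
      exact h2.tower_top
    have hM : ∀ a : M, algebraMap M (RatFunc M) a ∈ IntermediateField.adjoin K0 S := by
      intro a
      rw [← b.sum_repr a, map_sum]
      refine sum_mem ?_
      intro i _
      rw [Algebra.smul_def, map_mul]
      refine mul_mem ?_ (IntermediateField.subset_adjoin _ _ ⟨i, rfl⟩)
      rw [← IsScalarTower.algebraMap_apply k M (RatFunc M)]
      have : algebraMap k (RatFunc M) (b.repr a i) = algebraMap K0 (RatFunc M) (algebraMap k K0 (b.repr a i)) := by
        rw [← IsScalarTower.algebraMap_apply k K0 (RatFunc M)]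
      rw [this]
      exact IntermediateField.algebraMap_mem _ _
    have hX : (RatFunc.X : RatFunc M) ∈ IntermediateField.adjoin K0 S := by
      have h1 : (RatFunc.X : RatFunc M) ∈ K0 := IntermediateField.mem_adjoin_simple_self k _
      exact IntermediateField.algebraMap_mem (IntermediateField.adjoin K0 S) (⟨RatFunc.X, h1⟩ : K0)
    have hpoly : ∀ f : M[X], aeval (RatFunc.X : RatFunc M) f ∈ IntermediateField.adjoin K0 S := by
      intro f
      induction f using Polynomial.induction_on' with
      | add p q hp hq => rw [map_add]; exact add_mem hp hq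
      | monomial n a =>
        rw [aeval_monomial]
        exact mul_mem (hM a) (pow_mem hX n)
    have htop : IntermediateField.adjoin K0 S = ⊤ := by
      rw [eq_top_iff]
      intro x _
      obtain ⟨f, g, hg, hx⟩ := hG.frac x
      have : x = aeval (RatFunc.X : RatFunc M) f / aeval (RatFunc.X : RatFunc M) g := by
        rw [eq_div_iff (hG.ne hg), hx]
      rw [this]
      exact div_mem (hpoly f) (hpoly g)
    rw [htop] at hfin
    exact (IntermediateField.topEquiv (F := K0) (E := RatFunc M)).toLinearEquiv.finiteDimensional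

end funField

section points

theorem mapPt_mk {M Ω : Type*} [Field M] [Field Ω] {n : ℕ} (φ : M →+* Ω) (v : Fin n → M)
    (hv : v ≠ 0) : mapPt φ (Projectivization.mk M v hv) =
      Projectivization.mk Ω (fun i => φ (v i)) (comp_ne φ hv) := by
  obtain ⟨a, ha⟩ := Projectivization.exists_smul_eq_mk_rep M v hv
  rw [mapPt, Projectivization.mk_eq_mk_iff']
  refine ⟨φ a, ?_⟩
  funext i
  have := congrFun ha i
  simp only [Pi.smul_apply, smul_eq_mul] at this ⊢
  rw [← this, Units.smul_def, smul_eq_mul, map_mul]

/-- The trace of a point of `P^(n-1)(M)`. -/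
noncomputable def trPt (k Ω : Type u) {M : Type u} [Field k] [Field Ω] [Field M] [Algebra k Ω]
    [Algebra k M] [FiniteDimensional k M] {n : ℕ} (x : ℙ M (Fin n → M)) :
    ℙ Ω (Fin n → Ω) →₀ ℤ :=
  ∑ ι : M →ₐ[k] Ω, Finsupp.single (mapPt (ι : M →+* Ω) x) 1

end points

section rel

variable {k M E Ω : Type u} [Field k] [Field M] [Field E] [Field Ω] [Algebra k E] [Algebra k Ω]
  [Algebra k M] [Algebra M E] [IsScalarTower k M E] {s : E} {n : ℕ}

theorem Gen.place_val (H : Gen M s) (ι : M →ₐ[k] Ω) (P : Fin n → M[X])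
    (h0 : (fun j => (P j).eval 0) ≠ 0) (c : E) (hc : c ≠ 0) :
    (H.place ι).IsVal (fun j => c * aeval s (P j))
      (mapPt (ι : M →+* Ω) (Projectivization.mk M _ h0)) := by
  have h1 : ∀ j, c⁻¹ * (c * aeval s (P j)) = aeval s (P j) := by
    intro j; field_simp
  have hmem : ∀ j, c⁻¹ * (c * aeval s (P j)) ∈ (H.place ι).V := by
    intro j
    rw [h1, H.place_V]
    exact H.aeval_mem _
  have hres : ∀ j, (H.place ι).res ⟨c⁻¹ * (c * aeval s (P j)), hmem j⟩ = ι ((P j).eval 0) := by
    intro j
    rw [H.place_res, h1, H.val0_aeval]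
  have hfun : (fun j => (H.place ι).res ⟨c⁻¹ * (c * aeval s (P j)), hmem j⟩) =
      fun j => (ι : M →+* Ω) ((P j).eval 0) := by
    funext j
    rw [hres]
    rfl
  refine ⟨c⁻¹, hmem, ?_, ?_⟩
  · rw [hfun]
    exact comp_ne (ι : M →+* Ω) h0
  · rw [mapPt_mk]
    congr 1
    exact hfun.symm

end rel

section main

variable {k M Ω : Type u} [Field k] [Field M] [Field Ω] [Algebra k Ω]
  [Algebra k M] [FiniteDimensional k M] {n : ℕ} {ι' : Type}

theorem rel_gen (f : ι' → MvPolynomial (Fin n) k) (A C : Fin n → M) (hA : A ≠ 0) (hC : C ≠ 0)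
    (P P' : Fin n → M[X]) (d : ℕ) (hP0 : (fun j => (P j).eval 0) = A)
    (hP0' : (fun j => (P' j).eval 0) = C)
    (hPP : ∀ j, aeval (RatFunc.X : RatFunc M) (P j) =
      RatFunc.X ^ d * aeval (RatFunc.X : RatFunc M)⁻¹ (P' j))
    (hz : ∀ i, MvPolynomial.aeval P (f i) = (0 : M[X])) :
    trPt k Ω (Projectivization.mk M A hA) - trPt k Ω (Projectivization.mk M C hC) ∈
      ratEq Ω f := by
  classical
  have H := gen_X M
  have H' := H.inv
  have hX : (RatFunc.X : RatFunc M) ≠ 0 := H.ne_zero
  set p : Fin n → RatFunc M := fun j => aeval (RatFunc.X : RatFunc M) (P j) with hp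
  have hpp' : p = fun j => (RatFunc.X : RatFunc M) ^ d * aeval (RatFunc.X : RatFunc M)⁻¹ (P' j) :=
    funext hPP
  have hval0 : ∀ ι : M →ₐ[k] Ω, (H.place ι).IsVal p
      (mapPt (ι : M →+* Ω) (Projectivization.mk M A hA)) := by
    intro ι
    have h := H.place_val ι P (by rw [hP0]; exact hA) 1 one_ne_zero
    simp only [one_mul] at h
    convert h using 3
    exact hP0.symm
  have hval1 : ∀ ι : M →ₐ[k] Ω, (H'.place ι).IsVal p
      (mapPt (ι : M →+* Ω) (Projectivization.mk M C hC)) := by
    intro ι
    have h := H'.place_val ι P' (by rw [hP0']; exact hC) (RatFunc.X ^ d) (pow_ne_zero _ hX)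
    rw [hpp']
    convert h using 3
    exact hP0'.symm
  apply AddSubgroup.subset_closure
  refine ⟨RatFunc M, inferInstance, inferInstance, isFunField_ratFunc k M, RatFunc.X, p, hX,
    ?_, ?_, ?_⟩
  · intro h
    apply hA
    rw [← hP0]
    funext j
    have h1 : P j = 0 := by
      by_contra hcon
      exact H.ne hcon (congrFun h j)
    rw [h1]
    simp
  · intro i
    have h1 := congrArg (IsScalarTower.toAlgHom k M[X] (RatFunc M)) (hz i)
    rw [map_zero, MvPolynomial.comp_aeval_apply] at h1
    rw [← h1]
    congr 1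
    ext j
    simp [hp, RatFunc.aeval_X_left_eq_algebraMap]
  · have hinj0 : Function.Injective (fun ι : M →ₐ[k] Ω => H.place ι) := by
      intro a b hab
      have := congrArg (fun w => Place.emb (M := M) w) hab
      simpa [H.place_emb] using this
    have hinj1 : Function.Injective (fun ι : M →ₐ[k] Ω => H'.place ι) := by
      intro a b hab
      have := congrArg (fun w => Place.emb (M := M) w) hab
      simpa [H'.place_emb] using this
    have hn0 : ∀ ι : M →ₐ[k] Ω, (RatFunc.X : RatFunc M) ∈ (H.place ι).V.nonunits :=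
      fun ι => H.place_mem_nonunits ι
    have hn1 : ∀ ι : M →ₐ[k] Ω, (RatFunc.X : RatFunc M) ∉ (H'.place ι).V.nonunits := by
      intro ι h
      have h1 := H'.place_mem_nonunits ι
      rw [ValuationSubring.inv_mem_nonunits_iff] at h1
      rcases h1 with h1 | h1
      · exact hX h1
      · exact h1 ((H'.place ι).V.nonunits_le h)
    refine ⟨Finset.univ.image (fun ι : M →ₐ[k] Ω => H.place ι) ∪
      Finset.univ.image (fun ι : M →ₐ[k] Ω => H'.place ι),
      fun w => if (RatFunc.X : RatFunc M) ∈ w.V.nonunits then 1 else -1,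
      fun w => if (RatFunc.X : RatFunc M) ∈ w.V.nonunits then
        mapPt (w.emb (M := M) : M →+* Ω) (Projectivization.mk M A hA) else
        mapPt (w.emb (M := M) : M →+* Ω) (Projectivization.mk M C hC), ?_, ?_, ?_⟩
    · intro w hw
      simp only [Finset.mem_union, Finset.mem_image, Finset.mem_univ, true_and, not_or,
        not_exists] at hw
      constructor
      · by_contra hcon
        have h1 : (RatFunc.X : RatFunc M)⁻¹ ∈ w.V.nonunits := by
          rw [ValuationSubring.inv_mem_nonunits_iff]
          exact Or.inr hcon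
        exact hw.2 _ (H'.eq_place w h1).symm
      · by_contra hcon
        have h1 : (RatFunc.X : RatFunc M) ∈ w.V.nonunits := by
          rw [ValuationSubring.mem_nonunits_iff_or]
          exact Or.inr hcon
        exact hw.1 _ (H.eq_place w h1).symm
    · intro w hw
      simp only [Finset.mem_union, Finset.mem_image, Finset.mem_univ, true_and] at hw
      rcases hw with ⟨ι, rfl⟩ | ⟨ι, rfl⟩
      · beta_reduce
        rw [if_pos (hn0 ι), if_pos (hn0 ι), H.place_emb]
        exact ⟨H.place_ord ι, hval0 ι⟩
      · beta_reduce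
        rw [if_neg (hn1 ι), if_neg (hn1 ι), H'.place_emb]
        refine ⟨?_, hval1 ι⟩
        have := H'.place_ord_inv ι
        rwa [inv_inv] at this
    · rw [Finset.sum_union, Finset.sum_image (fun a _ b _ h => hinj0 h),
        Finset.sum_image (fun a _ b _ h => hinj1 h), trPt, trPt, sub_eq_add_neg,
        ← Finset.sum_neg_distrib]
      · congr 1
        · apply Finset.sum_congr rfl
          intro ι _
          beta_reduce
          rw [if_pos (hn0 ι), if_pos (hn0 ι), H.place_emb]
        · apply Finset.sum_congr rfl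
          intro ι _
          beta_reduce
          rw [if_neg (hn1 ι), if_neg (hn1 ι), H'.place_emb, Finsupp.single_neg]
      · rw [Finset.disjoint_left]
        intro w h1 h2
        simp only [Finset.mem_image, Finset.mem_univ, true_and] at h1 h2
        obtain ⟨ι, rfl⟩ := h1
        obtain ⟨ι', h'⟩ := h2
        apply hn1 ι'
        rw [h']
        exact hn0 ι

/-- A curve `∑ X ^ a * c a` in `X`. -/
theorem rel_curve (f : ι' → MvPolynomial (Fin n) k) (N : ℕ) (c : ℕ → Fin n → M) (h0 : c 0 ≠ 0)
    (hN : c N ≠ 0) (hz : ∀ i, MvPolynomial.aeval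
      (fun j => ∑ a ∈ Finset.range (N + 1), X ^ a * Polynomial.C (c a j)) (f i) = (0 : M[X])) :
    trPt k Ω (Projectivization.mk M (c 0) h0) - trPt k Ω (Projectivization.mk M (c N) hN) ∈
      ratEq Ω f := by
  have hX : (RatFunc.X : RatFunc M) ≠ 0 := (gen_X M).ne_zero
  refine rel_gen f (c 0) (c N) h0 hN _
    (fun j => ∑ a ∈ Finset.range (N + 1), X ^ a * Polynomial.C (c (N - a) j)) N ?_ ?_ ?_ hz
  · funext j
    rw [eval_finsetSum, Finset.sum_eq_single 0]
    · simp
    · intro b _ hb
      simp [hb]
    · intro h; simp at h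
  · funext j
    rw [eval_finsetSum, Finset.sum_eq_single 0]
    · simp
    · intro b _ hb
      simp [hb]
    · intro h; simp at h
  · intro j
    rw [map_sum, map_sum, Finset.mul_sum, ← Finset.sum_range_reflect]
    apply Finset.sum_congr rfl
    intro a ha
    have ha' : a ≤ N := by
      have := Finset.mem_range.1 ha
      omega
    rw [map_mul, map_mul, map_pow, map_pow, aeval_X, aeval_X, aeval_C, aeval_C, ← mul_assoc]
    congr 1
    have : N + 1 - 1 - a = N - a := by omega
    rw [this]
    rw [inv_pow, ← div_eq_mul_inv, eq_div_iff (pow_ne_zero _ hX), ← pow_add,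
      Nat.sub_add_cancel ha']

theorem rel (f : ι' → MvPolynomial (Fin n) k) (A B C : Fin n → M) (hA : A ≠ 0) (hC : C ≠ 0)
    (hz : ∀ i, MvPolynomial.aeval (fun j => Polynomial.C (A j) + X * Polynomial.C (B j) +
      X ^ 2 * Polynomial.C (C j)) (f i) = (0 : M[X])) :
    trPt k Ω (Projectivization.mk M A hA) - trPt k Ω (Projectivization.mk M C hC) ∈
      ratEq Ω f := by
  have hX : (RatFunc.X : RatFunc M) ≠ 0 := (gen_X M).ne_zero
  refine rel_gen f A C hA hC _ (fun j => Polynomial.C (C j) + X * Polynomial.C (B j) +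
      X ^ 2 * Polynomial.C (A j)) 2 (by funext j; simp) (by funext j; simp) ?_ hz
  intro j
  simp only [map_add, map_mul, map_pow, aeval_X, aeval_C]
  field_simp
  ring

end main

end ZC
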