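import Mathlib

/-! The property of a field which is used for the zero-cycles. -/

namespace ZC

universe u

/-- Every `s` quadratic forms in more than `4s` variables have a common zero over `M`. -/
def Iso (M : Type*) [Field M] (s : ℕ) : Prop :=
  ∀ m, 4 * s < m → ∀ A : Fin s → Matrix (Fin m) (Fin m) M,
    ∃ x : Fin m → M, x ≠ 0 ∧ ∀ i, dotProduct x ((A i).mulVec x) = 0

/-- For every `N ≠ 0` there is a finite extension `L` of `k` of degree prime to `N` such that all
finite extensions `M` of `L` satisfy `Iso M s` for `s ≤ r`. -/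
def Good (k Ω : Type u) [Field k] [Field Ω] [Algebra k Ω] (r : ℕ) : Prop :=
  ∀ N : ℕ, N ≠ 0 → ∃ L : IntermediateField k Ω, FiniteDimensional k L ∧
    (Module.finrank k L).Coprime N ∧
    ∀ M : IntermediateField k Ω, FiniteDimensional k M → L ≤ M → ∀ s ≤ r, Iso M s

end ZC
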