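import Pool.Agent.Lib.MP_f80667_ag.ZC.Conic

/-! Every zero-cycle is an integral combination of traces; traces in towers. -/

open Polynomial
open scoped LinearAlgebra.Projectivization

namespace ZC

universe u

section maps

variable {n : ℕ}

theorem mapPt_mapPt {K M Ω : Type*} [Field K] [Field M] [Field Ω] (φ : M →+* Ω) (ψ : K →+* M)
    (y : ℙ K (Fin n → K)) : mapPt φ (mapPt ψ y) = mapPt (φ.comp ψ) y := by
  conv_lhs => rw [mapPt.eq_def ψ]
  rw [mapPt_mk]
  rfl

theorem mapPt_rep {M Ω : Type*} [Field M] [Field Ω] (φ : M →+* Ω) (y : ℙ M (Fin n → M)) :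
    ∃ c : Ω, c ≠ 0 ∧ (mapPt φ y).rep = c • (fun i => φ (y.rep i)) := by
  obtain ⟨a, ha⟩ := Projectivization.exists_smul_eq_mk_rep Ω (fun i => φ (y.rep i))
    (comp_ne φ y.rep_nonzero)
  exact ⟨a, a.ne_zero, ha.symm⟩

end maps

section zer

variable {k : Type*} [Field k] {n : ℕ} {ι' : Type} {f : ι' → MvPolynomial (Fin n) k}

theorem zer_smul (hf : ∀ i, (f i).IsHomogeneous 2) {M : Type*} [Field M] [Algebra k M]
    {x : Fin n → M} (c : M) (hx : Zer f M x) : Zer f M (c • x) := by
  intro i
  obtain ⟨A, hA⟩ := exists_mat (f i) (hf i)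
  rw [aeval_eq_qv hA, qv_smul, ← aeval_eq_qv hA, hx i, mul_zero]

theorem zer_comp {M Ω : Type*} [Field M] [Field Ω] [Algebra k M] [Algebra k Ω] (φ : M →ₐ[k] Ω)
    (x : Fin n → M) : Zer f Ω (fun i => (φ : M →+* Ω) (x i)) ↔ Zer f M x := by
  refine forall_congr' fun i => ?_
  have h : MvPolynomial.aeval (fun i => (φ : M →+* Ω) (x i)) (f i) =
      φ (MvPolynomial.aeval x (f i)) := by
    rw [MvPolynomial.comp_aeval_apply]
    rfl
  rw [h]
  exact map_eq_zero φ

theorem zer_mk_rep (hf : ∀ i, (f i).IsHomogeneous 2) {M : Type*} [Field M] [Algebra k M]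
    {x : Fin n → M} (hx0 : x ≠ 0) (hx : Zer f M x) : Zer f M (Projectivization.mk M x hx0).rep := by
  obtain ⟨a, ha⟩ := Projectivization.exists_smul_eq_mk_rep M x hx0
  rw [← ha]
  exact zer_smul hf (a : M) hx

theorem zer_mapPt (hf : ∀ i, (f i).IsHomogeneous 2) {M Ω : Type*} [Field M] [Field Ω]
    [Algebra k M] [Algebra k Ω] (φ : M →ₐ[k] Ω) (y : ℙ M (Fin n → M)) :
    Zer f Ω (mapPt (φ : M →+* Ω) y).rep ↔ Zer f M y.rep := by
  obtain ⟨c, hc, h⟩ := mapPt_rep (φ : M →+* Ω) y
  rw [h, ← zer_comp φ]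
  constructor
  · intro h1
    have := zer_smul hf c⁻¹ h1
    rwa [smul_smul, inv_mul_cancel₀ hc, one_smul] at this
  · intro h1
    exact zer_smul hf c h1

end zer

section tower

variable {k K M Ω : Type u} [Field k] [Field K] [Field M] [Field Ω] [Algebra k K] [Algebra k M]
  [Algebra k Ω] [Algebra K M] [IsScalarTower k K M] [FiniteDimensional k K]
  [FiniteDimensional k M] [IsAlgClosed Ω] [CharZero k] {n : ℕ}

theorem trPt_tower (y : ℙ K (Fin n → K)) :
    trPt k Ω (mapPt (algebraMap K M) y) = Module.finrank K M • trPt k Ω y := by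
  classical
  have : FiniteDimensional K M := FiniteDimensional.right k K M
  have : CharZero K := charZero_of_injective_algebraMap (algebraMap k K).injective
  have hfin : ∀ f : K →ₐ[k] Ω, Finite (@AlgHom K M Ω _ _ _ _ f.toRingHom.toAlgebra) := by
    intro f
    let := f.toRingHom.toAlgebra
    infer_instance
  have hcard0 : ∀ f : K →ₐ[k] Ω,
      Nat.card (@AlgHom K M Ω _ _ _ _ f.toRingHom.toAlgebra) = Module.finrank K M := by
    intro f
    let := f.toRingHom.toAlgebra
    have h := AlgHom.card K M Ω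
    rwa [← Nat.card_eq_fintype_card] at h
  let hft : ∀ f : K →ₐ[k] Ω, Fintype (@AlgHom K M Ω _ _ _ _ f.toRingHom.toAlgebra) :=
    fun f => @Fintype.ofFinite _ (hfin f)
  have hcard : ∀ f : K →ₐ[k] Ω,
      Fintype.card (@AlgHom K M Ω _ _ _ _ f.toRingHom.toAlgebra) = Module.finrank K M := by
    intro f
    rw [← Nat.card_eq_fintype_card]
    exact hcard0 f
  rw [trPt, Fintype.sum_equiv (algHomEquivSigma (A := k) (B := K) (C := M) (D := Ω)) _
    (fun σ => Finsupp.single (mapPt (σ.1 : K →+* Ω) y) 1)]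
  · rw [← Finset.univ_sigma_univ, Finset.sum_sigma, trPt, Finset.smul_sum]
    apply Finset.sum_congr rfl
    intro f _
    dsimp only
    rw [Finset.sum_const, Finset.card_univ, hcard]
  · intro σ
    rw [mapPt_mapPt]
    rfl

end tower

section orbit

variable {k Ω : Type u} [Field k] [Field Ω] [Algebra k Ω] [IsAlgClosure k Ω] {n : ℕ}
  {ι' : Type} {f : ι' → MvPolynomial (Fin n) k}

theorem exists_lift (K : IntermediateField k Ω) (ι : K →ₐ[k] Ω) :
    ∃ σ : Ω ≃ₐ[k] Ω, ∀ a : K, σ a = ι a := by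
  have : Normal k Ω := IsAlgClosure.normal k Ω
  refine ⟨AlgEquiv.ofBijective (ι.liftNormal Ω) (AlgHom.normal_bijective k Ω Ω _), ?_⟩
  intro a
  have := ι.liftNormal_commutes Ω a
  simpa using this

theorem exists_min_field (x : ℙ Ω (Fin n → Ω)) :
    ∃ (K : IntermediateField k Ω) (_ : FiniteDimensional k K) (y : ℙ K (Fin n → K)),
      mapPt (K.val : K →+* Ω) y = x ∧
      ∀ ι : K →ₐ[k] Ω, mapPt (ι : K →+* Ω) y = x → ι = K.val := by
  have : Algebra.IsAlgebraic k Ω := IsAlgClosure.isAlgebraic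
  set v := x.rep with hv
  obtain ⟨j0, hj0⟩ : ∃ j, v j ≠ 0 := by
    by_contra hcon
    push Not at hcon
    exact x.rep_nonzero (funext hcon)
  set w : Fin n → Ω := fun j => v j / v j0 with hw
  set K := IntermediateField.adjoin k (Set.range w) with hK
  have hfd : FiniteDimensional k K := by
    have : Finite (Set.range w) := Set.finite_range w
    exact IntermediateField.finiteDimensional_adjoin fun a _ =>
      (Algebra.IsAlgebraic.isAlgebraic a).isIntegral
  have hwK : ∀ j, w j ∈ K := fun j => IntermediateField.subset_adjoin _ _ ⟨j, rfl⟩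
  set y0 : Fin n → K := fun j => ⟨w j, hwK j⟩ with hy0
  have hw0 : w j0 = 1 := by simp [hw, hj0]
  have hy00 : y0 j0 = 1 := by ext; exact hw0
  have hne : y0 ≠ 0 := by
    intro h
    have := congrFun h j0
    rw [hy00] at this
    exact one_ne_zero this
  refine ⟨K, hfd, Projectivization.mk K y0 hne, ?_, ?_⟩
  · rw [mapPt_mk]
    conv_rhs => rw [← x.mk_rep]
    rw [Projectivization.mk_eq_mk_iff']
    refine ⟨(v j0)⁻¹, ?_⟩
    funext j
    exact (div_eq_inv_mul (v j) (v j0)).symm
  · intro ι hι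
    have h1 : mapPt (ι : K →+* Ω) (Projectivization.mk K y0 hne) =
        mapPt (K.val : K →+* Ω) (Projectivization.mk K y0 hne) := by
      rw [hι]
      rw [mapPt_mk]
      conv_lhs => rw [← x.mk_rep]
      rw [eq_comm, Projectivization.mk_eq_mk_iff']
      refine ⟨(v j0)⁻¹, ?_⟩
      funext j
      exact (div_eq_inv_mul (v j) (v j0)).symm
    rw [mapPt_mk, mapPt_mk, Projectivization.mk_eq_mk_iff'] at h1
    obtain ⟨a, ha⟩ := h1
    have ha1 : a = 1 := by
      have := congrFun ha j0
      simp only [Pi.smul_apply, smul_eq_mul, hy00, map_one, mul_one] at this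
      exact this
    rw [ha1, one_smul] at ha
    apply IntermediateField.adjoin_algHom_ext
    rintro _ ⟨j, rfl⟩
    exact (congrFun ha j).symm

omit [IsAlgClosure k Ω] in
theorem trPt_apply {M : Type u} [Field M] [Algebra k M] [FiniteDimensional k M]
    (y : ℙ M (Fin n → M)) (x : ℙ Ω (Fin n → Ω)) [DecidableEq (ℙ Ω (Fin n → Ω))] :
    trPt k Ω y x = ∑ ι : M →ₐ[k] Ω, if mapPt (ι : M →+* Ω) y = x then (1 : ℤ) else 0 := by
  rw [trPt, Finsupp.finsetSum_apply]
  apply Finset.sum_congr rfl
  intro ι _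
  rw [Finsupp.single_apply]

omit [IsAlgClosure k Ω] in
theorem trPt_mem_cyc (hf : ∀ i, (f i).IsHomogeneous 2) {M : Type u} [Field M] [Algebra k M]
    [FiniteDimensional k M] (y : ℙ M (Fin n → M)) (hy : Zer f M y.rep) :
    trPt k Ω y ∈ cyc Ω f := by
  classical
  constructor
  · intro x hx
    rw [Finsupp.mem_support_iff, trPt_apply] at hx
    obtain ⟨ι, _, hι⟩ := Finset.exists_ne_zero_of_sum_ne_zero hx
    have : mapPt (ι : M →+* Ω) y = x := by
      by_contra hcon
      rw [if_neg hcon] at hι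
      exact hι rfl
    rw [← this]
    exact (zer_mapPt hf ι y).2 hy
  · intro σ x
    rw [trPt_apply, trPt_apply]
    symm
    apply Fintype.sum_equiv (AlgEquiv.arrowCongr (AlgEquiv.refl : M ≃ₐ[k] M) σ)
    intro ι
    have h1 : (((AlgEquiv.arrowCongr (AlgEquiv.refl : M ≃ₐ[k] M) σ) ι : M →ₐ[k] Ω) : M →+* Ω) =
        (σ : Ω →+* Ω).comp (ι : M →+* Ω) := by
      ext a
      rfl
    have h2 : mapPt (((AlgEquiv.arrowCongr (AlgEquiv.refl : M ≃ₐ[k] M) σ) ι : M →ₐ[k] Ω) : M →+* Ω) y =
        mapPt (σ : Ω →+* Ω) (mapPt (ι : M →+* Ω) y) := by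
      rw [h1, mapPt_mapPt]
    rw [h2]
    by_cases h : mapPt (ι : M →+* Ω) y = x
    · rw [if_pos h, if_pos (by rw [h])]
    · rw [if_neg h, if_neg]
      intro h3
      apply h
      have h4 := congrArg (mapPt (σ.symm : Ω →+* Ω)) h3
      have h5 : ((σ.symm : Ω →+* Ω)).comp (σ : Ω →+* Ω) = RingHom.id Ω := by
        ext a
        simp
      have h7 : ∀ w : ℙ Ω (Fin n → Ω), mapPt (σ.symm : Ω →+* Ω) (mapPt (σ : Ω →+* Ω) w) = w := by
        intro w
        rw [mapPt_mapPt, h5]
        exact w.mk_rep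
      rwa [h7, h7] at h4

/-- Every zero-cycle is an integral combination of traces of points over finite extensions. -/
theorem mem_closure_tr (hf : ∀ i, (f i).IsHomogeneous 2) (z : ℙ Ω (Fin n → Ω) →₀ ℤ)
    (hz : z ∈ cyc Ω f) : z ∈ AddSubgroup.closure {t | ∃ (K : IntermediateField k Ω)
      (_ : FiniteDimensional k K) (y : ℙ K (Fin n → K)), Zer f K y.rep ∧ t = trPt k Ω y} := by
  classical
  induction h : z.support.card using Nat.strong_induction_on generalizing z with
  | _ N ih =>
    by_cases hz0 : z = 0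
    · rw [hz0]; exact zero_mem _
    obtain ⟨x, hx⟩ : z.support.Nonempty := Finsupp.support_nonempty_iff.2 hz0
    obtain ⟨K, hfd, y, hy, huniq⟩ := exists_min_field (k := k) x
    have hyz : Zer f K y.rep := by
      rw [← zer_mapPt hf K.val, hy]
      exact hz.1 x hx
    have htc := trPt_mem_cyc (Ω := Ω) hf y hyz
    have htx : trPt k Ω y x = 1 := by
      rw [trPt_apply, Finset.sum_eq_single K.val]
      · rw [if_pos hy]
      · intro ι _ hι
        rw [if_neg]
        intro h1
        exact hι (huniq ι h1)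
      · intro h1; exact absurd (Finset.mem_univ _) h1
    have htw : ∀ w, z w = 0 → trPt k Ω y w = 0 := by
      intro w hw
      rw [trPt_apply]
      apply Finset.sum_eq_zero
      intro ι _
      rw [if_neg]
      intro h1
      obtain ⟨σ, hσ⟩ := exists_lift K ι
      have h2 : mapPt (σ : Ω →+* Ω) x = w := by
        rw [← hy, mapPt_mapPt, ← h1]
        congr 1
        ext a
        exact hσ a
      have h3 := hz.2 σ x
      rw [h2, hw] at h3
      exact Finsupp.mem_support_iff.1 hx h3.symm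
    set z' := z - z x • trPt k Ω y with hz'
    have hz'c : z' ∈ cyc Ω f := sub_mem hz (zsmul_mem htc _)
    have hsub : z'.support ⊆ z.support.erase x := by
      intro w hw
      rw [Finsupp.mem_support_iff] at hw
      rw [Finset.mem_erase, Finsupp.mem_support_iff]
      constructor
      · rintro rfl
        apply hw
        rw [hz', Finsupp.sub_apply, Finsupp.smul_apply, htx]
        simp
      · intro hw0
        apply hw
        rw [hz', Finsupp.sub_apply, Finsupp.smul_apply, htw w hw0, hw0]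
        simp
    have hlt : z'.support.card < N := by
      rw [← h]
      exact lt_of_le_of_lt (Finset.card_le_card hsub) (Finset.card_erase_lt_of_mem hx)
    have h1 := ih _ hlt z' hz'c rfl
    have h2 : z = z' + z x • trPt k Ω y := by rw [hz']; abel
    rw [h2]
    refine add_mem h1 (zsmul_mem (AddSubgroup.subset_closure ?_) _)
    exact ⟨K, hfd, y, hyz, rfl⟩

end orbit

end ZC
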