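import Pool.Agent.Lib.MP_f80667_ag.ZC.Defs

/-! The place `s = 0` of a rational function field `E = M(s)`. -/

open Polynomial

namespace ZC

universe u

theorem Place.ext' {k E Ω : Type u} [Field k] [Field E] [Field Ω] [Algebra k E] [Algebra k Ω]
    {w w' : Place k E Ω} (hV : w.V = w'.V)
    (hr : ∀ (x : E) (h : x ∈ w.V) (h' : x ∈ w'.V), w.res ⟨x, h⟩ = w'.res ⟨x, h'⟩) : w = w' := by
  obtain ⟨V, h1, h2, r, h3, h4⟩ := w
  obtain ⟨V', h1', h2', r', h3', h4'⟩ := w'
  simp only at hV hr
  subst hV
  have : r = r' := by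
    ext ⟨x, hx⟩
    exact hr x hx hx
  subst this
  rfl

section unique

variable {k M E Ω : Type u} [Field k] [Field M] [Field E] [Field Ω] [Algebra k E] [Algebra k Ω]
  [Algebra k M] [Algebra M E] [IsScalarTower k M E] [Algebra.IsAlgebraic k M]

theorem Place.mem_M (w : Place k E Ω) (a : M) : algebraMap M E a ∈ w.V := by
  by_contra hcon
  have ha : IsIntegral k a := (Algebra.IsAlgebraic.isAlgebraic a).isIntegral
  obtain ⟨p, hp, hpa⟩ := ha
  have h1 : IsIntegral w.V.valuation.integer (algebraMap M E a) := by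
    let φ : k →+* w.V.valuation.integer :=
      { toFun := fun c => ⟨algebraMap k E c, (w.V.valuation_le_one_iff _).2 (w.mem c)⟩
        map_one' := by ext; simp
        map_zero' := by ext; simp
        map_mul' := by intro x y; ext; simp
        map_add' := by intro x y; ext; simp }
    refine ⟨p.map φ, hp.map φ, ?_⟩
    rw [Polynomial.eval₂_map]
    have h2 : (algebraMap w.V.valuation.integer E).comp φ = (algebraMap M E).comp (algebraMap k M) := by
      ext c
      simp only [RingHom.coe_comp, Function.comp_apply]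
      rw [← IsScalarTower.algebraMap_apply]
      rfl
    rw [h2, ← Polynomial.hom_eval₂, hpa, map_zero]
  have h3 := (Valuation.Integers.mem_of_integral (Valuation.integer.integers w.V.valuation) h1)
  exact hcon ((w.V.valuation_le_one_iff _).1 h3)

/-- The embedding of the constants given by a place. -/
noncomputable def Place.emb (w : Place k E Ω) : M →ₐ[k] Ω :=
  { toFun := fun a => w.res ⟨algebraMap M E a, w.mem_M a⟩
    map_one' := by
      have : (⟨algebraMap M E 1, w.mem_M 1⟩ : w.V) = 1 := by ext; simp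
      rw [this, map_one]
    map_zero' := by
      have : (⟨algebraMap M E 0, w.mem_M 0⟩ : w.V) = 0 := by ext; simp
      rw [this, map_zero]
    map_mul' := by
      intro x y
      rw [← map_mul]
      congr 1
      ext; simp
    map_add' := by
      intro x y
      rw [← map_add]
      congr 1
      ext; simp
    commutes' := by
      intro a
      rw [← w.res_k a]
      congr 1
      ext
      simp only
      rw [← IsScalarTower.algebraMap_apply] }

theorem Place.emb_apply (w : Place k E Ω) (a : M) :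
    w.emb (M := M) a = w.res ⟨algebraMap M E a, w.mem_M a⟩ := rfl

end unique

section val0

variable {M E Ω : Type u} [Field M] [Field E] [Field Ω] [Algebra M E]

/-- The elements of `E = M(s)` which are regular at `s = 0`. -/
def Reg0 (M : Type u) {E : Type u} [Field M] [Field E] [Algebra M E] (s x : E) : Prop :=
  ∃ f g : M[X], g.eval 0 ≠ 0 ∧ x * aeval s g = aeval s f

theorem fac_X (f : M[X]) (hf : f ≠ 0) : ∃ (a : ℕ) (h : M[X]), h.eval 0 ≠ 0 ∧ f = X ^ a * h := by
  obtain ⟨q, hq, hd⟩ := f.exists_eq_pow_rootMultiplicity_mul_and_not_dvd hf 0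
  refine ⟨f.rootMultiplicity 0, q, ?_, by simpa using hq⟩
  intro h
  apply hd
  rw [Polynomial.dvd_iff_isRoot]
  exact h

variable (M) in
/-- `s` generates `E` over `M` and is transcendental. -/
structure Gen (s : E) : Prop where
  inj : Function.Injective (aeval s : M[X] →ₐ[M] E)
  frac : ∀ x : E, ∃ f g : M[X], g ≠ 0 ∧ x * aeval s g = aeval s f

variable {s : E}

theorem Gen.ne (H : Gen M s) {f : M[X]} (hf : f ≠ 0) : aeval s f ≠ 0 := by
  intro h
  exact hf (H.inj (by simpa using h))

theorem Gen.ne_zero (H : Gen M s) : s ≠ 0 := by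
  have := H.ne (f := X) X_ne_zero
  simpa using this

theorem Gen.uniq (H : Gen M s) {x : E} {f g f' g' : M[X]} (h : x * aeval s g = aeval s f)
    (h' : x * aeval s g' = aeval s f') : f * g' = f' * g := by
  apply H.inj
  rw [map_mul, map_mul, ← h, ← h']
  ring

/-- The valuation ring of `s = 0`. -/
def Gen.V0 (H : Gen M s) : ValuationSubring E where
  carrier := {x | Reg0 M s x}
  mul_mem' := by
    rintro x y ⟨f, g, hg, hx⟩ ⟨f', g', hg', hy⟩
    exact ⟨f * f', g * g', by simp [hg, hg'], by rw [map_mul, map_mul, ← hx, ← hy]; ring⟩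
  one_mem' := ⟨1, 1, by simp, by simp⟩
  add_mem' := by
    rintro x y ⟨f, g, hg, hx⟩ ⟨f', g', hg', hy⟩
    exact ⟨f * g' + f' * g, g * g', by simp [hg, hg'],
      by simp only [map_add, map_mul, ← hx, ← hy]; ring⟩
  zero_mem' := ⟨0, 1, by simp, by simp⟩
  neg_mem' := by
    rintro x ⟨f, g, hg, hx⟩
    exact ⟨-f, g, hg, by simp only [map_neg, ← hx]; ring⟩
  mem_or_inv_mem' := by
    intro x
    by_cases hx0 : x = 0
    · left
      exact ⟨0, 1, by simp, by simp [hx0]⟩
    obtain ⟨f, g, hg, hx⟩ := H.frac x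
    have hf : f ≠ 0 := by
      rintro rfl
      rw [map_zero] at hx
      rcases mul_eq_zero.1 hx with h | h
      · exact hx0 h
      · exact H.ne hg h
    obtain ⟨a, f1, hf1, hfa⟩ := fac_X f hf
    obtain ⟨b, g1, hg1, hgb⟩ := fac_X g hg
    have hs0 := H.ne_zero
    rcases le_total b a with hab | hab
    · left
      refine ⟨X ^ (a - b) * f1, g1, hg1, ?_⟩
      rw [hfa, hgb] at hx
      simp only [map_mul, map_pow, aeval_X] at hx ⊢
      apply mul_left_cancel₀ (pow_ne_zero b hs0)
      rw [← mul_assoc (s ^ b) (s ^ (a - b)), ← pow_add, Nat.add_sub_cancel' hab, ← hx]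
      ring
    · right
      refine ⟨X ^ (b - a) * g1, f1, hf1, ?_⟩
      rw [hfa, hgb] at hx
      simp only [map_mul, map_pow, aeval_X] at hx ⊢
      apply mul_left_cancel₀ (pow_ne_zero a hs0)
      rw [← mul_assoc (s ^ a) (s ^ (b - a)), ← pow_add, Nat.add_sub_cancel' hab]
      apply mul_left_cancel₀ hx0
      rw [hx]
      field_simp

theorem Gen.mem_V0 (H : Gen M s) {x : E} : x ∈ H.V0 ↔ Reg0 M s x := Iff.rfl

/-- The value at `s = 0`. -/
noncomputable def val0 (M : Type u) {E : Type u} [Field M] [Field E] [Algebra M E] (s x : E) : M :=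
  open Classical in
  if h : Reg0 M s x then h.choose.eval 0 / h.choose_spec.choose.eval 0 else 0

theorem Gen.val0_eq (H : Gen M s) {x : E} {f g : M[X]} (hg : g.eval 0 ≠ 0)
    (hx : x * aeval s g = aeval s f) : val0 M s x = f.eval 0 / g.eval 0 := by
  have h : Reg0 M s x := ⟨f, g, hg, hx⟩
  have h2 := h.choose_spec.choose_spec
  rw [val0, dif_pos h]
  have h3 := H.uniq hx h2.2
  rw [div_eq_div_iff h2.1 hg, ← eval_mul, ← eval_mul, h3]

/-- The residue map at `s = 0`. -/
noncomputable def Gen.res0 (H : Gen M s) : H.V0 →+* M where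
  toFun x := val0 M s x
  map_one' := by
    rw [H.val0_eq (x := ((1 : H.V0) : E)) (f := 1) (g := 1) (by simp) (by simp)]
    simp
  map_zero' := by
    rw [H.val0_eq (x := ((0 : H.V0) : E)) (f := 0) (g := 1) (by simp) (by simp)]
    simp
  map_mul' := by
    intro x y
    obtain ⟨f, g, hg, hx⟩ : Reg0 M s x := x.2
    obtain ⟨f', g', hg', hy⟩ : Reg0 M s y := y.2
    have h1 := H.val0_eq hg hx
    have h2 := H.val0_eq hg' hy
    have h3 := H.val0_eq (x := (x : E) * y) (f := f * f') (g := g * g') (by simp [hg, hg'])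
      (by rw [map_mul, map_mul, ← hx, ← hy]; ring)
    rw [h1, h2, MulMemClass.coe_mul, h3, eval_mul, eval_mul]
    field_simp
  map_add' := by
    intro x y
    obtain ⟨f, g, hg, hx⟩ : Reg0 M s x := x.2
    obtain ⟨f', g', hg', hy⟩ : Reg0 M s y := y.2
    have h1 := H.val0_eq hg hx
    have h2 := H.val0_eq hg' hy
    have h3 := H.val0_eq (x := (x : E) + y) (f := f * g' + f' * g) (g := g * g') (by simp [hg, hg'])
      (by simp only [map_add, map_mul, ← hx, ← hy]; ring)
    rw [h1, h2, AddMemClass.coe_add, h3, eval_add, eval_mul, eval_mul, eval_mul]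
    field_simp

theorem Gen.res0_apply (H : Gen M s) (x : H.V0) : H.res0 x = val0 M s x := rfl

theorem Gen.algebraMap_mem (H : Gen M s) (a : M) : algebraMap M E a ∈ H.V0 :=
  ⟨C a, 1, by simp, by simp⟩

theorem Gen.s_mem (H : Gen M s) : s ∈ H.V0 := ⟨X, 1, by simp, by simp⟩

theorem Gen.aeval_mem (H : Gen M s) (f : M[X]) : aeval s f ∈ H.V0 := ⟨f, 1, by simp, by simp⟩

theorem Gen.val0_aeval (H : Gen M s) (f : M[X]) : val0 M s (aeval s f) = f.eval 0 := by
  rw [H.val0_eq (x := aeval s f) (f := f) (g := 1) (by simp) (by simp)]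
  simp

theorem Gen.inv_notMem (H : Gen M s) : s⁻¹ ∉ H.V0 := by
  rintro ⟨f, g, hg, h⟩
  have h1 : s * aeval s f = aeval s g := by
    rw [← h, ← mul_assoc, mul_inv_cancel₀ H.ne_zero, one_mul]
  have h2 : X * f = g := by
    apply H.inj
    simpa using h1
  apply hg
  rw [← h2]
  simp

theorem Gen.mem_nonunits (H : Gen M s) (x : E) : x ∈ H.V0.nonunits ↔ x / s ∈ H.V0 := by
  rw [ValuationSubring.mem_nonunits_iff_or]
  have hs0 := H.ne_zero
  constructor
  · rintro (rfl | h)
    · simpa using H.V0.zero_mem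
    · have hx : x ∈ H.V0 := (H.V0.mem_or_inv_mem x).resolve_right h
      obtain ⟨f, g, hg, hx⟩ := hx
      have hf0 : f.eval 0 = 0 := by
        by_contra hf0
        apply h
        refine ⟨g, f, hf0, ?_⟩
        rw [← hx]
        by_cases hx0 : x = 0
        · rw [hx0, zero_mul] at hx
          exfalso
          apply hf0
          have : f = 0 := H.inj (by simpa using hx.symm)
          rw [this]
          simp
        · field_simp
      obtain ⟨f1, rfl⟩ : X ∣ f := by
        rw [X_dvd_iff, ← hf0, coeff_zero_eq_eval_zero]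
      refine ⟨f1, g, hg, ?_⟩
      rw [map_mul, aeval_X] at hx
      rw [div_mul_eq_mul_div, hx]
      field_simp
  · intro h
    by_cases hx0 : x = 0
    · left; exact hx0
    right
    intro hcon
    have h1 := H.V0.mul_mem _ _ hcon h
    apply H.inv_notMem
    have : x⁻¹ * (x / s) = s⁻¹ := by field_simp
    rwa [this] at h1

theorem Gen.V0_ne_top (H : Gen M s) : H.V0 ≠ ⊤ := by
  intro h
  apply H.inv_notMem
  rw [h]
  exact ValuationSubring.mem_top _

theorem Gen.res0_nonunit (H : Gen M s) (x : H.V0) (hx : ¬ IsUnit x) : H.res0 x = 0 := by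
  have h1 : (x : E) ∈ H.V0.nonunits := by
    rw [ValuationSubring.coe_mem_nonunits_iff, IsLocalRing.mem_maximalIdeal]
    exact hx
  rw [H.mem_nonunits] at h1
  have h2 : x = ⟨s, H.s_mem⟩ * ⟨(x : E) / s, h1⟩ := by
    ext
    have := H.ne_zero
    simp only [MulMemClass.coe_mul]
    field_simp
  rw [h2, map_mul]
  have h3 : H.res0 ⟨s, H.s_mem⟩ = 0 := by
    rw [H.res0_apply]
    have := H.val0_aeval X
    simpa using this
  rw [h3, zero_mul]

end val0

section place0

variable {k M E Ω : Type u} [Field k] [Field M] [Field E] [Field Ω] [Algebra k E] [Algebra k Ω]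
  [Algebra k M] [Algebra M E] [IsScalarTower k M E] {s : E}

/-- The place `s = 0` with an embedding `ι` of the residue field `M`. -/
noncomputable def Gen.place (H : Gen M s) (ι : M →ₐ[k] Ω) : Place k E Ω where
  V := H.V0
  ne_top := H.V0_ne_top
  mem := by
    intro a
    rw [IsScalarTower.algebraMap_apply k M E]
    exact H.algebraMap_mem _
  res := (ι : M →+* Ω).comp H.res0
  res_k := by
    intro a
    have h1 := H.val0_aeval (C (algebraMap k M a))
    rw [aeval_C, ← IsScalarTower.algebraMap_apply k M E, eval_C] at h1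
    simp only [RingHom.coe_comp, Function.comp_apply, RingHom.coe_coe]
    rw [H.res0_apply]
    simp only
    rw [h1]
    simp
  res_zero := by
    intro x hx
    simp only [RingHom.coe_comp, Function.comp_apply]
    rw [H.res0_nonunit x hx, map_zero]

theorem Gen.place_V (H : Gen M s) (ι : M →ₐ[k] Ω) : (H.place ι).V = H.V0 := rfl

theorem Gen.place_res (H : Gen M s) (ι : M →ₐ[k] Ω) (x : E) (hx : x ∈ (H.place ι).V) :
    (H.place ι).res ⟨x, hx⟩ = ι (val0 M s x) := rfl

theorem Gen.place_ord (H : Gen M s) (ι : M →ₐ[k] Ω) : (H.place ι).IsOrd s 1 :=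
  ⟨s, 1, H.ne_zero, H.mem_nonunits, H.V0.one_mem, by simpa using H.V0.one_mem, one_ne_zero,
    by simp⟩

theorem Gen.place_ord_inv (H : Gen M s) (ι : M →ₐ[k] Ω) : (H.place ι).IsOrd s⁻¹ (-1) :=
  ⟨s, 1, H.ne_zero, H.mem_nonunits, H.V0.one_mem, by simpa using H.V0.one_mem, one_ne_zero,
    by simp⟩

variable [Algebra.IsAlgebraic k M]

theorem Place.aeval_mem' (w : Place k E Ω) (hs : s ∈ w.V) (f : M[X]) : aeval s f ∈ w.V := by
  induction f using Polynomial.induction_on' with
  | add p q hp hq => rw [map_add]; exact w.V.add_mem _ _ hp hq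
  | monomial n a =>
    rw [aeval_monomial]
    exact w.V.mul_mem _ _ (w.mem_M a) (pow_mem hs n)

theorem Place.res_aeval (w : Place k E Ω) (hs : s ∈ w.V.nonunits) (f : M[X])
    (h : aeval s f ∈ w.V) : w.res ⟨aeval s f, h⟩ = w.emb (f.eval 0) := by
  have hsV : s ∈ w.V := w.V.nonunits_le hs
  have hs0 : w.res ⟨s, hsV⟩ = 0 := by
    apply w.res_zero
    have := (ValuationSubring.coe_mem_nonunits_iff (A := w.V) (a := ⟨s, hsV⟩)).1 hs
    rwa [IsLocalRing.mem_maximalIdeal] at this
  obtain ⟨g, hg⟩ : X ∣ f - C (f.eval 0) := by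
    rw [X_dvd_iff, coeff_zero_eq_eval_zero]; simp
  have hf : f = C (f.eval 0) + X * g := by rw [← hg]; ring
  have h2 : (⟨aeval s f, h⟩ : w.V) = ⟨algebraMap M E (f.eval 0), w.mem_M _⟩ +
      ⟨s, hsV⟩ * ⟨aeval s g, w.aeval_mem' hsV g⟩ := by
    ext
    simp only [AddMemClass.coe_add, MulMemClass.coe_mul]
    conv_lhs => rw [hf]
    simp
  rw [h2, map_add, map_mul, hs0, zero_mul, add_zero]
  rfl

theorem Gen.eq_place (H : Gen M s) (w : Place k E Ω) (hs : s ∈ w.V.nonunits) :
    w = H.place w.emb := by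
  have hsV : s ∈ w.V := w.V.nonunits_le hs
  have hunit : ∀ g : M[X], g.eval 0 ≠ 0 → (aeval s g)⁻¹ ∈ w.V := by
    intro g hg
    have h1 := w.res_aeval hs g (w.aeval_mem' hsV g)
    have h2 : IsUnit (⟨aeval s g, w.aeval_mem' hsV g⟩ : w.V) := by
      by_contra hcon
      rw [w.res_zero _ hcon] at h1
      exact hg ((map_eq_zero w.emb).1 h1.symm)
    obtain ⟨v, hv⟩ := h2.exists_right_inv
    have h3 : aeval s g * (v : E) = 1 := by
      have := congrArg (Subtype.val) hv
      simpa using this
    rw [← eq_inv_of_mul_eq_one_right h3]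
    exact v.2
  have hV : w.V = H.V0 := by
    apply ValuationSubring.ext
    intro x
    constructor
    · intro hx
      by_cases hx0 : x = 0
      · rw [hx0]; exact H.V0.zero_mem
      obtain ⟨f, g, hg, hxf⟩ := H.frac x
      have hf : f ≠ 0 := by
        rintro rfl
        rw [map_zero] at hxf
        rcases mul_eq_zero.1 hxf with h | h
        · exact hx0 h
        · exact H.ne hg h
      obtain ⟨a, f1, hf1, hfa⟩ := fac_X f hf
      obtain ⟨b, g1, hg1, hgb⟩ := fac_X g hg
      have hs0 := H.ne_zero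
      by_cases hab : b ≤ a
      · refine ⟨X ^ (a - b) * f1, g1, hg1, ?_⟩
        rw [hfa, hgb] at hxf
        simp only [map_mul, map_pow, aeval_X] at hxf ⊢
        apply mul_left_cancel₀ (pow_ne_zero b hs0)
        rw [← mul_assoc (s ^ b) (s ^ (a - b)), ← pow_add, Nat.add_sub_cancel' hab, ← hxf]
        ring
      · exfalso
        have hab' : a + (b - a - 1) + 1 = b := by omega
        rw [hfa, hgb] at hxf
        simp only [map_mul, map_pow, aeval_X] at hxf
        rw [← hab', pow_succ, pow_add] at hxf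
        have h4 : x * (s ^ (b - a - 1) * aeval s g1 * (aeval s f1)⁻¹) = s⁻¹ := by
          have h5 : aeval s f1 ≠ 0 := H.ne (by rintro rfl; simp at hf1)
          have h6 : s ^ a ≠ 0 := pow_ne_zero _ hs0
          field_simp
          apply mul_left_cancel₀ h6
          rw [← hxf]
          ring
        have h7 : s⁻¹ ∈ w.V := by
          rw [← h4]
          exact w.V.mul_mem _ _ hx (w.V.mul_mem _ _ (w.V.mul_mem _ _ (pow_mem hsV _)
            (w.aeval_mem' hsV g1)) (hunit f1 hf1))
        rw [ValuationSubring.mem_nonunits_iff_or] at hs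
        rcases hs with h | h
        · exact hs0 h
        · exact h h7
    · rintro ⟨f, g, hg, hx⟩
      have hg0 : aeval s g ≠ 0 := H.ne (by rintro rfl; simp at hg)
      have : x = aeval s f * (aeval s g)⁻¹ := by
        rw [← hx]; field_simp
      rw [this]
      exact w.V.mul_mem _ _ (w.aeval_mem' hsV f) (hunit g hg)
  refine Place.ext' hV ?_
  intro x hx hx'
  rw [H.place_res]
  obtain ⟨f, g, hg, hxf⟩ : Reg0 M s x := hx'
  rw [H.val0_eq hg hxf, map_div₀]
  have h1 := w.res_aeval hs g (w.aeval_mem' hsV g)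
  have h2 := w.res_aeval hs f (w.aeval_mem' hsV f)
  have h3 : (⟨x, hx⟩ : w.V) * ⟨aeval s g, w.aeval_mem' hsV g⟩ = ⟨aeval s f, w.aeval_mem' hsV f⟩ := by
    ext
    simpa using hxf
  have h4 := congrArg w.res h3
  rw [map_mul, h1, h2] at h4
  have h5 : w.emb (M := M) (g.eval 0) ≠ 0 := by
    intro h
    exact hg ((map_eq_zero w.emb).1 h)
  rw [eq_div_iff h5, h4]

theorem Gen.place_emb (H : Gen M s) (ι : M →ₐ[k] Ω) : (H.place ι).emb = ι := by
  ext a
  rw [Place.emb_apply, H.place_res]
  have h1 := H.val0_aeval (C a)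
  rw [aeval_C, eval_C] at h1
  rw [h1]

theorem Gen.place_mem_nonunits (H : Gen M s) (ι : M →ₐ[k] Ω) : s ∈ (H.place ι).V.nonunits := by
  rw [H.place_V, H.mem_nonunits, div_self H.ne_zero]
  exact H.V0.one_mem

end place0

end ZC
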