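import Pool.Agent.Lib.MP_f80667_ag.ZC.Rel
import Pool.Agent.Lib.MP_f80667_ag.ZC.Good

/-! Two points of an intersection of `r` quadrics lie on a conic or on a chain of lines. -/

open Polynomial
open scoped LinearAlgebra.Projectivization

namespace ZC

universe u

section qf

variable {k : Type*} [Field k] {n : ℕ}

/-- The value of the quadratic form with coefficients `A` in a `k`-algebra. -/
def qv (A : Matrix (Fin n) (Fin n) k) {R : Type*} [CommRing R] [Algebra k R] (x : Fin n → R) : R :=
  ∑ i, ∑ j, algebraMap k R (A i j) * (x i * x j)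

/-- The polar form. -/
def bv (A : Matrix (Fin n) (Fin n) k) {R : Type*} [CommRing R] [Algebra k R]
    (x y : Fin n → R) : R :=
  ∑ i, ∑ j, algebraMap k R (A i j) * (x i * y j + y i * x j)

theorem exists_two {d : Fin n →₀ ℕ} (hd : d.degree = 2) :
    ∃ i j, d = Finsupp.single i 1 + Finsupp.single j 1 := by
  have h0 : ∀ e : Fin n →₀ ℕ, e.degree ≠ 0 → ∃ i, Finsupp.single i 1 ≤ e := by
    intro e he
    have : e ≠ 0 := by rintro rfl; exact he (by simp)
    obtain ⟨i, hi⟩ := Finsupp.ne_iff.1 this
    refine ⟨i, ?_⟩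
    rw [Finsupp.single_le_iff]
    simp only [Finsupp.coe_zero, Pi.zero_apply] at hi
    omega
  obtain ⟨i, hi⟩ := h0 d (by omega)
  obtain ⟨e, rfl⟩ := exists_add_of_le hi
  have he : e.degree = 1 := by
    have : (Finsupp.single i 1 + e).degree = 1 + e.degree := by simp
    omega
  obtain ⟨j, hj⟩ := h0 e (by omega)
  obtain ⟨e', rfl⟩ := exists_add_of_le hj
  have he' : e'.degree = 0 := by
    have : (Finsupp.single j 1 + e').degree = 1 + e'.degree := by simp
    omega
  have : e' = 0 := by
    rwa [Finsupp.degree_eq_zero_iff] at he'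
  exact ⟨i, j, by rw [this, add_zero]⟩

theorem exists_mat (f : MvPolynomial (Fin n) k) (hf : f.IsHomogeneous 2) :
    ∃ A : Matrix (Fin n) (Fin n) k,
      f = ∑ i, ∑ j, MvPolynomial.C (A i j) * (MvPolynomial.X i * MvPolynomial.X j) := by
  classical
  have hmon : ∀ d ∈ f.support, ∃ A : Matrix (Fin n) (Fin n) k,
      MvPolynomial.monomial d (MvPolynomial.coeff d f) =
        ∑ i, ∑ j, MvPolynomial.C (A i j) * (MvPolynomial.X i * MvPolynomial.X j) := by
    intro d hd
    have hdeg : d.degree = 2 := by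
      by_contra hcon
      exact MvPolynomial.mem_support_iff.1 hd (hf.coeff_eq_zero hcon)
    obtain ⟨i, j, hij⟩ := exists_two hdeg
    refine ⟨Matrix.single i j (MvPolynomial.coeff d f), ?_⟩
    rw [Finset.sum_eq_single i, Finset.sum_eq_single j]
    · rw [Matrix.single_apply_same, MvPolynomial.X, MvPolynomial.X, MvPolynomial.monomial_mul,
        MvPolynomial.C_mul_monomial, ← hij, one_mul, mul_one]
    · intro b _ hb
      rw [Matrix.single_apply_of_col_ne _ _ (Ne.symm hb), map_zero, zero_mul]
    · intro h; exact absurd (Finset.mem_univ _) h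
    · intro b _ hb
      apply Finset.sum_eq_zero
      intro c _
      rw [Matrix.single_apply_of_row_ne (Ne.symm hb), map_zero, zero_mul]
    · intro h; exact absurd (Finset.mem_univ _) h
  choose! A hA using hmon
  refine ⟨∑ d ∈ f.support, A d, ?_⟩
  conv_lhs => rw [f.as_sum]
  rw [Finset.sum_congr rfl hA]
  rw [Finset.sum_comm]
  apply Finset.sum_congr rfl
  intro i _
  rw [Finset.sum_comm]
  apply Finset.sum_congr rfl
  intro j _
  rw [Matrix.sum_apply, map_sum, Finset.sum_mul]

theorem aeval_eq_qv {f : MvPolynomial (Fin n) k} {A : Matrix (Fin n) (Fin n) k}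
    (h : f = ∑ i, ∑ j, MvPolynomial.C (A i j) * (MvPolynomial.X i * MvPolynomial.X j))
    {R : Type*} [CommRing R] [Algebra k R] (x : Fin n → R) : MvPolynomial.aeval x f = qv A x := by
  rw [h, qv]
  simp only [map_sum, map_mul, MvPolynomial.aeval_C, MvPolynomial.aeval_X]

variable (A : Matrix (Fin n) (Fin n) k) {R : Type*} [CommRing R] [Algebra k R]

theorem qv_add (x y : Fin n → R) : qv A (x + y) = qv A x + bv A x y + qv A y := by
  simp only [qv, bv, ← Finset.sum_add_distrib]
  apply Finset.sum_congr rfl; intro i _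
  apply Finset.sum_congr rfl; intro j _
  simp only [Pi.add_apply]
  ring

theorem qv_smul (c : R) (x : Fin n → R) : qv A (c • x) = c ^ 2 * qv A x := by
  simp only [qv, Finset.mul_sum]
  apply Finset.sum_congr rfl; intro i _
  apply Finset.sum_congr rfl; intro j _
  simp only [Pi.smul_apply, smul_eq_mul]
  ring

theorem bv_smul (c : R) (x y : Fin n → R) : bv A (c • x) y = c * bv A x y := by
  simp only [bv, Finset.mul_sum]
  apply Finset.sum_congr rfl; intro i _
  apply Finset.sum_congr rfl; intro j _
  simp only [Pi.smul_apply, smul_eq_mul]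
  ring

theorem bv_comm (x y : Fin n → R) : bv A x y = bv A y x := by
  simp only [bv]
  apply Finset.sum_congr rfl; intro i _
  apply Finset.sum_congr rfl; intro j _
  ring

theorem bv_smul_right (c : R) (x y : Fin n → R) : bv A x (c • y) = c * bv A x y := by
  rw [bv_comm, bv_smul, bv_comm]

theorem bv_add (x y z : Fin n → R) : bv A (x + y) z = bv A x z + bv A y z := by
  simp only [bv, ← Finset.sum_add_distrib]
  apply Finset.sum_congr rfl; intro i _
  apply Finset.sum_congr rfl; intro j _
  simp only [Pi.add_apply]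
  ring

theorem bv_add_right (x y z : Fin n → R) : bv A x (y + z) = bv A x y + bv A x z := by
  rw [bv_comm, bv_add, bv_comm A y x, bv_comm A z x]

theorem qv_map {S : Type*} [CommRing S] [Algebra k S] [Algebra R S] [IsScalarTower k R S]
    (x : Fin n → R) : qv A (fun i => algebraMap R S (x i)) = algebraMap R S (qv A x) := by
  simp only [qv, map_sum, map_mul]
  apply Finset.sum_congr rfl; intro i _
  apply Finset.sum_congr rfl; intro j _
  rw [← IsScalarTower.algebraMap_apply k R S]

theorem bv_map {S : Type*} [CommRing S] [Algebra k S] [Algebra R S] [IsScalarTower k R S]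
    (x y : Fin n → R) : bv A (fun i => algebraMap R S (x i)) (fun i => algebraMap R S (y i)) =
      algebraMap R S (bv A x y) := by
  simp only [bv, map_sum, map_mul, map_add]
  apply Finset.sum_congr rfl; intro i _
  apply Finset.sum_congr rfl; intro j _
  rw [← IsScalarTower.algebraMap_apply k R S]

end qf

section curve

variable {k M : Type*} [Field k] [Field M] [Algebra k M] {n : ℕ}

theorem qv_curve (A : Matrix (Fin n) (Fin n) k) (a b c : Fin n → M) (h1 : qv A a = 0)
    (h2 : bv A a b = 0) (h3 : qv A b + bv A a c = 0) (h4 : bv A b c = 0) (h5 : qv A c = 0) :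
    qv A (fun j => Polynomial.C (a j) + X * Polynomial.C (b j) + X ^ 2 * Polynomial.C (c j)) =
      (0 : M[X]) := by
  have e : (fun j => Polynomial.C (a j) + X * Polynomial.C (b j) + X ^ 2 * Polynomial.C (c j)) =
      (fun j => algebraMap M M[X] (a j)) + (X : M[X]) • (fun j => algebraMap M M[X] (b j)) +
        (X ^ 2 : M[X]) • (fun j => algebraMap M M[X] (c j)) := by
    funext j
    simp [Polynomial.algebraMap_eq]
  rw [e, qv_add, qv_add, bv_add, qv_smul, qv_smul, bv_smul_right, bv_smul_right, bv_smul,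
    bv_smul_right, qv_map, qv_map, qv_map, bv_map, bv_map, bv_map, h1, h2, h4, h5]
  have h6 : algebraMap M M[X] (qv A b) + algebraMap M M[X] (bv A a c) = 0 := by
    rw [← map_add, h3, map_zero]
  simp only [map_zero]
  linear_combination X ^ 2 * h6

open Matrix in
theorem qv_eq_dot (A : Matrix (Fin n) (Fin n) k) (R : Fin n → M) :
    qv A R = R ⬝ᵥ ((A.map (algebraMap k M)) *ᵥ R) := by
  simp only [qv, dotProduct, mulVec, Finset.mul_sum, Matrix.map_apply]
  apply Finset.sum_congr rfl; intro i _
  apply Finset.sum_congr rfl; intro j _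
  ring

end curve

section join

open Matrix

variable {k M Ω : Type u} [Field k] [Field M] [Field Ω] [Algebra k Ω]
  [Algebra k M] [FiniteDimensional k M] {n : ℕ}

theorem dot_conj {m : ℕ} (A' : Matrix (Fin n) (Fin n) M) (E : Matrix (Fin n) (Fin m) M)
    (x : Fin m → M) : (E *ᵥ x) ⬝ᵥ (A' *ᵥ (E *ᵥ x)) = x ⬝ᵥ ((Eᵀ * A' * E) *ᵥ x) := by
  rw [Matrix.mulVec_mulVec, Matrix.dotProduct_mulVec, ← Matrix.vecMul_transpose E x,
    Matrix.vecMul_vecMul, ← Matrix.dotProduct_mulVec, Matrix.mul_assoc]

theorem exists_mem_polar {s : ℕ} (A : Fin (s + 1) → Matrix (Fin n) (Fin n) k)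
    (hn : 6 * s + 3 ≤ n) (hM : Iso M s) (P Q : Fin n → M) (β : Fin (s + 1) → M)
    (i0 : Fin (s + 1)) (hi0 : β i0 ≠ 0) :
    ∃ R : Fin n → M, R ≠ 0 ∧ (∀ i, bv (A i) P R = 0) ∧ (∀ i, bv (A i) R Q = 0) ∧
      ∃ c : M, ∀ i, qv (A i) R = c * β i := by
  let Φ : (Fin n → M) →ₗ[M] (Fin (s + 1) → M) × (Fin (s + 1) → M) :=
    { toFun := fun R => (fun i => bv (A i) P R, fun i => bv (A i) R Q)
      map_add' := by
        intro x y
        ext i
        · exact bv_add_right (A i) P x y
        · exact bv_add (A i) x y Q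
      map_smul' := by
        intro c x
        ext i
        · exact bv_smul_right (A i) c P x
        · exact bv_smul (A i) c x Q }
  have hker : 4 * s + 1 ≤ Module.finrank M (LinearMap.ker Φ) := by
    have h1 := LinearMap.finrank_range_add_finrank_ker Φ
    have h2 : Module.finrank M (LinearMap.range Φ) ≤ (s + 1) + (s + 1) := by
      have := Submodule.finrank_le (LinearMap.range Φ)
      simpa using this
    have h3 : Module.finrank M (Fin n → M) = n := by simp
    omega
  let b := Module.finBasis M (LinearMap.ker Φ)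
  let v : Fin (4 * s + 1) → (Fin n → M) := fun j => (b (Fin.castLE hker j) : Fin n → M)
  have hv : LinearIndependent M v := by
    have h1 : LinearIndependent M (fun j : Fin (4 * s + 1) => b (Fin.castLE hker j)) :=
      b.linearIndependent.comp _ (Fin.castLE_injective hker)
    exact h1.map' (LinearMap.ker Φ).subtype (Submodule.ker_subtype _)
  let E : Matrix (Fin n) (Fin (4 * s + 1)) M := Matrix.of fun a j => v j a
  have hE : ∀ x : Fin (4 * s + 1) → M, E *ᵥ x = ∑ j, x j • v j := by
    intro x
    funext a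
    simp only [mulVec, dotProduct, E, Matrix.of_apply, Finset.sum_apply, Pi.smul_apply,
      smul_eq_mul]
    apply Finset.sum_congr rfl; intro j _
    ring
  let A' : Fin (s + 1) → Matrix (Fin n) (Fin n) M := fun i => (A i).map (algebraMap k M)
  obtain ⟨x, hx, hxz⟩ := hM (4 * s + 1) (by omega) (fun i : Fin s =>
    β i0 • (Eᵀ * A' (i0.succAbove i) * E) - β (i0.succAbove i) • (Eᵀ * A' i0 * E))
  have hR0 : E *ᵥ x ≠ 0 := by
    rw [hE]
    intro h
    apply hx
    funext j
    exact Fintype.linearIndependent_iff.1 hv x h j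
  have hmem : E *ᵥ x ∈ LinearMap.ker Φ := by
    rw [hE]
    refine Submodule.sum_mem _ ?_
    intro j _
    exact Submodule.smul_mem _ _ (b (Fin.castLE hker j)).2
  rw [LinearMap.mem_ker] at hmem
  refine ⟨E *ᵥ x, hR0, fun i => congrFun (congrArg Prod.fst hmem) i,
    fun i => congrFun (congrArg Prod.snd hmem) i, qv (A i0) (E *ᵥ x) / β i0, ?_⟩
  intro i
  rcases eq_or_ne i i0 with rfl | hne
  · field_simp
  · obtain ⟨j, rfl⟩ := Fin.exists_succAbove_eq hne
    have h1 := hxz j
    rw [Matrix.sub_mulVec, Matrix.smul_mulVec, Matrix.smul_mulVec, dotProduct_sub,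
      dotProduct_smul, dotProduct_smul, ← dot_conj, ← dot_conj, ← qv_eq_dot, ← qv_eq_dot,
      smul_eq_mul, smul_eq_mul] at h1
    field_simp
    linear_combination h1

omit [FiniteDimensional k M] in
theorem zer_curve {ι' : Type} {f : ι' → MvPolynomial (Fin n) k}
    {A : ι' → Matrix (Fin n) (Fin n) k}
    (hA : ∀ i, f i = ∑ a, ∑ b, MvPolynomial.C (A i a b) * (MvPolynomial.X a * MvPolynomial.X b))
    {a b c : Fin n → M} (h : ∀ i, qv (A i) a = 0 ∧ bv (A i) a b = 0 ∧
      qv (A i) b + bv (A i) a c = 0 ∧ bv (A i) b c = 0 ∧ qv (A i) c = 0) (i : ι') :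
    MvPolynomial.aeval (fun j => Polynomial.C (a j) + X * Polynomial.C (b j) +
      X ^ 2 * Polynomial.C (c j)) (f i) = (0 : M[X]) := by
  rw [aeval_eq_qv (hA i)]
  obtain ⟨h1, h2, h3, h4, h5⟩ := h i
  exact qv_curve (A i) a b c h1 h2 h3 h4 h5

/-- Two points of an intersection of `s + 1` quadrics in `n ≥ 6s + 3` variables over `M` have
rationally equivalent traces, if `s` quadratic forms in more than `4s` variables have a common zero
over `M`. -/
theorem join {s : ℕ} (f : Fin (s + 1) → MvPolynomial (Fin n) k)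
    (hf : ∀ i, (f i).IsHomogeneous 2) (hn : 6 * s + 3 ≤ n) (hM : Iso M s)
    (P Q : Fin n → M) (hP : P ≠ 0) (hQ : Q ≠ 0) (zP : Zer f M P) (zQ : Zer f M Q) :
    trPt k Ω (Projectivization.mk M P hP) - trPt k Ω (Projectivization.mk M Q hQ) ∈
      ratEq Ω f := by
  choose A hA using fun i => exists_mat (f i) (hf i)
  have qP : ∀ i, qv (A i) P = 0 := fun i => by rw [← aeval_eq_qv (hA i)]; exact zP i
  have qQ : ∀ i, qv (A i) Q = 0 := fun i => by rw [← aeval_eq_qv (hA i)]; exact zQ i
  have qz : ∀ i, qv (A i) (0 : Fin n → M) = 0 := by intro i; simp [qv]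
  have bz : ∀ i (y : Fin n → M), bv (A i) (0 : Fin n → M) y = 0 := by intro i y; simp [bv]
  have bz' : ∀ i (y : Fin n → M), bv (A i) y (0 : Fin n → M) = 0 := by intro i y; simp [bv]
  by_cases hβ : ∀ i, bv (A i) P Q = 0
  · apply rel f P 0 Q hP hQ
    apply zer_curve hA
    intro i
    exact ⟨qP i, bz' i P, by rw [qz, hβ, add_zero], bz i Q, qQ i⟩
  · push Not at hβ
    obtain ⟨i0, hi0⟩ := hβ
    obtain ⟨R, hR, hPR, hRQ, c, hc⟩ := exists_mem_polar A hn hM P Q
      (fun i => bv (A i) P Q) i0 hi0
    by_cases hc0 : c = 0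
    · have qR : ∀ i, qv (A i) R = 0 := by intro i; rw [hc, hc0, zero_mul]
      have h1 : trPt k Ω (Projectivization.mk M P hP) - trPt k Ω (Projectivization.mk M R hR) ∈
          ratEq Ω f := by
        apply rel f P 0 R hP hR
        apply zer_curve hA
        intro i
        exact ⟨qP i, bz' i P, by rw [qz, hPR, add_zero], bz i R, qR i⟩
      have h2 : trPt k Ω (Projectivization.mk M R hR) - trPt k Ω (Projectivization.mk M Q hQ) ∈
          ratEq Ω f := by
        apply rel f R 0 Q hR hQ
        apply zer_curve hA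
        intro i
        exact ⟨qR i, bz' i R, by rw [qz, hRQ, add_zero], bz i Q, qQ i⟩
      have h3 := add_mem h1 h2
      rwa [sub_add_sub_cancel] at h3
    · have hcQ : (-c) • Q ≠ 0 := smul_ne_zero (neg_ne_zero.2 hc0) hQ
      have h1 : trPt k Ω (Projectivization.mk M P hP) -
          trPt k Ω (Projectivization.mk M ((-c) • Q) hcQ) ∈ ratEq Ω f := by
        apply rel f P R ((-c) • Q) hP hcQ
        apply zer_curve hA
        intro i
        refine ⟨qP i, hPR i, ?_, ?_, ?_⟩
        · rw [hc, bv_smul_right]; ring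
        · rw [bv_smul_right, hRQ, mul_zero]
        · rw [qv_smul, qQ, mul_zero]
      have h2 : Projectivization.mk M ((-c) • Q) hcQ = Projectivization.mk M Q hQ := by
        rw [Projectivization.mk_eq_mk_iff']
        exact ⟨-c, rfl⟩
      rwa [h2] at h1

end join

end ZC
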