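import Pool.Agent.Lib.MP_f80667_ag.ZC.Chain
import Pool.Agent.Lib.MP_f80667_ag.ZC.Conic

/-! Two points of `X(M)` have rationally equivalent traces if `n ≥ bnd r`: chains of curves. -/

open Polynomial
open scoped LinearAlgebra.Projectivization

namespace ZC

open Pool.Agent.Lib.MP_f80667_ag

universe u

section qm

variable {k M : Type u} [Field k] [Field M] [Algebra k M] {n r : ℕ}

/-- The quadratic forms with coefficients `A i` as one quadratic map over `M`. -/
noncomputable def qm (M : Type u) [Field M] [Algebra k M] (A : Fin r → Matrix (Fin n) (Fin n) k) :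
    QuadraticMap M (Fin n → M) (Fin r → M) where
  toFun x i := qv (A i) x
  toFun_smul a x := by
    funext i
    rw [qv_smul, Pi.smul_apply, smul_eq_mul, sq]
  exists_companion' := by
    refine ⟨LinearMap.mk₂ M (fun x y i => bv (A i) x y) ?_ ?_ ?_ ?_, fun x y => ?_⟩
    · intro x y z; funext i; exact bv_add (A i) x y z
    · intro c x y; funext i; exact bv_smul (A i) c x y
    · intro x y z; funext i; exact bv_add_right (A i) x y z
    · intro c x y; funext i; exact bv_smul_right (A i) c x y
    · funext i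
      rw [LinearMap.mk₂_apply, qv_add]
      simp only [Pi.add_apply]
      ring

theorem qm_apply (A : Fin r → Matrix (Fin n) (Fin n) k) (x : Fin n → M) (i : Fin r) :
    qm M A x i = qv (A i) x := rfl

end qm

section joinTr

variable {k M Ω : Type u} [Field k] [Field M] [Field Ω] [Algebra k Ω]
  [Algebra k M] [FiniteDimensional k M] {n r : ℕ}

theorem rel_el [Infinite M] (f : Fin r → MvPolynomial (Fin n) k)
    {A : Fin r → Matrix (Fin n) (Fin n) k}
    (hA : ∀ i, f i = ∑ a, ∑ b, MvPolynomial.C (A i a b) * (MvPolynomial.X a * MvPolynomial.X b))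
    {x y : Fin n → M} (h : Ch.El (qm M A) x y) (hx : x ≠ 0) (hy : y ≠ 0) :
    trPt k Ω (Projectivization.mk M x hx) - trPt k Ω (Projectivization.mk M y hy) ∈
      ratEq Ω f := by
  obtain ⟨N, c, rfl, rfl, hc⟩ := Ch.el_curve h
  refine rel_curve f N c hx hy fun i => ?_
  refine Polynomial.funext fun u => ?_
  have h1 := MvPolynomial.comp_aeval_apply
    (fun j => ∑ a ∈ Finset.range (N + 1), X ^ a * Polynomial.C (c a j))
    ((Polynomial.aeval u : M[X] →ₐ[M] M).restrictScalars k) (f i)
  have h2 : Polynomial.eval u (MvPolynomial.aeval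
      (fun j => ∑ a ∈ Finset.range (N + 1), X ^ a * Polynomial.C (c a j)) (f i)) =
      ((Polynomial.aeval u : M[X] →ₐ[M] M).restrictScalars k) (MvPolynomial.aeval
      (fun j => ∑ a ∈ Finset.range (N + 1), X ^ a * Polynomial.C (c a j)) (f i)) := by
    rw [AlgHom.restrictScalars_apply, Polynomial.aeval_def, Algebra.algebraMap_self,
      Polynomial.eval₂_id]
  rw [h2, h1, Polynomial.eval_zero, aeval_eq_qv (hA i)]
  have h3 := congrFun (hc u) i
  rw [qm_apply, Pi.zero_apply] at h3
  rw [← h3]
  congr 1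
  funext j
  rw [Finset.sum_apply, AlgHom.restrictScalars_apply, map_sum]
  refine Finset.sum_congr rfl fun a _ => ?_
  rw [map_mul, map_pow, aeval_X, aeval_C, Algebra.algebraMap_self, RingHom.id_apply,
    Pi.smul_apply, smul_eq_mul]

theorem rel_joined [Infinite M] (f : Fin r → MvPolynomial (Fin n) k)
    {A : Fin r → Matrix (Fin n) (Fin n) k}
    (hA : ∀ i, f i = ∑ a, ∑ b, MvPolynomial.C (A i a b) * (MvPolynomial.X a * MvPolynomial.X b))
    {x y : Fin n → M} (h : Ch.Joined (qm M A) x y) :
    (x ≠ 0 ↔ y ≠ 0) ∧ ∀ (hx : x ≠ 0) (hy : y ≠ 0),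
    trPt k Ω (Projectivization.mk M x hx) - trPt k Ω (Projectivization.mk M y hy) ∈
      ratEq Ω f := by
  induction h with
  | rel x y h =>
    rcases h with h | ⟨a, ha, rfl⟩
    · exact ⟨⟨fun _ => h.2.1, fun _ => h.1⟩, fun hx hy => rel_el f hA h hx hy⟩
    · refine ⟨⟨fun hx => smul_ne_zero ha hx, fun h hx => h (by rw [hx, smul_zero])⟩,
        fun hx hy => ?_⟩
      have e : Projectivization.mk M (a • x) hy = Projectivization.mk M x hx := by
        rw [Projectivization.mk_eq_mk_iff']
        exact ⟨a, rfl⟩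
      rw [e, sub_self]
      exact zero_mem _
  | refl x => exact ⟨Iff.rfl, fun hx hy => by rw [sub_self]; exact zero_mem _⟩
  | symm x y _ ih =>
    refine ⟨ih.1.symm, fun hx hy => ?_⟩
    rw [← neg_sub]
    exact neg_mem (ih.2 hy hx)
  | trans x y z _ _ ih1 ih2 =>
    refine ⟨ih1.1.trans ih2.1, fun hx hz => ?_⟩
    have hy := ih1.1.1 hx
    have h := add_mem (ih1.2 hx hy) (ih2.2 hy hz)
    rwa [sub_add_sub_cancel] at h

/-- Two points of an intersection of `r` quadrics in `n ≥ bnd r` variables over `M` have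
rationally equivalent traces, if for all `s < r` any `s` quadratic forms in more than `4s` variables
have a common zero over `M`. -/
theorem join' [Infinite M] (f : Fin r → MvPolynomial (Fin n) k)
    (hf : ∀ i, (f i).IsHomogeneous 2) (hn : Ch.bnd r ≤ n) (hM : ∀ s, s < r → Iso M s)
    (P Q : Fin n → M) (hP : P ≠ 0) (hQ : Q ≠ 0) (zP : Zer f M P) (zQ : Zer f M Q) :
    trPt k Ω (Projectivization.mk M P hP) - trPt k Ω (Projectivization.mk M Q hQ) ∈
      ratEq Ω f := by
  choose A hA using fun i => exists_mat (f i) (hf i)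
  have qP : qm M A P = 0 := by
    funext i
    rw [qm_apply, ← aeval_eq_qv (hA i)]
    exact zP i
  have qQ : qm M A Q = 0 := by
    funext i
    rw [qm_apply, ← aeval_eq_qv (hA i)]
    exact zQ i
  have h := Ch.joined (M := M) r (fun s hs => Ch.hbq_of_matrix (hM s hs)) (Fin n → M) (Fin r → M)
    (qm M A) (by simp) (by simpa using hn) P Q hP hQ qP qQ
  exact (rel_joined f hA h).2 hP hQ

end joinTr

end ZC
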