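import Pool.Agent.Lib.MP_f80667_ag.ZC.Arch
import Pool.Agent.Lib.MP_f80667_ag.ZC.JoinTr

/-! The real places: an intersection of quadrics whose real points form a connected set. -/

open Polynomial Topology
open scoped LinearAlgebra.Projectivization

namespace ZC

open Pool.Agent.Lib.MP_f80667_ag

universe u

section top

/-- The vector `x` up to sign: the symmetric matrix `x xᵀ`. -/
def sqm {k : Type u} [Field k] {n : ℕ} (x : Fin n → k) : Fin n → Fin n → k :=
  fun i j => x i * x j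

theorem sqm_inj {k : Type u} [Field k] {n : ℕ} {x y : Fin n → k} (hx : x ≠ 0)
    (h : sqm x = sqm y) : y = x ∨ y = (-1 : k) • x := by
  obtain ⟨i, hi⟩ := Function.ne_iff.1 hx
  have h1 : x i * x i = y i * y i := congrFun (congrFun h i) i
  have h2 : ∀ j, x i * x j = y i * y j := fun j => congrFun (congrFun h i) j
  rcases mul_self_eq_mul_self_iff.1 h1 with h3 | h3
  · left
    funext j
    have h4 := h2 j
    rw [← h3] at h4
    exact (mul_left_cancel₀ hi h4).symm
  · right
    funext j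
    have h4 := h2 j
    have h5 : y i = - x i := by rw [h3, neg_neg]
    rw [h5] at h4
    rw [Pi.smul_apply, smul_eq_mul]
    have h6 : x i * x j = x i * (- y j) := by rw [h4]; ring
    have h7 := mul_left_cancel₀ hi h6
    rw [h7]
    ring

variable {k : Type u} [Field k] [TopologicalSpace k] {n : ℕ}

/-- A continuous section of `sqm` near `x`. -/
theorem exists_sec (e : k ≃+* ℝ) (he : Continuous e) (he' : Continuous e.symm)
    (x : Fin n → k) (hx : x ≠ 0) : ∃ σ : (Fin n → Fin n → k) → (Fin n → k),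
      ContinuousAt σ (sqm x) ∧ σ (sqm x) = x ∧ ∀ y : Fin n → k, σ (sqm y) ≠ 0 →
        (σ (sqm y) = y ∨ σ (sqm y) = (-1 : k) • y) := by
  obtain ⟨i, hi⟩ := Function.ne_iff.1 hx
  have hi' : e (x i) ≠ 0 := (map_ne_zero e).2 hi
  let c : ℝ := SignType.sign (e (x i))
  have hc : c = 1 ∨ c = -1 := by
    rcases lt_or_gt_of_ne hi' with h | h
    · right
      simp [c, sign_neg h]
    · left
      simp [c, sign_pos h]
  have hc0 : c ≠ 0 := by rcases hc with h | h <;> rw [h] <;> norm_num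
  have hcx : c * Real.sqrt (e (x i) * e (x i)) = e (x i) := by
    rw [Real.sqrt_mul_self_eq_abs]
    exact sign_mul_abs (e (x i))
  refine ⟨fun y j => e.symm (e (y i j) / (c * Real.sqrt (e (y i i)))), ?_, ?_, ?_⟩
  · rw [continuousAt_pi]
    intro j
    refine he'.continuousAt.comp ?_
    refine ContinuousAt.div ?_ ?_ ?_
    · exact (he.comp ((continuous_apply j).comp (continuous_apply i))).continuousAt
    · refine ContinuousAt.mul continuousAt_const ?_
      exact (Real.continuous_sqrt.comp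
        (he.comp ((continuous_apply i).comp (continuous_apply i)))).continuousAt
    · rw [sqm, map_mul, hcx]
      exact hi'
  · funext j
    change e.symm (e (x i * x j) / (c * Real.sqrt (e (x i * x i)))) = x j
    rw [map_mul, map_mul, hcx, mul_div_cancel_left₀ _ hi', RingEquiv.symm_apply_apply]
  · intro y hy
    have hyi : e (y i) ≠ 0 := by
      intro h
      apply hy
      funext j
      change e.symm (e (y i * y j) / (c * Real.sqrt (e (y i * y i)))) = 0
      rw [map_mul, h, zero_mul, zero_div, map_zero]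
    have h1 : ∀ j, e.symm (e (y i * y j) / (c * Real.sqrt (e (y i * y i)))) =
        e.symm (e (y i) * e (y j) / (c * |e (y i)|)) := by
      intro j
      rw [map_mul, map_mul, Real.sqrt_mul_self_eq_abs]
    rcases abs_choice (e (y i)) with h | h <;> rcases hc with h' | h'
    · left
      funext j
      change e.symm (e (y i * y j) / (c * Real.sqrt (e (y i * y i)))) = y j
      rw [h1, h, h', one_mul, mul_div_cancel_left₀ _ hyi, RingEquiv.symm_apply_apply]
    · right
      funext j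
      change e.symm (e (y i * y j) / (c * Real.sqrt (e (y i * y i)))) = (-1 : k) * y j
      rw [h1, h, h', neg_one_mul, neg_one_mul, div_neg, mul_div_cancel_left₀ _ hyi, map_neg,
        RingEquiv.symm_apply_apply]
    · right
      funext j
      change e.symm (e (y i * y j) / (c * Real.sqrt (e (y i * y i)))) = (-1 : k) * y j
      rw [h1, h, h', one_mul, neg_one_mul, div_neg, mul_div_cancel_left₀ _ hyi, map_neg,
        RingEquiv.symm_apply_apply]
    · left
      funext j
      change e.symm (e (y i * y j) / (c * Real.sqrt (e (y i * y i)))) = y j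
      rw [h1, h, h', neg_one_mul, neg_neg, mul_div_cancel_left₀ _ hyi, RingEquiv.symm_apply_apply]

/-- A relation on the nonzero vectors of a set which is locally trivial and invariant under sign is
trivial if the set is connected up to sign. -/
theorem rel_of_conn (e : k ≃+* ℝ) (he : Continuous e) (he' : Continuous e.symm)
    (Z : Set (Fin n → k)) (R : (Fin n → k) → (Fin n → k) → Prop) (hR : Equivalence R)
    (hneg : ∀ x, R x ((-1 : k) • x)) (hZ0 : ∀ x ∈ Z, x ≠ 0) (hZn : ∀ x ∈ Z, (-1 : k) • x ∈ Z)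
    (hloc : ∀ x ∈ Z, ∀ᶠ y in 𝓝 x, y ∈ Z → R x y) (hconn : IsPreconnected (sqm '' Z))
    (x y : Fin n → k) (hx : x ∈ Z) (hy : y ∈ Z) : R x y := by
  -- the two open sets
  have key : ∀ a : Z, ∃ W : Set (Fin n → Fin n → k), IsOpen W ∧ sqm a.1 ∈ W ∧
      ∀ b ∈ Z, sqm b ∈ W → R a.1 b := by
    rintro ⟨a, ha⟩
    obtain ⟨σ, h1, h2, h3⟩ := exists_sec e he he' a (hZ0 a ha)
    have h5 : ∀ᶠ w in 𝓝 (sqm a), σ w ∈ Z → R a (σ w) := by
      refine h1.eventually (p := fun y => y ∈ Z → R a y) ?_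
      rw [h2]
      exact hloc a ha
    obtain ⟨i, hi⟩ := Function.ne_iff.1 (hZ0 a ha)
    have h6 : ∀ᶠ w in 𝓝 (sqm a), e (σ w i) ≠ 0 := by
      have h7 : ContinuousAt (fun w => e (σ w i)) (sqm a) :=
        he.continuousAt.comp ((continuous_apply i).continuousAt.comp h1)
      refine h7.eventually_ne ?_
      rw [h2]
      exact (map_ne_zero e).2 hi
    obtain ⟨W, hW, hWo, hWa⟩ := eventually_nhds_iff.1 (h5.and h6)
    refine ⟨W, hWo, hWa, fun b hb hbW => ?_⟩
    obtain ⟨h8, h9⟩ := hW _ hbW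
    have h10 : σ (sqm b) ≠ 0 := by
      intro h
      apply h9
      rw [h, Pi.zero_apply, map_zero]
    rcases h3 b h10 with h | h
    · rw [h] at h8
      exact h8 hb
    · rw [h] at h8
      exact hR.trans (h8 (hZn b hb)) (hR.symm (hneg b))
  choose W hWo hWa hWb using key
  by_contra hcon
  obtain ⟨w, ⟨b, hb, rfl⟩, hw1, hw2⟩ := hconn (⋃ a : {a : Z // R x a}, W a.1)
    (⋃ a : {a : Z // ¬ R x a}, W a.1) (isOpen_iUnion fun a => hWo _) (isOpen_iUnion fun a => hWo _)
    (by
      rintro _ ⟨b, hb, rfl⟩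
      by_cases h : R x b
      · left
        exact Set.mem_iUnion.2 ⟨⟨⟨b, hb⟩, h⟩, hWa ⟨b, hb⟩⟩
      · right
        exact Set.mem_iUnion.2 ⟨⟨⟨b, hb⟩, h⟩, hWa ⟨b, hb⟩⟩)
    ⟨sqm x, ⟨x, hx, rfl⟩, Set.mem_iUnion.2 ⟨⟨⟨x, hx⟩, hR.refl x⟩, hWa ⟨x, hx⟩⟩⟩
    ⟨sqm y, ⟨y, hy, rfl⟩, Set.mem_iUnion.2 ⟨⟨⟨y, hy⟩, hcon⟩, hWa ⟨y, hy⟩⟩⟩
  obtain ⟨⟨a, ha⟩, ha'⟩ := Set.mem_iUnion.1 hw1
  obtain ⟨⟨c, hc⟩, hc'⟩ := Set.mem_iUnion.1 hw2
  exact hc (hR.trans (hR.trans ha (hWb a b hb ha')) (hR.symm (hWb c b hb hc')))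

end top

section real

variable {k Ω : Type u} [Field k] [Field Ω] [Algebra k Ω] {n : ℕ}

theorem trPt_self (y : ℙ k (Fin n → k)) :
    trPt k Ω y = Finsupp.single (mapPt (algebraMap k Ω) y) 1 := by
  rw [trPt, Fintype.sum_unique]
  congr 1

theorem trPt_bot (K : IntermediateField k Ω) (hK : K = ⊥) [FiniteDimensional k K]
    (y : ℙ K (Fin n → K)) : ∃ φ : K →ₐ[k] k, trPt k Ω y = trPt k Ω (mapPt (φ : K →+* k) y) := by
  subst hK
  refine ⟨(IntermediateField.botEquiv k Ω).toAlgHom, ?_⟩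
  have h1 : ∀ φ ψ : (⊥ : IntermediateField k Ω) →ₐ[k] Ω, φ = ψ := by
    intro φ ψ
    have h2 : φ.comp (IntermediateField.botEquiv k Ω).symm.toAlgHom =
        ψ.comp (IntermediateField.botEquiv k Ω).symm.toAlgHom := Subsingleton.elim _ _
    ext x
    obtain ⟨a, rfl⟩ := (IntermediateField.botEquiv k Ω).symm.surjective x
    exact congrArg (fun f => f a) h2
  rw [trPt_self, trPt, Finset.sum_eq_single (IntermediateField.val _)]
  · congr 1
    rw [mapPt_mapPt]
    congr 1
    ext x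
    obtain ⟨a, rfl⟩ := (IntermediateField.botEquiv k Ω).symm.surjective x
    simp
  · intro b _ hb
    exact absurd (h1 _ _) hb
  · intro h
    exact absurd (Finset.mem_univ _) h

variable {ι' : Type} {f : ι' → MvPolynomial (Fin n) k}

/-- A zero-cycle is a multiple of a real point modulo norms, if all real points are rationally
equivalent. -/
theorem cyc_real [IsAlgClosure k Ω] [CharZero k] (hf : ∀ i, (f i).IsHomogeneous 2)
    (h2 : Module.finrank k Ω = 2) (P : ℙ k (Fin n → k))
    (hj : ∀ Q : ℙ k (Fin n → k), Zer f k Q.rep → trPt k Ω Q - trPt k Ω P ∈ ratEq Ω f)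
    (z : ℙ Ω (Fin n → Ω) →₀ ℤ) (hz : z ∈ cyc Ω f) :
    ∃ m c : ℤ, z - m • trPt k Ω P ∈ ratEq Ω f ⊔ normCyc Ω f ∧ deg Ω z = m + 2 * c := by
  have hfd : FiniteDimensional k Ω := Module.finite_of_finrank_pos (by omega)
  refine AddSubgroup.closure_induction (p := fun z _ => ∃ m c : ℤ,
    z - m • trPt k Ω P ∈ ratEq Ω f ⊔ normCyc Ω f ∧ deg Ω z = m + 2 * c) ?_ ?_ ?_ ?_
    (mem_closure_tr hf z hz)
  · rintro t ⟨K, hK, y, hy, rfl⟩
    have h1 := Module.finrank_mul_finrank k K Ω
    rw [h2] at h1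
    have h3 : Module.finrank k K ∣ 2 := ⟨_, h1.symm⟩
    rcases (Nat.dvd_prime Nat.prime_two).1 h3 with h4 | h4
    · have h5 : K = ⊥ := IntermediateField.finrank_eq_one_iff.1 h4
      obtain ⟨φ, hφ⟩ := trPt_bot K h5 y
      refine ⟨1, 0, ?_, ?_⟩
      · rw [one_smul, hφ]
        exact AddSubgroup.mem_sup_left (hj _ ((zer_mapPt hf φ y).2 hy))
      · rw [hφ, trPt_self, deg_single]
        norm_num
    · have h5 : K = ⊤ := by
        rw [h4] at h1
        have h6 : Module.finrank K Ω = 1 := by omega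
        rw [← IntermediateField.finrank_eq_one_iff_eq_top]
        exact h6
      refine ⟨0, 1, ?_, ?_⟩
      · rw [zero_smul, sub_zero, trPt_top K h5 y]
        refine AddSubgroup.mem_sup_right
          (AddSubgroup.subset_closure ⟨mapPt (K.val : K →+* Ω) y, ?_, rfl⟩)
        exact (zer_mapPt hf K.val y).2 hy
      · have hac : IsAlgClosed Ω := IsAlgClosure.isAlgClosed k
        rw [deg_trPt, h4]
        norm_num
  · exact ⟨0, 0, by simp, by simp⟩
  · rintro a b _ _ ⟨m, c, ha, ha'⟩ ⟨m', c', hb, hb'⟩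
    refine ⟨m + m', c + c', ?_, ?_⟩
    · have h3 := add_mem ha hb
      convert h3 using 1
      rw [add_smul]
      abel
    · rw [map_add, ha', hb']
      ring
  · rintro a _ ⟨m, c, ha, ha'⟩
    refine ⟨-m, -c, ?_, ?_⟩
    · have h3 := neg_mem ha
      convert h3 using 1
      rw [neg_smul]
      abel
    · rw [map_neg, ha']
      ring

theorem two_mem_norm [IsAlgClosure k Ω] [CharZero k] (hf : ∀ i, (f i).IsHomogeneous 2)
    (h2 : Module.finrank k Ω = 2) (P : ℙ k (Fin n → k)) (hP : Zer f k P.rep) :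
    (2 : ℤ) • trPt k Ω P ∈ normCyc Ω f := by
  classical
  have hfd : FiniteDimensional k Ω := Module.finite_of_finrank_pos (by omega)
  have hac : IsAlgClosed Ω := IsAlgClosure.isAlgClosed k
  have hgal : IsGalois k Ω := IsGalois.mk
  refine AddSubgroup.subset_closure ⟨mapPt (algebraMap k Ω) P,
    (zer_mapPt hf (Algebra.ofId k Ω) P).2 hP, ?_⟩
  have h3 : ∀ σ : Ω ≃ₐ[k] Ω, mapPt (σ : Ω →+* Ω) (mapPt (algebraMap k Ω) P) =
      mapPt (algebraMap k Ω) P := by
    intro σ
    rw [mapPt_mapPt]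
    congr 1
    ext a
    simp
  rw [finsum_eq_sum_of_fintype]
  simp only [h3]
  rw [Finset.sum_const, Finset.card_univ, ← Nat.card_eq_fintype_card,
    IsGalois.card_aut_eq_finrank, h2, trPt_self]
  norm_num

end real

section main

variable {k Ω : Type u} [Field k] [Field Ω] [Algebra k Ω] [IsAlgClosure k Ω] {n r : ℕ}

/-- The real place: if the real points are locally joined and form a connected set, zero-cycles of
degree `0` are rationally equivalent to norms. -/
theorem F1bar_conn [TopologicalSpace k] (e : k ≃+* ℝ) (he : Continuous e)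
    (he' : Continuous e.symm) (f : Fin r → MvPolynomial (Fin n) k)
    (hf : ∀ i, (f i).IsHomogeneous 2) {A : Fin r → Matrix (Fin n) (Fin n) k}
    (hA : ∀ i, f i = ∑ a, ∑ b, MvPolynomial.C (A i a b) * (MvPolynomial.X a * MvPolynomial.X b))
    (hloc : ∀ P : Fin n → k, P ≠ 0 → qm k A P = 0 →
      ∀ᶠ Q in 𝓝 P, qm k A Q = 0 → Ch.Joined (qm k A) P Q)
    (hconn : IsPreconnected ((fun (x : Fin n → k) (i j : Fin n) => x i * x j) ''
      {x | x ≠ 0 ∧ Zer f k x})) : Subsingleton (F1bar Ω f) := by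
  have h2 : Module.finrank k Ω = 2 := finrank_two k Ω e
  have hch : CharZero k := charZero_of_injective_ringHom (f := e.symm.toRingHom) e.symm.injective
  have hfd : FiniteDimensional k Ω := Module.finite_of_finrank_pos (by omega)
  by_cases hno : ∀ x : Fin n → k, Zer f k x → x = 0
  · exact F1bar_real hf e hno
  push Not at hno
  obtain ⟨P, hP, hP0⟩ := hno
  have hq : ∀ x : Fin n → k, Zer f k x ↔ qm k A x = 0 := by
    intro x
    rw [funext_iff]
    exact forall_congr' fun i => by rw [qm_apply, ← aeval_eq_qv (hA i)]; rfl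
  have hj : ∀ x y : Fin n → k, x ≠ 0 → Zer f k x → y ≠ 0 → Zer f k y →
      Ch.Joined (qm k A) x y := by
    intro x y hx hx' hy hy'
    refine rel_of_conn e he he' {x | x ≠ 0 ∧ Zer f k x} (Ch.Joined (qm k A))
      (Relation.EqvGen.is_equivalence _) (fun a => Relation.EqvGen.rel _ _
        (Or.inr ⟨-1, neg_ne_zero.2 one_ne_zero, rfl⟩)) (fun a ha => ha.1) ?_ ?_ hconn x y
        ⟨hx, hx'⟩ ⟨hy, hy'⟩
    · rintro a ⟨ha, ha'⟩
      refine ⟨smul_ne_zero (neg_ne_zero.2 one_ne_zero) ha, ?_⟩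
      rw [hq] at ha' ⊢
      rw [QuadraticMap.map_smul, ha', smul_zero]
    · rintro a ⟨ha, ha'⟩
      filter_upwards [hloc a ha ((hq a).1 ha')] with y hy hyZ
      exact hy ((hq y).1 hyZ.2)
  set P' : ℙ k (Fin n → k) := Projectivization.mk k P hP0 with hP'
  have hPz : Zer f k P'.rep := zer_mk_rep hf hP0 hP
  rw [QuotientAddGroup.subsingleton_iff, AddSubgroup.addSubgroupOf_eq_top]
  intro z hz
  obtain ⟨hzc, hz0⟩ := AddSubgroup.mem_inf.1 hz
  rw [AddMonoidHom.mem_ker] at hz0
  obtain ⟨m, c, h3, h4⟩ := cyc_real hf h2 P' (fun Q hQ => by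
    have h5 := (rel_joined (Ω := Ω) f hA (hj Q.rep P'.rep Q.rep_nonzero hQ P'.rep_nonzero
      hPz)).2 Q.rep_nonzero P'.rep_nonzero
    rwa [Projectivization.mk_rep, Projectivization.mk_rep] at h5) z hzc
  rw [hz0] at h4
  have h5 : m = (-c) * 2 := by linarith
  have h6 : m • trPt k Ω P' ∈ ratEq Ω f ⊔ normCyc Ω f := by
    rw [h5, mul_smul]
    exact AddSubgroup.mem_sup_right (zsmul_mem (two_mem_norm hf h2 P' hPz) _)
  have h7 := add_mem h3 h6
  rwa [sub_add_cancel] at h7

end main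

end ZC
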