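import Pool.Agent.Lib.MP_f80667_ag.ZC.Main

/-! The archimedean places. -/

open scoped LinearAlgebra.Projectivization

namespace ZC

universe u

theorem finrank_two (k Ω : Type u) [Field k] [Field Ω] [Algebra k Ω] [IsAlgClosure k Ω]
    (e : k ≃+* ℝ) : Module.finrank k Ω = 2 := by
  let _ : Algebra k ℂ := ((algebraMap ℝ ℂ).comp e.toRingHom).toAlgebra
  have h1 : Module.finrank k ℂ = 2 := by
    rw [Algebra.finrank_eq_of_equiv_equiv e (RingEquiv.refl ℂ) (by ext; rfl)]
    exact Complex.finrank_real_complex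
  have h2 : FiniteDimensional k ℂ := Module.finite_of_finrank_pos (by omega)
  have h3 : IsAlgClosure k ℂ := ⟨inferInstance, inferInstance⟩
  rw [← h1]
  exact (IsAlgClosure.equiv k Ω ℂ).toLinearEquiv.finrank_eq

section norm

variable {k Ω : Type u} [Field k] [Field Ω] [Algebra k Ω] [IsAlgClosure k Ω] [CharZero k] {n : ℕ}
  {ι' : Type} {f : ι' → MvPolynomial (Fin n) k}

omit [CharZero k] in
theorem trPt_top [FiniteDimensional k Ω] (K : IntermediateField k Ω) (hK : K = ⊤)
    [FiniteDimensional k K] (y : ℙ K (Fin n → K)) :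
    trPt k Ω y = ∑ᶠ σ : Ω ≃ₐ[k] Ω, Finsupp.single (mapPt (σ : Ω →+* Ω)
      (mapPt (K.val : K →+* Ω) y)) 1 := by
  classical
  subst hK
  have : Algebra.IsAlgebraic k Ω := IsAlgClosure.isAlgebraic
  let e : (Ω ≃ₐ[k] Ω) ≃ ((⊤ : IntermediateField k Ω) →ₐ[k] Ω) :=
    (algEquivEquivAlgHom k Ω).toEquiv.trans
      (AlgEquiv.arrowCongr (IntermediateField.topEquiv (F := k) (E := Ω)).symm AlgEquiv.refl)
  rw [trPt, finsum_eq_sum_of_fintype]
  symm
  apply Fintype.sum_equiv e
  intro σ
  rw [mapPt_mapPt]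
  rfl

omit [CharZero k] in
theorem cyc_le_normCyc [FiniteDimensional k Ω] (hf : ∀ i, (f i).IsHomogeneous 2)
    (h : ∀ K : IntermediateField k Ω, (∃ y : ℙ K (Fin n → K), Zer f K y.rep) → K = ⊤) :
    cyc Ω f ≤ normCyc Ω f := by
  intro z hz
  have h1 := mem_closure_tr hf z hz
  refine AddSubgroup.closure_le (K := normCyc Ω f) |>.2 ?_ h1
  rintro t ⟨K, hK, y, hy, rfl⟩
  rw [SetLike.mem_coe, trPt_top K (h K ⟨y, hy⟩) y]
  refine AddSubgroup.subset_closure ⟨mapPt (K.val : K →+* Ω) y, ?_, rfl⟩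
  exact (zer_mapPt hf K.val y).2 hy

omit [CharZero k] in
theorem F1bar_subsingleton [FiniteDimensional k Ω] (hf : ∀ i, (f i).IsHomogeneous 2)
    (h : ∀ K : IntermediateField k Ω, (∃ y : ℙ K (Fin n → K), Zer f K y.rep) → K = ⊤) :
    Subsingleton (F1bar Ω f) := by
  rw [QuotientAddGroup.subsingleton_iff, AddSubgroup.addSubgroupOf_eq_top]
  intro z hz
  exact AddSubgroup.mem_sup_right (cyc_le_normCyc hf h (AddSubgroup.mem_inf.1 hz).1)

omit [CharZero k] in
theorem eq_top_of_finrank_two (h2 : Module.finrank k Ω = 2)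
    (hno : ∀ x : Fin n → k, Zer f k x → x = 0) (K : IntermediateField k Ω)
    (hK : ∃ y : ℙ K (Fin n → K), Zer f K y.rep) : K = ⊤ := by
  have hfd : FiniteDimensional k Ω := Module.finite_of_finrank_pos (by omega)
  obtain ⟨y, hy⟩ := hK
  have h1 := Module.finrank_mul_finrank k K Ω
  rw [h2] at h1
  have h3 : Module.finrank k K ∣ 2 := ⟨_, h1.symm⟩
  rcases (Nat.dvd_prime Nat.prime_two).1 h3 with h4 | h4
  · exfalso
    have h5 : K = ⊥ := IntermediateField.finrank_eq_one_iff.1 h4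
    subst h5
    have h6 := (zer_comp ((IntermediateField.botEquiv k Ω : _ ≃ₐ[k] k) :
      (⊥ : IntermediateField k Ω) →ₐ[k] k) y.rep).2 hy
    exact comp_ne _ y.rep_nonzero (hno _ h6)
  · rw [h4] at h1
    have h5 : Module.finrank K Ω = 1 := by omega
    rw [← IntermediateField.finrank_eq_one_iff_eq_top]
    exact h5

theorem F1bar_real (hf : ∀ i, (f i).IsHomogeneous 2) (e : k ≃+* ℝ)
    (hno : ∀ x : Fin n → k, Zer f k x → x = 0) : Subsingleton (F1bar Ω f) := by
  have h2 : Module.finrank k Ω = 2 := finrank_two k Ω e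
  have hfd : FiniteDimensional k Ω := Module.finite_of_finrank_pos (by omega)
  exact F1bar_subsingleton hf (fun K hK => eq_top_of_finrank_two h2 hno K hK)

theorem F1bar_complex (hf : ∀ i, (f i).IsHomogeneous 2) [IsAlgClosed k] :
    Subsingleton (F1bar Ω f) := by
  have : Algebra.IsAlgebraic k Ω := IsAlgClosure.isAlgebraic
  have hb : Function.Bijective (algebraMap k Ω) := IsAlgClosed.algebraMap_bijective_of_isIntegral
  have htop : ∀ K : IntermediateField k Ω, K = ⊤ := by
    intro K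
    rw [eq_top_iff]
    intro x _
    obtain ⟨a, rfl⟩ := hb.2 x
    exact K.algebraMap_mem a
  have hfd : FiniteDimensional k Ω :=
    Module.Finite.of_surjective (Algebra.linearMap k Ω) hb.2
  exact F1bar_subsingleton hf (fun K _ => htop K)

end norm

end ZC
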