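import Mathlib
import Pool.Agent.Lib.MP_f80667_ag.ZC.Defs

/-!
Traces of points: for a finite separable extension `M/k` and a point `P ∈ P^(n-1)(M)` the cycle
`tr P = ∑ σ, [σ P]`, the sum over the `k`-embeddings `σ` of `M` into the algebraically closed field
`Ω`, is a zero-cycle over `k` of degree `[M : k]`. Two points over extensions of coprime degrees
give a zero-cycle of degree `1`.
-/

open scoped LinearAlgebra.Projectivization

namespace ZCTr

open ZC

universe u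

section maps

variable {K L M : Type*} [Field K] [Field L] [Field M] {n : ℕ}

theorem mapPt_mk (φ : K →+* L) (v : Fin n → K) (hv : v ≠ 0) :
    mapPt φ (Projectivization.mk K v hv) =
      Projectivization.mk L (fun i => φ (v i)) (comp_ne φ hv) := by
  unfold mapPt
  obtain ⟨a, ha⟩ := Projectivization.exists_smul_eq_mk_rep K v hv
  rw [Projectivization.mk_eq_mk_iff']
  refine ⟨φ (a : K), ?_⟩
  funext i
  have := congrFun ha i
  simp only [Pi.smul_apply, smul_eq_mul] at this ⊢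
  rw [← this, Units.smul_def, smul_eq_mul, map_mul]

theorem mapPt_comp (φ : K →+* L) (ψ : L →+* M) (x : ℙ K (Fin n → K)) :
    mapPt ψ (mapPt φ x) = mapPt (ψ.comp φ) x := by
  induction x using Projectivization.ind with
  | h v hv => rw [mapPt_mk, mapPt_mk, mapPt_mk]; rfl

theorem mapPt_id (x : ℙ K (Fin n → K)) : mapPt (RingHom.id K) x = x := by
  induction x using Projectivization.ind with
  | h v hv => rw [mapPt_mk]; rfl

end maps

section zer

variable {k : Type u} [Field k] {n : ℕ} {ι : Type}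

theorem zer_map (f : ι → MvPolynomial (Fin n) k) {E E' : Type*} [CommRing E] [CommRing E']
    [Algebra k E] [Algebra k E'] (σ : E →ₐ[k] E') {x : Fin n → E} (hx : Zer f E x) :
    Zer f E' (fun i => σ (x i)) := by
  intro i
  have h := hx i
  rw [← MvPolynomial.comp_aeval_apply, h, map_zero]

theorem aeval_smul {E : Type*} [CommRing E] [Algebra k E] {g : MvPolynomial (Fin n) k} {d : ℕ}
    (hg : g.IsHomogeneous d) (c : E) (x : Fin n → E) :
    MvPolynomial.aeval (c • x) g = c ^ d * MvPolynomial.aeval x g := by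
  rw [MvPolynomial.aeval_def, MvPolynomial.aeval_def, MvPolynomial.eval₂_eq', MvPolynomial.eval₂_eq',
    Finset.mul_sum]
  refine Finset.sum_congr rfl fun m hm => ?_
  have hdeg : ∑ i, m i = d := by
    have h1 := hg (MvPolynomial.mem_support_iff.1 hm)
    rw [← h1, Finsupp.weight_apply, Finsupp.sum_fintype]
    · simp
    · intro i; simp
  have h2 : ∏ i, (c • x) i ^ m i = c ^ d * ∏ i, x i ^ m i := by
    rw [← hdeg, ← Finset.prod_pow_eq_pow_sum, ← Finset.prod_mul_distrib]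
    refine Finset.prod_congr rfl fun i _ => ?_
    rw [Pi.smul_apply, smul_eq_mul, mul_pow]
  rw [h2]
  ring

theorem zer_smul {f : ι → MvPolynomial (Fin n) k} (hf : ∀ i, ∃ d, (f i).IsHomogeneous d)
    {E : Type*} [CommRing E] [Algebra k E] (c : E) {x : Fin n → E} (hx : Zer f E x) :
    Zer f E (c • x) := by
  intro i
  obtain ⟨d, hd⟩ := hf i
  rw [aeval_smul hd, hx i, mul_zero]

/-- Whether a point is on `X` can be tested on any representative. -/
theorem zer_rep {f : ι → MvPolynomial (Fin n) k} (hf : ∀ i, ∃ d, (f i).IsHomogeneous d)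
    {E : Type*} [Field E] [Algebra k E] {x : Fin n → E} (hx0 : x ≠ 0) (hx : Zer f E x) :
    Zer f E (Projectivization.mk E x hx0).rep := by
  obtain ⟨a, ha⟩ := Projectivization.exists_smul_eq_mk_rep E x hx0
  rw [← ha]
  exact zer_smul hf (a : E) hx

theorem zer_mapPt {f : ι → MvPolynomial (Fin n) k} (hf : ∀ i, ∃ d, (f i).IsHomogeneous d)
    {E E' : Type*} [Field E] [Field E'] [Algebra k E] [Algebra k E'] (σ : E →ₐ[k] E')
    {P : ℙ E (Fin n → E)} (hP : Zer f E P.rep) : Zer f E' (mapPt (σ : E →+* E') P).rep :=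
  zer_rep hf (comp_ne (σ : E →+* E') P.rep_nonzero) (zer_map f σ hP)

end zer

section general

variable (k Ω M : Type u) [Field k] [Field Ω] [Algebra k Ω] [Field M] [Algebra k M]

/-- The sum of a family of points indexed by the embeddings of `M`. -/
noncomputable def trG [FiniteDimensional k M] {Y : Type*} (g : (M →ₐ[k] Ω) → Y) : Y →₀ ℤ :=
  ∑ σ : M →ₐ[k] Ω, Finsupp.single (g σ) 1

variable {k Ω M}

theorem mem_supp_trG [FiniteDimensional k M] {Y : Type*} {g : (M →ₐ[k] Ω) → Y} {y : Y}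
    (hy : y ∈ (trG k Ω M g).support) : ∃ σ, y = g σ := by
  classical
  have h1 := Finsupp.support_finsetSum hy
  rw [Finset.mem_biUnion] at h1
  obtain ⟨σ, _, hσ⟩ := h1
  exact ⟨σ, Finset.mem_singleton.1 (Finsupp.support_single_subset hσ)⟩

/-- Composition of embeddings with an automorphism. -/
noncomputable def compE (τ : Ω ≃ₐ[k] Ω) : (M →ₐ[k] Ω) ≃ (M →ₐ[k] Ω) where
  toFun := fun σ => (τ : Ω →ₐ[k] Ω).comp σ
  invFun := fun σ => (τ.symm : Ω →ₐ[k] Ω).comp σ
  left_inv := by intro σ; ext z; simp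
  right_inv := by intro σ; ext z; simp

theorem trG_inv [FiniteDimensional k M] {Y : Type*} {g : (M →ₐ[k] Ω) → Y} (τ : Ω ≃ₐ[k] Ω)
    (act : Y → Y) (hact : Function.Injective act)
    (hg : ∀ σ : M →ₐ[k] Ω, g ((τ : Ω →ₐ[k] Ω).comp σ) = act (g σ)) (y : Y) :
    trG k Ω M g (act y) = trG k Ω M g y := by
  classical
  unfold trG
  rw [Finsupp.finsetSum_apply, Finsupp.finsetSum_apply, ← (compE τ).sum_comp]
  refine Finset.sum_congr rfl fun σ _ => ?_
  have h3 : g (compE τ σ) = act (g σ) := hg σ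
  rw [h3, Finsupp.single_apply, Finsupp.single_apply]
  by_cases h : g σ = y
  · rw [if_pos h, if_pos (by rw [h])]
  · rw [if_neg h, if_neg (fun h' => h (hact h'))]

theorem deg_trG [FiniteDimensional k M] [Algebra.IsSeparable k M] [IsAlgClosed Ω] {Y : Type*}
    (g : (M →ₐ[k] Ω) → Y) :
    (Finsupp.liftAddHom (fun _ => AddMonoidHom.id ℤ)) (trG k Ω M g) = Module.finrank k M := by
  unfold trG
  rw [map_sum]
  have h1 : ∀ σ : M →ₐ[k] Ω,
      (Finsupp.liftAddHom (fun _ => AddMonoidHom.id ℤ)) (Finsupp.single (g σ) (1 : ℤ)) = 1 := by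
    intro σ
    simp
  rw [Finset.sum_congr rfl fun σ _ => h1 σ, Finset.sum_const, Finset.card_univ, AlgHom.card]
  simp

theorem mapDomain_trG [FiniteDimensional k M] {Y Z : Type*} (g : (M →ₐ[k] Ω) → Y) (h : Y → Z) :
    Finsupp.mapDomain h (trG k Ω M g) = trG k Ω M (fun σ => h (g σ)) := by
  unfold trG
  rw [Finsupp.mapDomain_finsetSum]
  simp [Finsupp.mapDomain_single]

/-- A family which comes from a subfield: every embedding of the subfield has `[M : M₀]`
extensions. -/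
theorem trG_sub [FiniteDimensional k M] [IsAlgClosed Ω] {M₀ : Type u} [Field M₀] [Algebra k M₀]
    [Algebra M₀ M] [IsScalarTower k M₀ M] [FiniteDimensional k M₀] [FiniteDimensional M₀ M]
    [Algebra.IsSeparable M₀ M] {Y : Type*} (g₀ : (M₀ →ₐ[k] Ω) → Y) :
    trG k Ω M (fun σ => g₀ (σ.comp (IsScalarTower.toAlgHom k M₀ M))) =
      (Module.finrank M₀ M : ℤ) • trG k Ω M₀ g₀ := by
  classical
  unfold trG
  rw [Finset.smul_sum]
  have key : ∀ σ₀ : M₀ →ₐ[k] Ω, Nat.card {σ : M →ₐ[k] Ω //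
      σ.comp (IsScalarTower.toAlgHom k M₀ M) = σ₀} = Module.finrank M₀ M := by
    intro σ₀
    let : Algebra M₀ Ω := σ₀.toRingHom.toAlgebra
    have : IsScalarTower k M₀ Ω := IsScalarTower.of_algebraMap_eq (fun x => (σ₀.commutes x).symm)
    rw [← AlgHom.card M₀ M Ω, Nat.card_eq_fintype_card.symm]
    refine Nat.card_congr ?_
    refine
      { toFun := fun σ =>
          { toRingHom := σ.1.toRingHom
            commutes' := fun x => by
              have := DFunLike.congr_fun σ.2 x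
              exact this }
        invFun := fun τ => ⟨τ.restrictScalars k, by ext x; exact τ.commutes x⟩
        left_inv := fun σ => by ext x; rfl
        right_inv := fun τ => by ext x; rfl }
  have hfib : ∀ σ₀ : M₀ →ₐ[k] Ω, ∑ σ ∈ Finset.univ.filter
      (fun σ : M →ₐ[k] Ω => σ.comp (IsScalarTower.toAlgHom k M₀ M) = σ₀),
      Finsupp.single (g₀ (σ.comp (IsScalarTower.toAlgHom k M₀ M))) (1 : ℤ) =
      (Module.finrank M₀ M : ℤ) • Finsupp.single (g₀ σ₀) (1 : ℤ) := by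
    intro σ₀
    have h1 : ∀ σ ∈ Finset.univ.filter
        (fun σ : M →ₐ[k] Ω => σ.comp (IsScalarTower.toAlgHom k M₀ M) = σ₀),
        Finsupp.single (g₀ (σ.comp (IsScalarTower.toAlgHom k M₀ M))) (1 : ℤ) =
        Finsupp.single (g₀ σ₀) (1 : ℤ) := by
      intro σ hσ
      rw [(Finset.mem_filter.1 hσ).2]
    rw [Finset.sum_congr rfl h1, Finset.sum_const, ← key σ₀, Nat.card_eq_fintype_card,
      Fintype.card_subtype]
    simp
  rw [← Finset.sum_congr rfl fun σ₀ _ => hfib σ₀]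
  exact (Finset.sum_fiberwise _ _ _).symm

end general

section trace

variable {n N : ℕ} {ι : Type}

/-- The trace of a point over `M`: the sum of its conjugates over `k`. -/
noncomputable def tr (k : Type u) [Field k] (Ω : Type u) [Field Ω] [Algebra k Ω]
    {M : Type u} [Field M] [Algebra k M] [FiniteDimensional k M]
    (P : ℙ M (Fin n → M)) : ℙ Ω (Fin n → Ω) →₀ ℤ :=
  trG k Ω M fun σ => mapPt (σ : M →+* Ω) P

/-- The trace of a pair of points over `M`. -/
noncomputable def tr2 (k : Type u) [Field k] (Ω : Type u) [Field Ω] [Algebra k Ω]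
    {M : Type u} [Field M] [Algebra k M] [FiniteDimensional k M]
    (P : ℙ M (Fin N → M)) (Q : ℙ M (Fin n → M)) : ℙ Ω (Fin N → Ω) × ℙ Ω (Fin n → Ω) →₀ ℤ :=
  trG k Ω M fun σ => (mapPt (σ : M →+* Ω) P, mapPt (σ : M →+* Ω) Q)

variable {k : Type u} [Field k] (Ω : Type u) [Field Ω] [Algebra k Ω]
  {M : Type u} [Field M] [Algebra k M]

theorem mapPt_injective (τ : Ω ≃ₐ[k] Ω) : Function.Injective (mapPt (n := n) (τ : Ω →+* Ω)) := by
  intro a b hab
  have := congrArg (mapPt (τ.symm : Ω →+* Ω)) hab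
  rw [mapPt_comp, mapPt_comp] at this
  have hid : ((τ.symm : Ω →+* Ω)).comp (τ : Ω →+* Ω) = RingHom.id Ω := by
    ext z; simp
  rw [hid, mapPt_id, mapPt_id] at this
  exact this

theorem mapPt_comp_alg (τ : Ω ≃ₐ[k] Ω) (σ : M →ₐ[k] Ω) (P : ℙ M (Fin n → M)) :
    mapPt (((τ : Ω →ₐ[k] Ω).comp σ : M →ₐ[k] Ω) : M →+* Ω) P =
      mapPt (τ : Ω →+* Ω) (mapPt (σ : M →+* Ω) P) := by
  rw [mapPt_comp]; rfl

theorem tr_inv [FiniteDimensional k M] (P : ℙ M (Fin n → M)) (τ : Ω ≃ₐ[k] Ω)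
    (x : ℙ Ω (Fin n → Ω)) : tr k Ω P (mapPt (τ : Ω →+* Ω) x) = tr k Ω P x :=
  trG_inv τ (mapPt (τ : Ω →+* Ω)) (mapPt_injective Ω τ) (fun σ => mapPt_comp_alg Ω τ σ P) x

theorem mem_supp_tr [FiniteDimensional k M] {P : ℙ M (Fin n → M)} {x : ℙ Ω (Fin n → Ω)}
    (hx : x ∈ (tr k Ω P).support) : ∃ σ : M →ₐ[k] Ω, x = mapPt (σ : M →+* Ω) P :=
  mem_supp_trG hx

theorem tr_mem_cyc [FiniteDimensional k M] {f : ι → MvPolynomial (Fin n) k}
    (hf : ∀ i, ∃ d, (f i).IsHomogeneous d) {P : ℙ M (Fin n → M)} (hP : Zer f M P.rep) :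
    tr k Ω P ∈ cyc Ω f := by
  refine ⟨?_, fun τ x => tr_inv Ω P τ x⟩
  intro x hx
  obtain ⟨σ, rfl⟩ := mem_supp_tr Ω hx
  exact zer_mapPt hf σ hP

theorem deg_tr [FiniteDimensional k M] [Algebra.IsSeparable k M] [IsAlgClosed Ω]
    (P : ℙ M (Fin n → M)) : deg Ω (tr k Ω P) = Module.finrank k M :=
  deg_trG _

/-- The trace of a point of a subfield. -/
theorem tr_base [FiniteDimensional k M] [IsAlgClosed Ω] {M₀ : Type u} [Field M₀] [Algebra k M₀]
    [Algebra M₀ M] [IsScalarTower k M₀ M] [FiniteDimensional k M₀] [FiniteDimensional M₀ M]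
    [Algebra.IsSeparable M₀ M] (P : ℙ M₀ (Fin n → M₀)) :
    tr k Ω (mapPt (algebraMap M₀ M) P) = (Module.finrank M₀ M : ℤ) • tr k Ω P := by
  unfold tr
  rw [← trG_sub]
  congr 1
  funext σ
  rw [mapPt_comp]
  rfl

/-! ### Pairs -/

theorem tr2_inv [FiniteDimensional k M] (P : ℙ M (Fin N → M)) (Q : ℙ M (Fin n → M))
    (τ : Ω ≃ₐ[k] Ω) (x : ℙ Ω (Fin N → Ω) × ℙ Ω (Fin n → Ω)) :
    tr2 k Ω P Q (mapPt (τ : Ω →+* Ω) x.1, mapPt (τ : Ω →+* Ω) x.2) = tr2 k Ω P Q x := by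
  refine trG_inv τ (fun x : ℙ Ω (Fin N → Ω) × ℙ Ω (Fin n → Ω) =>
    (mapPt (τ : Ω →+* Ω) x.1, mapPt (τ : Ω →+* Ω) x.2)) ?_ ?_ x
  · intro a b hab
    have h1 := congrArg Prod.fst hab
    have h2 := congrArg Prod.snd hab
    exact Prod.ext (mapPt_injective Ω τ h1) (mapPt_injective Ω τ h2)
  · intro σ
    exact Prod.ext (mapPt_comp_alg Ω τ σ P) (mapPt_comp_alg Ω τ σ Q)

theorem mem_supp_tr2 [FiniteDimensional k M] {P : ℙ M (Fin N → M)} {Q : ℙ M (Fin n → M)}
    {x : ℙ Ω (Fin N → Ω) × ℙ Ω (Fin n → Ω)} (hx : x ∈ (tr2 k Ω P Q).support) :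
    ∃ σ : M →ₐ[k] Ω, x = (mapPt (σ : M →+* Ω) P, mapPt (σ : M →+* Ω) Q) :=
  mem_supp_trG hx

theorem fst_tr2 [FiniteDimensional k M] (P : ℙ M (Fin N → M)) (Q : ℙ M (Fin n → M)) :
    Finsupp.mapDomain Prod.fst (tr2 k Ω P Q) = tr k Ω P :=
  mapDomain_trG _ _

theorem tr2_base [FiniteDimensional k M] [IsAlgClosed Ω] {M₀ : Type u} [Field M₀] [Algebra k M₀]
    [Algebra M₀ M] [IsScalarTower k M₀ M] [FiniteDimensional k M₀] [FiniteDimensional M₀ M]
    [Algebra.IsSeparable M₀ M] (P : ℙ M₀ (Fin N → M₀)) (Q : ℙ M₀ (Fin n → M₀)) :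
    tr2 k Ω (mapPt (algebraMap M₀ M) P) (mapPt (algebraMap M₀ M) Q) =
      (Module.finrank M₀ M : ℤ) • tr2 k Ω P Q := by
  unfold tr2
  rw [← trG_sub]
  congr 1
  funext σ
  rw [mapPt_comp, mapPt_comp]
  rfl

theorem fst_tr2_base [FiniteDimensional k M] [IsAlgClosed Ω] {M₀ : Type u} [Field M₀]
    [Algebra k M₀] [Algebra M₀ M] [IsScalarTower k M₀ M] [FiniteDimensional k M₀]
    [FiniteDimensional M₀ M] [Algebra.IsSeparable M₀ M] (P : ℙ M₀ (Fin N → M₀))
    (Q : ℙ M (Fin n → M)) :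
    Finsupp.mapDomain Prod.fst (tr2 k Ω (mapPt (algebraMap M₀ M) P) Q) =
      (Module.finrank M₀ M : ℤ) • tr k Ω P := by
  rw [fst_tr2, tr_base]

/-! ### Coprime degrees -/

/-- Points over two extensions of coprime degrees give a zero-cycle of degree `1`. -/
theorem exists_deg_one [CharZero k] [IsAlgClosed Ω] {f : ι → MvPolynomial (Fin n) k}
    (hf : ∀ i, ∃ d, (f i).IsHomogeneous d) {M₁ M₂ : Type u} [Field M₁] [Field M₂]
    [Algebra k M₁] [Algebra k M₂] [FiniteDimensional k M₁] [FiniteDimensional k M₂]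
    (hc : (Module.finrank k M₁).Coprime (Module.finrank k M₂))
    {x₁ : Fin n → M₁} {x₂ : Fin n → M₂} (h₁ : x₁ ≠ 0) (h₂ : x₂ ≠ 0) (hx₁ : Zer f M₁ x₁)
    (hx₂ : Zer f M₂ x₂) : ∃ z ∈ cyc Ω f, deg Ω z = 1 := by
  have hg := Nat.gcd_eq_gcd_ab (Module.finrank k M₁) (Module.finrank k M₂)
  rw [Nat.Coprime] at hc
  rw [hc] at hg
  refine ⟨(Nat.gcdA (Module.finrank k M₁) (Module.finrank k M₂)) •
      tr k Ω (Projectivization.mk M₁ x₁ h₁) +
    (Nat.gcdB (Module.finrank k M₁) (Module.finrank k M₂)) •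
      tr k Ω (Projectivization.mk M₂ x₂ h₂), ?_, ?_⟩
  · exact (cyc Ω f).add_mem ((cyc Ω f).zsmul_mem (tr_mem_cyc Ω hf (zer_rep hf h₁ hx₁)) _)
      ((cyc Ω f).zsmul_mem (tr_mem_cyc Ω hf (zer_rep hf h₂ hx₂)) _)
  · rw [map_add, map_zsmul, map_zsmul, deg_tr, deg_tr, smul_eq_mul, smul_eq_mul]
    rw [mul_comm, mul_comm (Nat.gcdB _ _)]
    exact_mod_cast hg.symm

/-- A point `P` over `M₀` of the base and points over two extensions of `M₀` of coprime degrees of
the fibre over `P`: the trace of `P` is the image of a cycle. -/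
theorem exists_lift [CharZero k] [IsAlgClosed Ω] {M₀ M₁ M₂ : Type u} [Field M₀] [Field M₁]
    [Field M₂] [Algebra k M₀] [Algebra k M₁] [Algebra k M₂] [Algebra M₀ M₁] [Algebra M₀ M₂]
    [IsScalarTower k M₀ M₁] [IsScalarTower k M₀ M₂] [FiniteDimensional k M₀]
    [FiniteDimensional k M₁] [FiniteDimensional k M₂] [FiniteDimensional M₀ M₁]
    [FiniteDimensional M₀ M₂]
    (hc : (Module.finrank M₀ M₁).Coprime (Module.finrank M₀ M₂))
    (P : ℙ M₀ (Fin N → M₀)) (Q₁ : ℙ M₁ (Fin n → M₁)) (Q₂ : ℙ M₂ (Fin n → M₂)) :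
    ∃ a b : ℤ, Finsupp.mapDomain Prod.fst (a • tr2 k Ω (mapPt (algebraMap M₀ M₁) P) Q₁ +
      b • tr2 k Ω (mapPt (algebraMap M₀ M₂) P) Q₂) = tr k Ω P := by
  have hchar : CharZero M₀ := charZero_of_injective_algebraMap (algebraMap k M₀).injective
  have hg := Nat.gcd_eq_gcd_ab (Module.finrank M₀ M₁) (Module.finrank M₀ M₂)
  rw [Nat.Coprime] at hc
  rw [hc] at hg
  refine ⟨Nat.gcdA (Module.finrank M₀ M₁) (Module.finrank M₀ M₂),
    Nat.gcdB (Module.finrank M₀ M₁) (Module.finrank M₀ M₂), ?_⟩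
  rw [Finsupp.mapDomain_add, Finsupp.mapDomain_smul, Finsupp.mapDomain_smul, fst_tr2_base,
    fst_tr2_base, smul_smul, smul_smul, ← add_smul]
  rw [mul_comm, mul_comm (Nat.gcdB _ _), ← hg]
  simp

end trace

end ZCTr
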