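import Mathlib

/-!
# Chains of rational curves on intersections of quadrics

`El q x y`: there is a polynomial curve on `q = 0` with lowest coefficient `x` and highest
coefficient `y`. `Joined q` is the equivalence relation generated by `El q` and by scaling.
The main result `joined`: if systems of `s < r` quadratic forms over `M` in more than `4 s` variables
have nontrivial zeros, then any two nontrivial zeros of `r` quadratic forms in at least `bnd r`
variables are joined.
-/

set_option autoImplicit false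

namespace Pool.Agent.Lib.MP_f80667_ag.Ch

open Module Polynomial

universe u

variable {M : Type u} [Field M] {V : Type u} [AddCommGroup V] [Module M V] {N : Type u}
  [AddCommGroup N] [Module M N]

/-- a polynomial curve on `q = 0` with lowest coefficient `x` and highest coefficient `y` -/
def El (q : QuadraticMap M V N) (x y : V) : Prop :=
  x ≠ 0 ∧ y ≠ 0 ∧ ∃ (p : PolynomialModule M V) (k K : ℕ), p.coeff k = x ∧ p.coeff K = y ∧
    (∀ i, i < k → p.coeff i = 0) ∧ (∀ i, K < i → p.coeff i = 0) ∧
    ∀ u : M, q (PolynomialModule.eval u p) = 0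

/-- chains of curves -/
def Joined (q : QuadraticMap M V N) : V → V → Prop :=
  Relation.EqvGen fun x y => El q x y ∨ ∃ a : M, a ≠ 0 ∧ y = a • x

theorem pm_coeff (p : PolynomialModule M M) (i : ℕ) :
    (PolynomialModule.equivPolynomial p).coeff i = p.coeff i := by
  induction p using PolynomialModule.induction_linear with
  | zero => simp
  | add x y hx hy => rw [map_add, Polynomial.coeff_add, hx, hy]; simp
  | single n m =>
    rw [PolynomialModule.equivPolynomial_single, Polynomial.coeff_monomial]
    simp [Finsupp.single_apply]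

theorem pm_map_coeff {W : Type u} [AddCommGroup W] [Module M W] (l : V →ₗ[M] W)
    (p : PolynomialModule M V) (i : ℕ) :
    (PolynomialModule.map M l p).coeff i = l (p.coeff i) := by
  induction p using PolynomialModule.induction_linear with
  | zero => simp
  | add x y hx hy => rw [map_add, PolynomialModule.coeff_add, Finsupp.add_apply, hx, hy]; simp
  | single n m =>
    rw [PolynomialModule.map_single]
    simp only [PolynomialModule.coeff_single, Finsupp.single_apply]
    split_ifs <;> simp

/-- the polynomial of a linear form on a curve -/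
noncomputable def lpol (l : V →ₗ[M] M) (p : PolynomialModule M V) : M[X] :=
  PolynomialModule.equivPolynomial (PolynomialModule.map M l p)

theorem lpol_coeff (l : V →ₗ[M] M) (p : PolynomialModule M V) (i : ℕ) :
    (lpol l p).coeff i = l (p.coeff i) := by
  rw [lpol, pm_coeff, pm_map_coeff]

theorem lpol_eval (l : V →ₗ[M] M) (p : PolynomialModule M V) (u : M) :
    (lpol l p).eval u = l (PolynomialModule.eval u p) := by
  induction p using PolynomialModule.induction_linear with
  | zero => simp [lpol]
  | add x y hx hy =>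
    have : lpol l (x + y) = lpol l x + lpol l y := by simp [lpol]
    rw [this, eval_add, hx, hy, map_add, map_add]
  | single n m =>
    simp [lpol, PolynomialModule.map_single, mul_comm]

theorem pm_zero [Infinite M] {T : PolynomialModule M V}
    (h : ∀ u : M, u ≠ 0 → PolynomialModule.eval u T = 0) : T = 0 := by
  refine PolynomialModule.ext (Finsupp.ext fun i => ?_)
  rw [PolynomialModule.coeff_zero, Finsupp.zero_apply]
  refine (Module.forall_dual_apply_eq_zero_iff M (T.coeff i)).1 fun l => ?_
  rw [← lpol_coeff]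
  have h0 : lpol l T = 0 := by
    refine Polynomial.eq_zero_of_infinite_isRoot _ ?_
    refine Set.Infinite.mono (s := {u : M | u ≠ 0}) (fun u hu => ?_) ?_
    · show (lpol l T).IsRoot u
      rw [Polynomial.IsRoot.def, lpol_eval, h u hu, map_zero]
    · have : {u : M | u ≠ 0} = {0}ᶜ := by ext; simp
      rw [this]
      exact (Set.finite_singleton 0).infinite_compl
  rw [h0, Polynomial.coeff_zero]

theorem pm_ext [Infinite M] {T T' : PolynomialModule M V}
    (h : ∀ u : M, u ≠ 0 → PolynomialModule.eval u T = PolynomialModule.eval u T') : T = T' := by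
  rw [← sub_eq_zero]
  exact pm_zero fun u hu => by rw [map_sub, h u hu, sub_self]

/-- a polynomial with the values of a quadratic map on a curve -/
theorem exists_sq (q : QuadraticMap M V N) (p : PolynomialModule M V) :
    ∃ T : PolynomialModule M N, ∀ u, PolynomialModule.eval u T = q (PolynomialModule.eval u p) := by
  obtain ⟨B, hB⟩ := LinearMap.BilinMap.toQuadraticMap_surjective (R := M) (M := V) (N := N) q
  have key : ∀ p p' : PolynomialModule M V, ∃ T : PolynomialModule M N, ∀ u,
      PolynomialModule.eval u T = B (PolynomialModule.eval u p) (PolynomialModule.eval u p') := by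
    intro p p'
    induction p using PolynomialModule.induction_linear with
    | zero => exact ⟨0, fun u => by simp⟩
    | add x y hx hy =>
      obtain ⟨T, hT⟩ := hx
      obtain ⟨T', hT'⟩ := hy
      exact ⟨T + T', fun u => by rw [map_add, hT, hT', map_add, map_add, LinearMap.add_apply]⟩
    | single n m =>
      induction p' using PolynomialModule.induction_linear with
      | zero => exact ⟨0, fun u => by simp⟩
      | add x y hx hy =>
        obtain ⟨T, hT⟩ := hx
        obtain ⟨T', hT'⟩ := hy
        exact ⟨T + T', fun u => by rw [map_add, hT, hT', map_add, map_add]⟩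
      | single n' m' =>
        refine ⟨PolynomialModule.single M (n + n') (B m m'), fun u => ?_⟩
        rw [PolynomialModule.eval_single, PolynomialModule.eval_single,
          PolynomialModule.eval_single, map_smul, map_smul, LinearMap.smul_apply, smul_smul,
          pow_add, mul_comm]
  obtain ⟨T, hT⟩ := key p p
  refine ⟨T, fun u => ?_⟩
  rw [hT, ← hB]
  rfl

theorem q_of_ne [Infinite M] (q : QuadraticMap M V N) (p : PolynomialModule M V)
    (h : ∀ u : M, u ≠ 0 → q (PolynomialModule.eval u p) = 0) (u : M) :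
    q (PolynomialModule.eval u p) = 0 := by
  obtain ⟨T, hT⟩ := exists_sq q p
  have h0 : T = 0 := pm_zero fun u hu => by rw [hT, h u hu]
  rw [← hT, h0, map_zero]

theorem eval_zero (p : PolynomialModule M V) : PolynomialModule.eval 0 p = p.coeff 0 := by
  induction p using PolynomialModule.induction_linear with
  | zero => simp
  | add x y hx hy => rw [map_add, hx, hy]; simp
  | single n m =>
    rw [PolynomialModule.eval_single]
    rcases Nat.eq_zero_or_pos n with rfl | hn
    · simp
    · simp [hn.ne']

/-- the curve without its coefficients outside `[k, K]`, shifted by `k` and reversed -/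
noncomputable def pick (p : PolynomialModule M V) (f : ℕ → ℕ) (n : ℕ) : PolynomialModule M V :=
  ∑ i ∈ Finset.range (n + 1), PolynomialModule.single M i (p.coeff (f i))

theorem pick_coeff (p : PolynomialModule M V) (f : ℕ → ℕ) (n i : ℕ) :
    (pick p f n).coeff i = if i ≤ n then p.coeff (f i) else 0 := by
  rw [pick, PolynomialModule.coeff_sum, Finsupp.finsetSum_apply]
  simp only [PolynomialModule.coeff_single, Finsupp.single_apply]
  rw [Finset.sum_ite_eq' (Finset.range (n + 1)) i]
  simp

theorem pick_eval (p : PolynomialModule M V) (f : ℕ → ℕ) (n : ℕ) (u : M) :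
    PolynomialModule.eval u (pick p f n) = ∑ i ∈ Finset.range (n + 1), u ^ i • p.coeff (f i) := by
  rw [pick, map_sum]
  exact Finset.sum_congr rfl fun i _ => PolynomialModule.eval_single _ _ _

theorem eval_range (p : PolynomialModule M V) (n : ℕ) (h : ∀ i, n < i → p.coeff i = 0) (u : M) :
    PolynomialModule.eval u p = ∑ i ∈ Finset.range (n + 1), u ^ i • p.coeff i := by
  have : p = pick p id n := by
    refine PolynomialModule.ext (Finsupp.ext fun i => ?_)
    rw [pick_coeff]
    split_ifs with hi
    · rfl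
    · exact h i (not_le.1 hi)
  conv_lhs => rw [this]
  rw [pick_eval]
  rfl

theorem eval_rev (p : PolynomialModule M V) (n : ℕ) (h : ∀ i, n < i → p.coeff i = 0) {u : M}
    (hu : u ≠ 0) : PolynomialModule.eval u (pick p (fun i => n - i) n) =
      u ^ n • PolynomialModule.eval u⁻¹ p := by
  rw [pick_eval, eval_range p n h, Finset.smul_sum, ← Finset.sum_range_reflect]
  refine Finset.sum_congr rfl fun i hi => ?_
  have hi' : i ≤ n := Nat.lt_succ_iff.1 (Finset.mem_range.1 hi)
  rw [smul_smul]
  have e1 : n + 1 - 1 - i = n - i := by omega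
  have e2 : n - (n - i) = i := by omega
  rw [e1, e2]
  congr 1
  have h1 : u ^ n = u ^ (n - i) * u ^ i := by rw [← pow_add]; congr 1; omega
  rw [h1, inv_pow, mul_assoc, mul_inv_cancel₀ (pow_ne_zero i hu), mul_one]

theorem eval_shift (p : PolynomialModule M V) (k K : ℕ) (hk : ∀ i, i < k → p.coeff i = 0)
    (hK : ∀ i, K < i → p.coeff i = 0) (hkK : k ≤ K) (u : M) :
    PolynomialModule.eval u p = u ^ k • PolynomialModule.eval u (pick p (fun i => k + i) (K - k)) := by
  rw [pick_eval, eval_range p K hK, Finset.smul_sum]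
  have e1 : K + 1 = k + (K - k + 1) := by omega
  rw [e1, Finset.sum_range_add (fun i => u ^ i • p.coeff i) k (K - k + 1)]
  rw [Finset.sum_eq_zero (s := Finset.range k) fun i hi => by
    rw [hk i (Finset.mem_range.1 hi), smul_zero], zero_add]
  refine Finset.sum_congr rfl fun i _ => ?_
  rw [smul_smul, pow_add]

theorem el_symm [Infinite M] {q : QuadraticMap M V N} {x y : V} (h : El q x y) : El q y x := by
  obtain ⟨hx, hy, p, k, K, h1, h2, h3, h4, h5⟩ := h
  have hkK : k ≤ K := by
    by_contra hc
    exact hx (by rw [← h1, h4 k (not_le.1 hc)])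
  refine ⟨hy, hx, pick p (fun i => K - i) K, 0, K - k, ?_, ?_, fun i hi => absurd hi (Nat.not_lt_zero i),
    fun i hi => ?_, ?_⟩
  · rw [pick_coeff, if_pos (Nat.zero_le _), Nat.sub_zero, h2]
  · rw [pick_coeff, if_pos (Nat.sub_le _ _)]
    have e : K - (K - k) = k := by omega
    rw [e, h1]
  · rw [pick_coeff]
    split_ifs with h6
    · exact h3 _ (by omega)
    · rfl
  · refine q_of_ne q _ fun u hu => ?_
    rw [eval_rev p K h4 hu, QuadraticMap.map_smul, h5, smul_zero]

/-- the form of the relation which is used for cycles -/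
theorem el_curve [Infinite M] {q : QuadraticMap M V N} {x y : V} (h : El q x y) :
    ∃ (n : ℕ) (c : ℕ → V), c 0 = x ∧ c n = y ∧
      ∀ u : M, q (∑ i ∈ Finset.range (n + 1), u ^ i • c i) = 0 := by
  obtain ⟨hx, hy, p, k, K, h1, h2, h3, h4, h5⟩ := h
  have hkK : k ≤ K := by
    by_contra hc
    exact hx (by rw [← h1, h4 k (not_le.1 hc)])
  refine ⟨K - k, fun i => p.coeff (k + i), h1, ?_, fun u => ?_⟩
  · have e : k + (K - k) = K := by omega
    show p.coeff (k + (K - k)) = y
    rw [e, h2]
  · rw [← pick_eval]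
    refine q_of_ne q _ (fun u hu => ?_) u
    have h6 := h5 u
    rw [eval_shift p k K h3 h4 hkK, QuadraticMap.map_smul] at h6
    exact (smul_eq_zero.1 h6).resolve_left (mul_ne_zero (pow_ne_zero _ hu) (pow_ne_zero _ hu))

theorem el_zero {q : QuadraticMap M V N} [Infinite M] {x y : V} (h : El q x y) :
    q x = 0 ∧ q y = 0 := by
  have key : ∀ {x y : V}, El q x y → q x = 0 := by
    intro x y h
    obtain ⟨n, c, h1, h2, h3⟩ := el_curve h
    have h4 := h3 0
    rw [Finset.sum_range_succ'] at h4
    simpa [h1] using h4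
  exact ⟨key h, key (el_symm h)⟩

section step

variable {q : QuadraticMap M V N} {P : V} {l : N} {U : Submodule M V}
  {s : U →ₗ[M] M} {e : N →ₗ[M] M}

/-- the forms modulo `l` on the subspace `U` -/
noncomputable def q2 (q : QuadraticMap M V N) (U : Submodule M V) (l : N) :
    QuadraticMap M U (N ⧸ Submodule.span M {l}) :=
  (Submodule.span M {l}).mkQ.compQuadraticMap (q.comp U.subtype)

/-- the coordinate of `q x` along `l` -/
def tf (q : QuadraticMap M V N) (e : N →ₗ[M] M) (x : V) : M := e (q x)

theorem q2_zero (he : e l = 1) {x : U} : q2 q U l x = 0 ↔ q x = tf q e x • l := by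
  have h1 : q2 q U l x = (Submodule.span M {l}).mkQ (q x) := rfl
  rw [h1, Submodule.mkQ_apply, Submodule.Quotient.mk_eq_zero, Submodule.mem_span_singleton]
  constructor
  · rintro ⟨a, ha⟩
    rw [tf, ← ha, map_smul, he, smul_eq_mul, mul_one]
  · intro h
    exact ⟨_, h.symm⟩

open Classical in
/-- the point of `q = 0` over the point `x` of `q2 = 0` -/
noncomputable def cc (q : QuadraticMap M V N) (P : V) (s : U →ₗ[M] M) (e : N →ₗ[M] M) (x : U) :
    V :=
  if s x = 0 ∧ tf q e x = 0 then P else s x • (x : V) - tf q e x • P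

theorem joined_refl (q : QuadraticMap M V N) (x : V) : Joined q x x := Relation.EqvGen.refl x

theorem joined_smul (q : QuadraticMap M V N) (x : V) {a : M} (ha : a ≠ 0) : Joined q x (a • x) :=
  Relation.EqvGen.rel _ _ (Or.inr ⟨a, ha, rfl⟩)

theorem joined_symm {q : QuadraticMap M V N} {x y : V} (h : Joined q x y) : Joined q y x :=
  Relation.EqvGen.symm _ _ h

theorem joined_trans {q : QuadraticMap M V N} {x y z : V} (h : Joined q x y) (h' : Joined q y z) :
    Joined q x z := Relation.EqvGen.trans _ _ _ h h'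

/-- two zeros on a line -/
theorem joined_line {q : QuadraticMap M V N} {x y : V} (hx : x ≠ 0) (hy : y ≠ 0) (qx : q x = 0)
    (qy : q y = 0) (h : QuadraticMap.polar q x y = 0) : Joined q x y := by
  refine Relation.EqvGen.rel _ _ (Or.inl ⟨hx, hy, PolynomialModule.single M 0 x +
    PolynomialModule.single M 1 y, 0, 1, ?_, ?_, fun i hi => absurd hi (Nat.not_lt_zero i),
    fun i hi => ?_, fun u => ?_⟩)
  · simp
  · simp
  · have h0 : i ≠ 0 := by omega
    have h1 : i ≠ 1 := by omega
    simp [h0.symm, h1.symm]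
  · rw [map_add, PolynomialModule.eval_single, PolynomialModule.eval_single, pow_zero, one_smul,
      pow_one, QuadraticMap.map_add q, QuadraticMap.map_smul, qx, qy, smul_zero,
      QuadraticMap.polar_smul_right, h, smul_zero, add_zero, add_zero]

/-- the image of a curve -/
noncomputable def img (P : V) (s : U →ₗ[M] M) (tau : M[X]) (p : PolynomialModule M U) :
    PolynomialModule M V :=
  lpol s p • PolynomialModule.map M U.subtype p - tau • PolynomialModule.single M 0 P

theorem img_eval (tau : M[X]) (p : PolynomialModule M U) (u : M) :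
    PolynomialModule.eval u (img P s tau p) =
      s (PolynomialModule.eval u p) • ((PolynomialModule.eval u p : U) : V) -
        tau.eval u • P := by
  have h1 : PolynomialModule.eval u (PolynomialModule.map M U.subtype p) =
      ((PolynomialModule.eval u p : U) : V) := by
    have := PolynomialModule.eval_map (R' := M) U.subtype p u
    simpa using this
  rw [img, map_sub, PolynomialModule.eval_smul, PolynomialModule.eval_smul, lpol_eval, h1,
    PolynomialModule.eval_single]
  simp

theorem img_coeff (tau : M[X]) (p : PolynomialModule M U) (k : ℕ) :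
    (img P s tau p).coeff k = (∑ x ∈ Finset.HasAntidiagonal.antidiagonal k, s (p.coeff x.1) • ((p.coeff x.2 : U) : V))
      - tau.coeff k • P := by
  rw [img, sub_eq_add_neg, PolynomialModule.coeff_add, Finsupp.add_apply,
    PolynomialModule.smul_apply]
  have h1 : (-(tau • PolynomialModule.single M 0 P)).coeff k = -(tau.coeff k • P) := by
    rw [← neg_smul, PolynomialModule.smul_single_apply, if_pos (Nat.zero_le _), Nat.sub_zero,
      Polynomial.coeff_neg, neg_smul]
  rw [h1, ← sub_eq_add_neg]
  congr 1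

/-- the first coefficients of the image of a curve -/
theorem img_low (hU : ∀ (x : U) (a b : M), x ≠ 0 → a • (x : V) - b • P = 0 → a = 0 ∧ b = 0)
    (tau : M[X]) (p : PolynomialModule M U) (hx : p.coeff 0 ≠ 0) (k : ℕ)
    (h : ∀ i, i < k → (img P s tau p).coeff i = 0) :
    (∀ i, i < k → s (p.coeff i) = 0 ∧ tau.coeff i = 0) ∧
      (img P s tau p).coeff k = s (p.coeff k) • ((p.coeff 0 : U) : V) - tau.coeff k • P := by
  have key : ∀ j, (∀ i, i < j → s (p.coeff i) = 0) →
      (img P s tau p).coeff j = s (p.coeff j) • ((p.coeff 0 : U) : V) - tau.coeff j • P := by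
    intro j hj
    rw [img_coeff, Finset.sum_eq_single (j, 0)]
    · rintro ⟨a, b⟩ hab hne
      have h1 : a + b = j := Finset.HasAntidiagonal.mem_antidiagonal.1 hab
      have h2 : a < j := by
        rcases Nat.eq_zero_or_pos b with hb | hb
        · exfalso
          apply hne
          rw [hb] at h1 ⊢
          rw [← h1, Nat.add_zero]
        · omega
      simp only
      rw [hj a h2, zero_smul]
    · intro hn
      exact absurd (Finset.HasAntidiagonal.mem_antidiagonal.2 (Nat.add_zero j)) hn
  have h1 : ∀ j, j ≤ k → (∀ i, i < j → s (p.coeff i) = 0 ∧ tau.coeff i = 0) := by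
    intro j
    induction j with
    | zero => intro _ i hi; exact absurd hi (Nat.not_lt_zero i)
    | succ j ih =>
      intro hj i hi
      have h2 := ih (by omega)
      rcases Nat.lt_succ_iff_lt_or_eq.1 hi with h3 | h3
      · exact h2 i h3
      · subst h3
        have h4 := h i (by omega)
        rw [key i fun i' hi' => (h2 i' hi').1] at h4
        exact hU _ _ _ hx h4
  exact ⟨h1 k le_rfl, key k fun i hi => (h1 k le_rfl i hi).1⟩

/-- the start of the image of a curve -/
theorem lift_low [Infinite M] (hq : q P = 0) (hP : P ≠ 0)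
    (hU : ∀ (x : U) (a b : M), x ≠ 0 → a • (x : V) - b • P = 0 → a = 0 ∧ b = 0)
    (hs : ∀ x : U, QuadraticMap.polar q x P = s x • l) (he : e l = 1)
    (p : PolynomialModule M U) (hx : p.coeff 0 ≠ 0)
    (hp : ∀ u : M, q2 q U l (PolynomialModule.eval u p) = 0) (tau : M[X])
    (ht : ∀ u : M, tau.eval u = tf q e (PolynomialModule.eval u p : U)) :
    (img P s tau p = 0 → cc q P s e (p.coeff 0) = P) ∧
      ∀ k, (∀ i, i < k → (img P s tau p).coeff i = 0) → (img P s tau p).coeff k ≠ 0 →
        Joined q (cc q P s e (p.coeff 0)) ((img P s tau p).coeff k) := by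
  have h0 : tau.coeff 0 = tf q e (p.coeff 0 : U) := by
    rw [Polynomial.coeff_zero_eq_eval_zero, ht, eval_zero]
  constructor
  · intro h
    obtain ⟨h1, -⟩ := img_low hU tau p hx 1 fun i _ => by rw [h]; simp
    obtain ⟨h2, h3⟩ := h1 0 one_pos
    rw [h0] at h3
    rw [cc, if_pos ⟨h2, h3⟩]
  · intro k hk hne
    obtain ⟨h1, h2⟩ := img_low hU tau p hx k hk
    rcases Nat.eq_zero_or_pos k with rfl | hk0
    · rw [h2, h0] at hne ⊢
      have h3 : ¬ (s (p.coeff 0) = 0 ∧ tf q e (p.coeff 0 : U) = 0) := by
        rintro ⟨h4, h5⟩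
        rw [h4, h5, zero_smul, zero_smul, sub_zero] at hne
        exact hne rfl
      rw [cc, if_neg h3]
      exact joined_refl q _
    · obtain ⟨h3, h4⟩ := h1 0 hk0
      rw [h0] at h4
      rw [cc, if_pos ⟨h3, h4⟩]
      rw [h2] at hne ⊢
      have hqx : q (p.coeff 0 : U) = 0 := by
        have h5 := (q2_zero he).1 (hp 0)
        rw [eval_zero, h4, zero_smul] at h5
        exact h5
      have hpx : QuadraticMap.polar q P (p.coeff 0 : U) = 0 := by
        rw [QuadraticMap.polar_comm, hs, h3, zero_smul]
      have hpp : QuadraticMap.polar q P P = 0 := by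
        rw [QuadraticMap.polar_self, hq, smul_zero]
      refine joined_line hP hne hq ?_ ?_
      · rw [sub_eq_add_neg, ← neg_smul, QuadraticMap.map_add q, QuadraticMap.map_smul,
          QuadraticMap.map_smul, hqx, hq, smul_zero, smul_zero, QuadraticMap.polar_smul_left,
          QuadraticMap.polar_smul_right, QuadraticMap.polar_comm, hpx, smul_zero, smul_zero]
        simp
      · rw [sub_eq_add_neg, ← neg_smul, QuadraticMap.polar_add_right,
          QuadraticMap.polar_smul_right, QuadraticMap.polar_smul_right, hpx, hpp]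
        simp

theorem cc_zero (hq : q P = 0) (hs : ∀ x : U, QuadraticMap.polar q x P = s x • l) (he : e l = 1)
    {x : U} (hx : q2 q U l x = 0) : q (s x • (x : V) - tf q e x • P) = 0 := by
  have h1 := (q2_zero he).1 hx
  rw [sub_eq_add_neg, ← neg_smul, QuadraticMap.map_add q, QuadraticMap.map_smul,
    QuadraticMap.map_smul, hq, smul_zero, add_zero, QuadraticMap.polar_smul_left,
    QuadraticMap.polar_smul_right, hs]
  rw [h1, smul_smul, smul_smul, smul_smul, ← add_smul]
  have e1 : tf q e (x : V) = tf q e x := rfl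
  have e2 : s x * s x * tf q e x + s x * -tf q e x * s x = 0 := by ring
  rw [e2, zero_smul]

theorem exists_tau (q : QuadraticMap M V N) (e : N →ₗ[M] M) (p : PolynomialModule M U) :
    ∃ tau : M[X], ∀ u : M, tau.eval u = tf q e (PolynomialModule.eval u p : U) := by
  obtain ⟨T, hT⟩ := exists_sq (e.compQuadraticMap (q.comp U.subtype)) p
  refine ⟨lpol LinearMap.id T, fun u => ?_⟩
  rw [lpol_eval, hT]
  rfl

theorem exists_norm {q : QuadraticMap M V N} [Infinite M] {x y : V} (h : El q x y) :
    ∃ (p : PolynomialModule M V) (n : ℕ), p.coeff 0 = x ∧ p.coeff n = y ∧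
      (∀ i, n < i → p.coeff i = 0) ∧ ∀ u : M, q (PolynomialModule.eval u p) = 0 := by
  obtain ⟨hx, hy, p, k, K, h1, h2, h3, h4, h5⟩ := h
  have hkK : k ≤ K := by
    by_contra hc
    exact hx (by rw [← h1, h4 k (not_le.1 hc)])
  refine ⟨pick p (fun i => k + i) (K - k), K - k, ?_, ?_, fun i hi => ?_, fun u => ?_⟩
  · rw [pick_coeff, if_pos (Nat.zero_le _), Nat.add_zero, h1]
  · rw [pick_coeff, if_pos le_rfl]
    have e : k + (K - k) = K := by omega
    rw [e, h2]
  · rw [pick_coeff, if_neg (not_le.2 hi)]
  · refine q_of_ne q _ (fun u hu => ?_) u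
    have h6 := h5 u
    rw [eval_shift p k K h3 h4 hkK, QuadraticMap.map_smul] at h6
    exact (smul_eq_zero.1 h6).resolve_left (mul_ne_zero (pow_ne_zero _ hu) (pow_ne_zero _ hu))

theorem lift_curve [Infinite M] (hq : q P = 0) (hP : P ≠ 0)
    (hU : ∀ (x : U) (a b : M), x ≠ 0 → a • (x : V) - b • P = 0 → a = 0 ∧ b = 0)
    (hs : ∀ x : U, QuadraticMap.polar q x P = s x • l) (he : e l = 1) {x y : U}
    (h : El (q2 q U l) x y) : Joined q (cc q P s e x) (cc q P s e y) := by
  obtain ⟨hx0, hy0, -⟩ := id h
  obtain ⟨p, n, h1, h2, h3, h4⟩ := exists_norm h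
  obtain ⟨tau, ht⟩ := exists_tau q e p
  obtain ⟨p', hp'⟩ : ∃ p', p' = pick p (fun i => n - i) n := ⟨_, rfl⟩
  obtain ⟨tau', ht'⟩ := exists_tau q e p'
  have hev : ∀ u : M, u ≠ 0 → PolynomialModule.eval u p' = u ^ n • PolynomialModule.eval u⁻¹ p :=
    fun u hu => by rw [hp', eval_rev p n h3 hu]
  have h4' : ∀ u : M, q2 q U l (PolynomialModule.eval u p') = 0 := by
    refine q_of_ne _ _ fun u hu => ?_
    rw [hev u hu, QuadraticMap.map_smul, h4, smul_zero]
  have hp0 : p'.coeff 0 = y := by
    rw [hp', pick_coeff, if_pos (Nat.zero_le _), Nat.sub_zero, h2]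
  obtain ⟨ha, hb⟩ := lift_low hq hP hU hs he p (by rw [h1]; exact hx0) h4 tau ht
  obtain ⟨ha', hb'⟩ := lift_low hq hP hU hs he p' (by rw [hp0]; exact hy0) h4' tau' ht'
  rw [h1] at ha hb
  rw [hp0] at ha' hb'
  obtain ⟨Y, hY⟩ : ∃ Y, Y = img P s tau p := ⟨_, rfl⟩
  obtain ⟨Y', hY'⟩ : ∃ Y', Y' = img P s tau' p' := ⟨_, rfl⟩
  rw [← hY] at ha hb
  rw [← hY'] at ha' hb'
  have hYY : ∀ u : M, u ≠ 0 → PolynomialModule.eval u Y' =
      u ^ (2 * n) • PolynomialModule.eval u⁻¹ Y := by
    intro u hu
    rw [hY, hY', img_eval, img_eval, ht, ht', hev u hu]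
    have e1 : tf q e ((u ^ n • PolynomialModule.eval u⁻¹ p : U) : V) =
        u ^ (2 * n) * tf q e (PolynomialModule.eval u⁻¹ p : U) := by
      rw [tf, tf, Submodule.coe_smul, QuadraticMap.map_smul, map_smul, smul_eq_mul, two_mul,
        pow_add]
    rw [e1, map_smul, smul_sub, smul_smul, smul_smul, Submodule.coe_smul, smul_smul, smul_eq_mul,
      two_mul, pow_add]
    congr 2
    ring
  have hYq : ∀ u : M, q (PolynomialModule.eval u Y) = 0 := by
    intro u
    rw [hY, img_eval, ht]
    exact cc_zero hq hs he (h4 u)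
  by_cases hY0 : Y = 0
  · have hY0' : Y' = 0 := pm_zero fun u hu => by rw [hYY u hu, hY0, map_zero, smul_zero]
    rw [ha hY0, ha' hY0']
    exact joined_refl q _
  -- the degree
  obtain ⟨D, hD1, hD2⟩ : ∃ D, 2 * n ≤ D ∧ ∀ i, D < i → Y.coeff i = 0 := by
    refine ⟨max (2 * n) (Y.coeff.support.sup id), le_max_left _ _, fun i hi => ?_⟩
    by_contra hc
    have h5 : i ≤ Y.coeff.support.sup id := Finset.le_sup (f := id) (Finsupp.mem_support_iff.2 hc)
    exact absurd hi (not_lt.2 (h5.trans (le_max_right _ _)))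
  have hrev : pick Y (fun i => D - i) D = (Polynomial.monomial (D - 2 * n) (1 : M)) • Y' := by
    refine pm_ext fun u hu => ?_
    rw [eval_rev Y D hD2 hu, PolynomialModule.eval_smul, hYY u hu, Polynomial.eval_monomial,
      one_mul, smul_smul, ← pow_add]
    congr 2
    omega
  have hc1 : ∀ i, i ≤ 2 * n → Y'.coeff i = Y.coeff (2 * n - i) := by
    intro i hi
    have h5 := congrArg (fun T => PolynomialModule.coeff T (i + (D - 2 * n))) hrev
    simp only [pick_coeff, PolynomialModule.monomial_smul_apply] at h5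
    rw [if_pos (by omega), if_pos (by omega), one_smul] at h5
    have e1 : D - (i + (D - 2 * n)) = 2 * n - i := by omega
    have e2 : i + (D - 2 * n) - (D - 2 * n) = i := by omega
    rw [e1, e2] at h5
    exact h5.symm
  have hc2 : ∀ i, 2 * n < i → Y.coeff i = 0 := by
    intro i hi
    by_cases hi2 : D < i
    · exact hD2 i hi2
    have h5 := congrArg (fun T => PolynomialModule.coeff T (D - i)) hrev
    simp only [pick_coeff, PolynomialModule.monomial_smul_apply] at h5
    rw [if_pos (by omega), if_neg (by omega)] at h5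
    have e1 : D - (D - i) = i := by omega
    rw [e1] at h5
    exact h5
  -- the first and the last coefficient
  have hex : ∃ k, Y.coeff k ≠ 0 := by
    by_contra hc
    push Not at hc
    exact hY0 (PolynomialModule.ext (Finsupp.ext fun i => by rw [hc i]; simp))
  classical
  obtain ⟨k, hk1, hk2⟩ : ∃ k, Y.coeff k ≠ 0 ∧ ∀ i, i < k → Y.coeff i = 0 :=
    ⟨Nat.find hex, Nat.find_spec hex, fun i hi => not_not.1 (Nat.find_min hex hi)⟩
  have hex' : ∃ k, Y.coeff (2 * n - k) ≠ 0 := by
    refine ⟨2 * n - k, ?_⟩
    have h5 : k ≤ 2 * n := by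
      by_contra hc
      exact hk1 (hc2 k (not_le.1 hc))
    have e1 : 2 * n - (2 * n - k) = k := by omega
    rw [e1]
    exact hk1
  obtain ⟨j, hj1, hj2⟩ : ∃ k, Y.coeff (2 * n - k) ≠ 0 ∧ ∀ i, i < k → Y.coeff (2 * n - i) = 0 :=
    ⟨Nat.find hex', Nat.find_spec hex', fun i hi => not_not.1 (Nat.find_min hex' hi)⟩
  have hj3 : j ≤ 2 * n := by
    by_contra hc
    have h5 := hj2 (2 * n) (not_le.1 hc)
    apply hj1
    have e1 : 2 * n - j = 2 * n - 2 * n := by omega
    rw [e1]
    exact h5
  have h5 := hb k hk2 hk1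
  have h6 := hb' j (fun i hi => by rw [hc1 i (by omega)]; exact hj2 i hi)
    (by rw [hc1 j hj3]; exact hj1)
  rw [hc1 j hj3] at h6
  refine joined_trans h5 (joined_trans (Relation.EqvGen.rel _ _ (Or.inl
    ⟨hk1, hj1, Y, k, 2 * n - j, rfl, rfl, hk2, fun i hi => ?_, hYq⟩)) (joined_symm h6))
  by_cases h7 : 2 * n < i
  · exact hc2 i h7
  · have h8 := hj2 (2 * n - i) (by omega)
    have e1 : 2 * n - (2 * n - i) = i := by omega
    rw [e1] at h8
    exact h8

theorem lift_joined [Infinite M] (hq : q P = 0) (hP : P ≠ 0)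
    (hU : ∀ (x : U) (a b : M), x ≠ 0 → a • (x : V) - b • P = 0 → a = 0 ∧ b = 0)
    (hs : ∀ x : U, QuadraticMap.polar q x P = s x • l) (he : e l = 1) {x y : U}
    (h : Joined (q2 q U l) x y) : Joined q (cc q P s e x) (cc q P s e y) := by
  induction h with
  | rel x y h =>
    rcases h with h | ⟨a, ha, rfl⟩
    · exact lift_curve hq hP hU hs he h
    · have e1 : tf q e ((a • x : U) : V) = a * a * tf q e x := by
        rw [tf, tf, Submodule.coe_smul, QuadraticMap.map_smul, map_smul, smul_eq_mul]
      by_cases h0 : s x = 0 ∧ tf q e x = 0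
      · have h1 : s (a • x) = 0 ∧ tf q e ((a • x : U) : V) = 0 := by
          rw [map_smul, h0.1, smul_zero, e1, h0.2, mul_zero]
          exact ⟨rfl, rfl⟩
        rw [cc, cc, if_pos h0, if_pos h1]
        exact joined_refl q _
      · have h1 : ¬ (s (a • x) = 0 ∧ tf q e ((a • x : U) : V) = 0) := by
          rintro ⟨h2, h3⟩
          rw [map_smul, smul_eq_mul] at h2
          rw [e1] at h3
          exact h0 ⟨(mul_eq_zero.1 h2).resolve_left ha,
            (mul_eq_zero.1 h3).resolve_left (mul_ne_zero ha ha)⟩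
        rw [cc, cc, if_neg h0, if_neg h1]
        have e2 : s (a • x) • ((a • x : U) : V) - tf q e ((a • x : U) : V) • P =
            (a * a) • (s x • (x : V) - tf q e x • P) := by
          rw [e1, map_smul, Submodule.coe_smul, smul_sub, smul_smul, smul_smul, smul_smul,
            smul_eq_mul]
          congr 2
          ring
        rw [e2]
        exact joined_smul q _ (mul_ne_zero ha ha)
  | refl x => exact joined_refl q _
  | symm x y _ ih => exact joined_symm ih
  | trans x y z _ _ ih ih' => exact joined_trans ih ih'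

end step

/-- systems of `s` quadratic forms in more than `4 s` variables have nontrivial zeros -/
def HBq (M : Type u) [Field M] (s : ℕ) : Prop :=
  ∀ (V N : Type u) [AddCommGroup V] [Module M V] [AddCommGroup N] [Module M N]
    [FiniteDimensional M V] [FiniteDimensional M N] (q : QuadraticMap M V N),
    finrank M N = s → 4 * s < finrank M V → ∃ x : V, x ≠ 0 ∧ q x = 0

/-- from matrices to quadratic maps -/
theorem hbq_of_matrix {s : ℕ} (h : ∀ m, 4 * s < m → ∀ A : Fin s → Matrix (Fin m) (Fin m) M,
    ∃ x : Fin m → M, x ≠ 0 ∧ ∀ i, x ⬝ᵥ ((A i).mulVec x) = 0) : HBq M s := by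
  intro V N _ _ _ _ _ _ q hN hV
  obtain ⟨B, hB⟩ := LinearMap.BilinMap.toQuadraticMap_surjective (R := M) (M := V) (N := N) q
  obtain ⟨bV⟩ : Nonempty (Basis (Fin (finrank M V)) M V) := ⟨Module.finBasis M V⟩
  obtain ⟨bN⟩ : Nonempty (Basis (Fin s) M N) := ⟨Module.finBasisOfFinrankEq M N hN⟩
  obtain ⟨x, hx, hx'⟩ := h _ hV fun i => Matrix.of fun a b => bN.coord i (B (bV a) (bV b))
  refine ⟨bV.equivFun.symm x, fun h0 => hx ?_, ?_⟩
  · exact bV.equivFun.symm.injective (by rw [h0, map_zero])
  · refine bN.ext_elem_iff.2 fun i => ?_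
    have h1 := hx' i
    rw [← hB, LinearMap.BilinMap.toQuadraticMap_apply, Basis.equivFun_symm_apply]
    simp only [dotProduct, Matrix.mulVec, Matrix.of_apply, Basis.coord_apply] at h1
    simp only [map_sum, map_smul, LinearMap.sum_apply, LinearMap.smul_apply, Finsupp.coe_finsetSum,
      Finset.sum_apply, Finsupp.smul_apply, smul_eq_mul, map_zero, Finsupp.coe_zero, Pi.zero_apply]
    rw [← h1]
    simp only [Finset.mul_sum]
    rw [Finset.sum_comm]
    refine Finset.sum_congr rfl fun a _ => ?_
    refine Finset.sum_congr rfl fun b _ => ?_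
    ring

/-- the number of variables needed for chains of curves -/
def bnd : ℕ → ℕ
  | 0 => 1
  | r + 1 => min (6 * (r + 1) - 3) (max (bnd r + (r + 1)) (5 * (r + 1) - 2))

theorem bnd_le (r : ℕ) (hr : 0 < r) : bnd r ≤ 6 * r - 3 := by
  obtain ⟨r, rfl⟩ := Nat.exists_eq_succ_of_ne_zero hr.ne'
  exact min_le_left _ _

/-- the values `3, 8, 13, 18, 23, 29, 36, 44, 51` -/
theorem bnd_values : bnd 1 = 3 ∧ bnd 2 = 8 ∧ bnd 3 = 13 ∧ bnd 4 = 18 ∧ bnd 5 = 23 ∧ bnd 6 = 29 ∧
    bnd 7 = 36 ∧ bnd 8 = 44 ∧ bnd 9 = 51 := by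
  decide

theorem polar_self_zero {q : QuadraticMap M V N} {P : V} (hq : q P = 0) :
    QuadraticMap.polar q P P = 0 := by
  rw [QuadraticMap.polar_self, hq, smul_zero]

/-- one step: projection from `P` -/
theorem step [Infinite M] [FiniteDimensional M V] [FiniteDimensional M N]
    {q : QuadraticMap M V N} {P Q : V} (hP : P ≠ 0) (hq : q P = 0)
    (hQ : q Q = 0) (hl : QuadraticMap.polar q P Q ≠ 0)
    (H : ∀ (U : Submodule M V) (s : U →ₗ[M] M) (x : U),
      finrank M V ≤ finrank M U + finrank M N → x ≠ 0 → s x = 1 →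
      q2 q U (QuadraticMap.polar q P Q) x = 0 →
      ∃ R : U, s R = 0 ∧ q2 q U (QuadraticMap.polar q P Q) R = 0 ∧
        Joined (q2 q U (QuadraticMap.polar q P Q)) x R) : Joined q P Q := by
  obtain ⟨l, hl'⟩ : ∃ l, l = QuadraticMap.polar q P Q := ⟨_, rfl⟩
  rw [← hl'] at hl H
  obtain ⟨e, he⟩ := Module.Projective.exists_dual_eq_one M hl
  obtain ⟨g, hg⟩ := Module.Projective.exists_dual_eq_one M hP
  have hPP := polar_self_zero hq
  have hQP : QuadraticMap.polar q Q P = l := by rw [hl', QuadraticMap.polar_comm]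
  -- the subspace
  obtain ⟨F, hF⟩ : ∃ F : V →ₗ[M] (N ⧸ Submodule.span M {l}) × M,
      ∀ x, F x = (Submodule.Quotient.mk (QuadraticMap.polar q x P), g x) :=
    ⟨((Submodule.span M {l}).mkQ.comp (q.polarBilin.flip P)).prod g, fun x => rfl⟩
  obtain ⟨U, hU⟩ : ∃ U, U = LinearMap.ker F := ⟨_, rfl⟩
  have hmem : ∀ x : V, x ∈ U ↔ QuadraticMap.polar q x P ∈ Submodule.span M {l} ∧ g x = 0 := by
    intro x
    rw [hU, LinearMap.mem_ker, hF, Prod.mk_eq_zero, Submodule.Quotient.mk_eq_zero]
  have hdim : finrank M V ≤ finrank M U + finrank M N := by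
    have h1 := LinearMap.finrank_range_add_finrank_ker F
    have h2 : finrank M (LinearMap.range F) ≤ finrank M ((N ⧸ Submodule.span M {l}) × M) :=
      Submodule.finrank_le _
    rw [Module.finrank_prod, Module.finrank_self] at h2
    have h3 := Submodule.finrank_quotient_add_finrank (Submodule.span M {l})
    have h4 := finrank_span_singleton (K := M) hl
    rw [hU]
    omega
  obtain ⟨s, hs⟩ : ∃ s : U →ₗ[M] M, ∀ x, s x = e (QuadraticMap.polar q x P) :=
    ⟨(e.comp (q.polarBilin.flip P)).comp U.subtype, fun x => rfl⟩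
  have hs' : ∀ x : U, QuadraticMap.polar q x P = s x • l := by
    intro x
    obtain ⟨h1, -⟩ := (hmem x).1 x.2
    obtain ⟨a, ha⟩ := Submodule.mem_span_singleton.1 h1
    rw [hs, ← ha, map_smul, he, smul_eq_mul, mul_one]
  have hind : ∀ (x : U) (a b : M), x ≠ 0 → a • (x : V) - b • P = 0 → a = 0 ∧ b = 0 := by
    intro x a b hx h
    have h1 := congrArg g h
    rw [map_sub, map_smul, map_smul, ((hmem x).1 x.2).2, hg, map_zero, smul_zero, zero_sub,
      smul_eq_mul, mul_one, neg_eq_zero] at h1
    rw [h1, zero_smul, sub_zero] at h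
    exact ⟨(smul_eq_zero.1 h).resolve_right fun h2 => hx (Subtype.ext h2), h1⟩
  -- the point
  have hQ2 : Q - g Q • P ∈ U := by
    rw [hmem]
    constructor
    · rw [sub_eq_add_neg, ← neg_smul, QuadraticMap.polar_add_left, QuadraticMap.polar_smul_left,
        hPP, smul_zero, add_zero, hQP]
      exact Submodule.mem_span_singleton_self l
    · rw [map_sub, map_smul, hg, smul_eq_mul, mul_one, sub_self]
  obtain ⟨x, hx⟩ : ∃ x : U, (x : V) = Q - g Q • P := ⟨⟨_, hQ2⟩, rfl⟩
  have hsx : s x = 1 := by
    rw [hs, hx, sub_eq_add_neg, ← neg_smul, QuadraticMap.polar_add_left,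
      QuadraticMap.polar_smul_left, hPP, smul_zero, add_zero, hQP, he]
  have hx0 : x ≠ 0 := by
    rintro rfl
    rw [map_zero] at hsx
    exact zero_ne_one hsx
  have hqx : q (x : V) = (-g Q) • l := by
    rw [hx, sub_eq_add_neg, ← neg_smul, QuadraticMap.map_add q, QuadraticMap.map_smul, hq, hQ,
      smul_zero, add_zero, zero_add, QuadraticMap.polar_smul_right, hQP]
  have htx : tf q e (x : V) = -g Q := by
    rw [tf, hqx, map_smul, he, smul_eq_mul, mul_one]
  have hx2 : q2 q U l x = 0 := by
    rw [q2_zero he, htx, hqx]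
  obtain ⟨R, hR1, hR2, hR3⟩ := H U s x hdim hx0 hsx hx2
  have h5 := lift_joined hq hP hind hs' he hR3
  have h6 : cc q P s e x = Q := by
    rw [cc, if_neg fun h => by rw [hsx] at h; exact one_ne_zero h.1, hsx, htx, hx]
    module
  rw [h6] at h5
  have h7 : Joined q P (cc q P s e R) := by
    rw [cc]
    split_ifs with h8
    · exact joined_refl q P
    · rw [hR1, zero_smul, zero_sub, ← neg_smul]
      exact joined_smul q P (neg_ne_zero.2 fun h9 => h8 ⟨hR1, h9⟩)
  exact joined_trans h7 (joined_symm h5)

/-- chains of curves between all nonzero zeros -/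
theorem joined [Infinite M] (r : ℕ) (hb : ∀ s, s < r → HBq M s) :
    ∀ (V N : Type u) [AddCommGroup V] [Module M V] [AddCommGroup N] [Module M N]
      [FiniteDimensional M V] [FiniteDimensional M N] (q : QuadraticMap M V N),
      finrank M N = r → bnd r ≤ finrank M V → ∀ P Q : V, P ≠ 0 → Q ≠ 0 → q P = 0 → q Q = 0 →
        Joined q P Q := by
  induction r with
  | zero =>
    intro V N _ _ _ _ _ _ q hN hV P Q hP hQ hqP hqQ
    have h1 := Module.finrank_zero_iff.1 hN
    exact joined_line hP hQ hqP hqQ (Subsingleton.elim _ _)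
  | succ r ih =>
    intro V N _ _ _ _ _ _ q hN hV P Q hP hQ hqP hqQ
    by_cases hl : QuadraticMap.polar q P Q = 0
    · exact joined_line hP hQ hqP hqQ hl
    refine step hP hqP hqQ hl fun U s x hU hx hsx hq2 => ?_
    obtain ⟨q', hq'⟩ : ∃ q', q' = q2 q U (QuadraticMap.polar q P Q) := ⟨_, rfl⟩
    rw [← hq'] at hq2 ⊢
    have hN2 : finrank M (N ⧸ Submodule.span M {QuadraticMap.polar q P Q}) = r := by
      have h3 := Submodule.finrank_quotient_add_finrank
        (Submodule.span M {QuadraticMap.polar q P Q})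
      have h4 := finrank_span_singleton (K := M) hl
      omega
    rw [hN] at hU
    rw [bnd] at hV
    rcases min_le_iff.1 hV with h1 | h1
    · -- a line
      obtain ⟨W, hW⟩ : ∃ W : Submodule M U, W = LinearMap.ker (q'.polarBilin x) ⊓
        LinearMap.ker s := ⟨_, rfl⟩
      have hW' : finrank M U ≤ finrank M W + (r + 1) := by
        have e1 : W = LinearMap.ker ((q'.polarBilin x).prod s) := by
          rw [hW, LinearMap.ker_prod]
        have h2 := LinearMap.finrank_range_add_finrank_ker ((q'.polarBilin x).prod s)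
        have h3 : finrank M (LinearMap.range ((q'.polarBilin x).prod s)) ≤
            finrank M ((N ⧸ Submodule.span M {QuadraticMap.polar q P Q}) × M) :=
          Submodule.finrank_le _
        rw [Module.finrank_prod, Module.finrank_self, hN2] at h3
        rw [e1]
        omega
      obtain ⟨R, hR, hR'⟩ := hb r (Nat.lt_succ_self r) W _ (q'.comp W.subtype) hN2 (by omega)
      have hRW : (R : U) ∈ LinearMap.ker (q'.polarBilin x) ⊓ LinearMap.ker s := hW ▸ R.2
      refine ⟨R, hRW.2, hR', joined_line hx (fun h => hR (Subtype.ext h)) hq2 hR' ?_⟩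
      exact hRW.1
    · obtain ⟨h2, h3⟩ := max_le_iff.1 h1
      obtain ⟨W, hW⟩ : ∃ W : Submodule M U, W = LinearMap.ker s := ⟨_, rfl⟩
      have hW' : finrank M U ≤ finrank M W + 1 := by
        have h4 := LinearMap.finrank_range_add_finrank_ker s
        have h5 : finrank M (LinearMap.range s) ≤ finrank M M := Submodule.finrank_le _
        rw [Module.finrank_self] at h5
        rw [hW]
        omega
      obtain ⟨R, hR, hR'⟩ := hb r (Nat.lt_succ_self r) W _ (q'.comp W.subtype) hN2 (by omega)
      have hRW : (R : U) ∈ LinearMap.ker s := hW ▸ R.2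
      refine ⟨R, hRW, hR', ?_⟩
      exact ih (fun s' hs' => hb s' (by omega)) U _ q' hN2 (by omega) x R hx
        (fun h => hR (Subtype.ext h)) hq2 hR'

end Pool.Agent.Lib.MP_f80667_ag.Ch
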