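import Pool.Agent.Lib.MP_f80667_ag.ZC.Chain

/-!
# Local study of systems of quadratic forms over a complete field: linear algebra

`qf B` is the quadratic map of a bilinear map `B`, `be B` its polar form. `exists_good`: a symmetric
bilinear map with all components of large rank has a vector `v` such that `β v` is onto.
-/

set_option autoImplicit false

namespace Pool.Agent.Lib.MP_f80667_ag.Ch

open Module Filter Topology

universe u

variable {K : Type u} [NontriviallyNormedField K] [CompleteSpace K]
  {E N : Type u} [NormedAddCommGroup E] [NormedSpace K E] [FiniteDimensional K E]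
  [NormedAddCommGroup N] [NormedSpace K N] [FiniteDimensional K N]

/-- the quadratic map of a bilinear map -/
noncomputable def qf (B : E →L[K] E →L[K] N) : QuadraticMap K E N :=
  LinearMap.BilinMap.toQuadraticMap (B.toLinearMap₁₂ : LinearMap.BilinMap K E N)

omit [CompleteSpace K] [FiniteDimensional K E] [FiniteDimensional K N] in
theorem qf_apply (B : E →L[K] E →L[K] N) (x : E) : qf B x = B x x := rfl

/-- the polar form -/
noncomputable def be (B : E →L[K] E →L[K] N) : E →L[K] E →L[K] N := B + B.flip

omit [CompleteSpace K] [FiniteDimensional K E] [FiniteDimensional K N] in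
theorem be_apply (B : E →L[K] E →L[K] N) (x y : E) : be B x y = B x y + B y x := rfl

omit [CompleteSpace K] [FiniteDimensional K E] [FiniteDimensional K N] in
theorem be_comm (B : E →L[K] E →L[K] N) (x y : E) : be B x y = be B y x := by
  rw [be_apply, be_apply, add_comm]

omit [CompleteSpace K] [FiniteDimensional K E] [FiniteDimensional K N] in
theorem be_self (B : E →L[K] E →L[K] N) (x : E) : be B x x = (2 : K) • qf B x := by
  rw [be_apply, qf_apply, two_smul]

omit [CompleteSpace K] [FiniteDimensional K E] [FiniteDimensional K N] in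
theorem polar_qf (B : E →L[K] E →L[K] N) (x y : E) :
    QuadraticMap.polar (qf B) x y = be B x y := by
  rw [QuadraticMap.polar, qf_apply, qf_apply, qf_apply, be_apply, map_add, map_add,
    _root_.add_apply, _root_.add_apply]
  abel

/-- a component of the polar form -/
noncomputable def frm (B : E →L[K] E →L[K] N) (mu : N →ₗ[K] K) : E →ₗ[K] E →ₗ[K] K :=
  ((be B).toLinearMap₁₂ : E →ₗ[K] E →ₗ[K] N).compr₂ mu

omit [CompleteSpace K] [FiniteDimensional K E] [FiniteDimensional K N] in
theorem frm_apply (B : E →L[K] E →L[K] N) (mu : N →ₗ[K] K) (x y : E) :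
    frm B mu x y = mu (be B x y) := rfl

/-- the rank of a component -/
noncomputable def rk (B : E →L[K] E →L[K] N) (mu : N →ₗ[K] K) : ℕ :=
  finrank K (LinearMap.range (frm B mu))

omit [FiniteDimensional K E] in
/-- surjectivity is an open condition -/
theorem eventually_surj {X : Type*} [TopologicalSpace X] {A : X → E →L[K] N} {x₀ : X}
    (hA : ContinuousAt A x₀) (h : Function.Surjective (A x₀)) :
    ∀ᶠ x in 𝓝 x₀, Function.Surjective (A x) := by
  obtain ⟨b⟩ : Nonempty (Basis (Fin (finrank K N)) K N) := ⟨Module.finBasis K N⟩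
  choose a ha using fun i => h (b i)
  have h1 : ContinuousAt (fun x => fun i : Fin (finrank K N) => A x (a i)) x₀ := by
    rw [continuousAt_pi]
    intro i
    exact hA.clm_apply continuousAt_const
  have h2 : LinearIndependent K (fun i : Fin (finrank K N) => A x₀ (a i)) := by
    simp only [ha]
    exact b.linearIndependent
  filter_upwards [h1.eventually h2.eventually] with x hx
  have h3 : Submodule.span K (Set.range fun i : Fin (finrank K N) => A x (a i)) = ⊤ := by
    have := hx.span_eq_top_of_card_eq_finrank' (by simp)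
    exact this
  rw [← ContinuousLinearMap.coe_coe, ← LinearMap.range_eq_top, eq_top_iff, ← h3,
    Submodule.span_le]
  rintro _ ⟨i, rfl⟩
  exact ⟨a i, rfl⟩

/-- In a pencil `A + t C` of linear maps in which `A` has maximal rank, `C` maps the kernel of `A`
to the range of `A`. -/
theorem mem_range_of_max {A C : E →L[K] N} (hmax : ∀ t : K, finrank K (LinearMap.range
      ((A + t • C : E →L[K] N) : E →ₗ[K] N)) ≤ finrank K (LinearMap.range (A : E →ₗ[K] N)))
    {x : E} (hx : A x = 0) : C x ∈ LinearMap.range (A : E →ₗ[K] N) := by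
  by_contra hC
  obtain ⟨d, hd⟩ : ∃ d, d = finrank K (LinearMap.range (A : E →ₗ[K] N)) := ⟨_, rfl⟩
  obtain ⟨b⟩ : Nonempty (Basis (Fin d) K (LinearMap.range (A : E →ₗ[K] N))) :=
    ⟨Module.finBasisOfFinrankEq K _ hd.symm⟩
  choose a ha using fun i => (b i).2
  have h0 : LinearIndependent K (Fin.cons (C x) (fun i => ((b i : _) : N)) : Fin (d + 1) → N) := by
    rw [linearIndependent_finCons]
    refine ⟨b.linearIndependent.map' (LinearMap.range (A : E →ₗ[K] N)).subtype
      (Submodule.ker_subtype _), fun h => hC ?_⟩
    refine (Submodule.span_le.2 ?_) h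
    rintro _ ⟨i, rfl⟩
    exact (b i).2
  have h1 : ContinuousAt (fun t : K => (Fin.cons (C x) (fun i => (A + t • C) (a i)) :
      Fin (d + 1) → N)) 0 := by
    rw [continuousAt_pi]
    intro i
    refine Fin.cases ?_ (fun j => ?_) i
    · simpa using continuousAt_const
    · simp only [Fin.cons_succ]
      have : Continuous fun t : K => (A + t • C) (a j) := by
        simp only [_root_.add_apply, _root_.smul_apply]
        fun_prop
      exact this.continuousAt
  have h2 : LinearIndependent K ((fun t : K => (Fin.cons (C x) (fun i => (A + t • C) (a i)) :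
      Fin (d + 1) → N)) 0) := by
    have e : (fun i => (A + (0 : K) • C) (a i)) = fun i => ((b i : _) : N) := by
      funext i
      rw [zero_smul, add_zero]
      exact ha i
    simp only [e]
    exact h0
  have h3 := h1.eventually h2.eventually
  obtain ⟨t, ht, ht0⟩ := ((h3.filter_mono nhdsWithin_le_nhds).and
    (self_mem_nhdsWithin : ({0}ᶜ : Set K) ∈ 𝓝[≠] (0 : K))).exists
  have ht0' : t ≠ 0 := ht0
  have h4 : Submodule.span K (Set.range (Fin.cons (C x) (fun i => (A + t • C) (a i)) :
      Fin (d + 1) → N)) ≤ LinearMap.range ((A + t • C : E →L[K] N) : E →ₗ[K] N) := by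
    rw [Submodule.span_le]
    rintro _ ⟨i, rfl⟩
    refine Fin.cases ?_ (fun j => ?_) i
    · refine ⟨t⁻¹ • x, ?_⟩
      rw [Fin.cons_zero, map_smul]
      show t⁻¹ • (A x + t • C x) = C x
      rw [hx, zero_add, smul_smul, inv_mul_cancel₀ ht0', one_smul]
    · exact ⟨a j, by rw [Fin.cons_succ]; rfl⟩
  have h5 := Submodule.finrank_mono h4
  rw [finrank_span_eq_card ht, Fintype.card_fin] at h5
  have h6 := hmax t
  omega

/-- A symmetric bilinear map whose components have rank at least `dim N`: for some `v` the map
`β v` is onto and the value at `v` is not `0`. -/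
theorem exists_good [CharZero K] (B : E →L[K] E →L[K] N) (hN : 0 < finrank K N)
    (h : ∀ mu : N →ₗ[K] K, mu ≠ 0 → finrank K N ≤ rk B mu) :
    ∃ v, Function.Surjective (be B v) ∧ qf B v ≠ 0 := by
  -- the maximal rank
  obtain ⟨v, hv⟩ : ∃ v : E, ∀ w : E, finrank K (LinearMap.range (be B w : E →ₗ[K] N)) ≤
      finrank K (LinearMap.range (be B v : E →ₗ[K] N)) := by
    by_contra hcon
    push Not at hcon
    have h1 : ∀ m : ℕ, ∃ v : E, m ≤ finrank K (LinearMap.range (be B v : E →ₗ[K] N)) := by
      intro m
      induction m with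
      | zero => exact ⟨0, Nat.zero_le _⟩
      | succ m ih =>
        obtain ⟨v, hv⟩ := ih
        obtain ⟨w, hw⟩ := hcon v
        exact ⟨w, by omega⟩
    obtain ⟨v, hv⟩ := h1 (finrank K N + 1)
    have := Submodule.finrank_le (LinearMap.range (be B v : E →ₗ[K] N))
    omega
  have hs : Function.Surjective (be B v) := by
    rw [← ContinuousLinearMap.coe_coe, ← LinearMap.range_eq_top]
    by_contra hne
    obtain ⟨mu, hmu, hle⟩ := Submodule.exists_le_ker_of_lt_top _ (lt_top_iff_ne_top.2 hne)
    have h1 : LinearMap.ker (be B v : E →ₗ[K] N) ≤ LinearMap.ker (frm B mu) := by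
      intro x hx
      rw [LinearMap.mem_ker] at hx ⊢
      ext w
      have h2 : be B w x ∈ LinearMap.range (be B v : E →ₗ[K] N) := by
        refine mem_range_of_max (A := be B v) (C := be B w) (fun t => ?_) hx
        have := hv (v + t • w)
        rwa [map_add, map_smul] at this
      have h3 : mu (be B w x) = 0 := hle h2
      rw [frm_apply, be_comm, h3]
      rfl
    have h2 := Submodule.finrank_mono h1
    have h3 := LinearMap.finrank_range_add_finrank_ker (frm B mu)
    have h4 := LinearMap.finrank_range_add_finrank_ker (be B v : E →ₗ[K] N)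
    have h5 := h mu hmu
    rw [rk] at h5
    have h6 : finrank K (LinearMap.range (be B v : E →ₗ[K] N)) < finrank K N :=
      Submodule.finrank_lt hne
    omega
  by_cases h0 : qf B v = 0
  · have hnt : Nontrivial N := Module.finrank_pos_iff.1 hN
    obtain ⟨y, hy⟩ := exists_ne (0 : N)
    obtain ⟨x, hx⟩ := hs y
    have h1 : ContinuousAt (fun t : K => be B (v + t • x)) 0 := by
      have : Continuous fun t : K => be B (v + t • x) := by fun_prop
      exact this.continuousAt
    have h2 : ∀ᶠ t : K in 𝓝 0, Function.Surjective (be B (v + t • x)) := by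
      refine eventually_surj h1 ?_
      rw [zero_smul, add_zero]
      exact hs
    have h3 : ∀ᶠ t : K in 𝓝 0, be B v x + t • qf B x ≠ 0 := by
      have : Continuous fun t : K => be B v x + t • qf B x := by fun_prop
      refine this.continuousAt.eventually_ne ?_
      rw [zero_smul, add_zero, hx]
      exact hy
    obtain ⟨t, ⟨ht, ht'⟩, ht0⟩ := (((h2.and h3).filter_mono nhdsWithin_le_nhds).and
      (self_mem_nhdsWithin : ({0}ᶜ : Set K) ∈ 𝓝[≠] (0 : K))).exists
    have ht0' : t ≠ 0 := ht0
    refine ⟨v + t • x, ht, ?_⟩
    have e : qf B (v + t • x) = t • (be B v x + t • qf B x) := by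
      have h5 : qf B v = B v v := rfl
      rw [h5] at h0
      rw [qf_apply, qf_apply, be_apply]
      simp only [map_add, map_smul, _root_.add_apply, _root_.smul_apply,
        h0]
      module
    rw [e]
    exact smul_ne_zero ht0' ht'
  · exact ⟨v, hs, h0⟩

end Pool.Agent.Lib.MP_f80667_ag.Ch
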