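import Pool.Agent.Lib.MP_f80667_ag.ZC.LocA

/-!
# Local study of systems of quadratic forms over a complete field: tools

Chains of curves under linear maps, the projection from a point, zeros near a point, ranks of
restrictions.
-/

set_option autoImplicit false

namespace Pool.Agent.Lib.MP_f80667_ag.Ch

open Module Filter Topology

universe u

section alg

variable {M : Type u} [Field M] {V : Type u} [AddCommGroup V] [Module M V] {N : Type u}
  [AddCommGroup N] [Module M N] {V' : Type u} [AddCommGroup V'] [Module M V'] {N' : Type u}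
  [AddCommGroup N'] [Module M N']

theorem map_eval (l : V' →ₗ[M] V) (p : PolynomialModule M V') (u : M) :
    PolynomialModule.eval u (PolynomialModule.map M l p) = l (PolynomialModule.eval u p) := by
  induction p using PolynomialModule.induction_linear with
  | zero => simp
  | add x y hx hy => rw [map_add, map_add, map_add, map_add, hx, hy]
  | single n m =>
    rw [PolynomialModule.map_single, PolynomialModule.eval_single, PolynomialModule.eval_single,
      map_smul]

/-- an injective linear map between spaces with quadratic maps takes chains of curves to chains of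
curves -/
theorem joined_map {q' : QuadraticMap M V' N'} {q : QuadraticMap M V N} {l : V' →ₗ[M] V}
    (hl : Function.Injective l) (h : ∀ x, q' x = 0 → q (l x) = 0) {x y : V'}
    (hxy : Joined q' x y) : Joined q (l x) (l y) := by
  induction hxy with
  | rel x y hr =>
    rcases hr with ⟨hx, hy, p, k, n, h1, h2, h3, h4, h5⟩ | ⟨a, ha, rfl⟩
    · refine Relation.EqvGen.rel _ _ (Or.inl ⟨fun h0 => hx (hl (by rw [h0, map_zero])),
        fun h0 => hy (hl (by rw [h0, map_zero])), PolynomialModule.map M l p, k, n, ?_, ?_, ?_, ?_,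
        ?_⟩)
      · rw [pm_map_coeff, h1]
      · rw [pm_map_coeff, h2]
      · intro i hi
        rw [pm_map_coeff, h3 i hi, map_zero]
      · intro i hi
        rw [pm_map_coeff, h4 i hi, map_zero]
      · intro u
        rw [map_eval]
        exact h _ (h5 u)
    · rw [map_smul]
      exact joined_smul q _ ha
  | refl x => exact joined_refl q _
  | symm x y _ ih => exact joined_symm ih
  | trans x y z _ _ ih ih' => exact joined_trans ih ih'

/-- the projection from `P`: a chain for the forms modulo `l` on the range of `f` from the direction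
of `S` to a point of the tangent space gives a chain from `P` to `S` -/
theorem joined_of_proj [Infinite M] {q : QuadraticMap M V N} {P S : V} (qP : q P = 0)
    (qS : q S = 0) {e : N →ₗ[M] M} {g : V →ₗ[M] M} {l : N} (hl : e l = 1) {c d : M} (hc0 : c ≠ 0)
    (hd0 : d ≠ 0) (hc : QuadraticMap.polar q P S = c • l) (hgP : g P ≠ 0)
    {q' : QuadraticMap M V' N'} {f : V' →ₗ[M] V} (hf : Function.Injective f)
    (hf1 : ∀ u, QuadraticMap.polar q (f u) P = e (QuadraticMap.polar q (f u) P) • l)
    (hf2 : ∀ u, g (f u) = 0) (hf3 : ∀ u, q' u = 0 → q (f u) = e (q (f u)) • l) {x R : V'}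
    (hx : f x = d • (S - (g S / g P) • P)) (hR : e (QuadraticMap.polar q (f R) P) = 0)
    (hJ : Joined q' x R) : Joined q P S := by
  have hP : P ≠ 0 := by
    rintro rfl
    exact hgP (map_zero g)
  have hPP : QuadraticMap.polar q P P = 0 := polar_self_zero qP
  obtain ⟨U, hU⟩ : ∃ U, U = LinearMap.range f := ⟨_, rfl⟩
  obtain ⟨f', hf'⟩ : ∃ f' : V' →ₗ[M] U, ∀ u, ((f' u : U) : V) = f u :=
    ⟨f.codRestrict U (fun u => hU ▸ ⟨u, rfl⟩), fun u => rfl⟩
  have hmem : ∀ x : U, ∃ u, x = f' u := by
    rintro ⟨x, hx⟩
    rw [hU] at hx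
    obtain ⟨u, rfl⟩ := hx
    exact ⟨u, Subtype.ext (hf' u).symm⟩
  obtain ⟨s, hs⟩ : ∃ s : U →ₗ[M] M, ∀ x, s x = e (QuadraticMap.polar q x P) :=
    ⟨(e.comp (q.polarBilin.flip P)).comp U.subtype, fun x => rfl⟩
  have hs' : ∀ x : U, QuadraticMap.polar q x P = s x • l := by
    intro x
    obtain ⟨u, rfl⟩ := hmem x
    rw [hs, hf']
    exact hf1 u
  have hind : ∀ (x : U) (a b : M), x ≠ 0 → a • (x : V) - b • P = 0 → a = 0 ∧ b = 0 := by
    intro x a b hx h
    obtain ⟨u, rfl⟩ := hmem x
    have h1 := congrArg g h
    rw [hf', map_sub, map_smul, map_smul, hf2, map_zero, smul_zero, zero_sub, neg_eq_zero,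
      smul_eq_mul] at h1
    have h2 : b = 0 := (mul_eq_zero.1 h1).resolve_right hgP
    rw [h2, zero_smul, sub_zero] at h
    exact ⟨(smul_eq_zero.1 h).resolve_right fun h3 => hx (Subtype.ext h3), h2⟩
  have hJ' : Joined (q2 q U l) (f' x) (f' R) := by
    refine joined_map (l := f') (fun a b hab => hf ?_) (fun u hu => ?_) hJ
    · rw [← hf', ← hf', hab]
    · rw [q2_zero hl, tf, hf']
      exact hf3 u hu
  have h5 := lift_joined qP hP hind hs' hl hJ'
  have h6 : Joined q P (cc q P s e (f' R)) := by
    rw [cc]
    split_ifs with h8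
    · exact joined_refl q P
    · have h9 : s (f' R) = 0 := by rw [hs, hf', hR]
      rw [h9, zero_smul, zero_sub, ← neg_smul]
      exact joined_smul q P (neg_ne_zero.2 fun h10 => h8 ⟨h9, h10⟩)
  have hcS : QuadraticMap.polar q S P = c • l := by rw [QuadraticMap.polar_comm, hc]
  have h7 : s (f' x) = d * c := by
    rw [hs, hf', hx, QuadraticMap.polar_smul_left, sub_eq_add_neg, ← neg_smul,
      QuadraticMap.polar_add_left, QuadraticMap.polar_smul_left, hPP, smul_zero, add_zero, hcS,
      map_smul, map_smul, hl, smul_eq_mul, smul_eq_mul, mul_one]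
  have h8 : q (f x) = (-(d * d * (g S / g P) * c)) • l := by
    rw [hx, QuadraticMap.map_smul, sub_eq_add_neg, ← neg_smul, QuadraticMap.map_add q,
      QuadraticMap.map_smul, qP, qS, smul_zero, add_zero, zero_add,
      QuadraticMap.polar_smul_right, hcS, smul_smul, smul_smul]
    congr 1
    ring
  have h9 : tf q e ((f' x : U) : V) = -(d * d * (g S / g P) * c) := by
    rw [tf, hf', h8, map_smul, hl, smul_eq_mul, mul_one]
  have h10 : cc q P s e (f' x) = (d * d * c) • S := by
    rw [cc, if_neg, h7, h9, hf', hx]
    · module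
    · rintro ⟨h11, -⟩
      rw [h7] at h11
      exact mul_ne_zero hd0 hc0 h11
  rw [h10] at h5
  exact joined_trans h6 (joined_trans (joined_symm h5)
    (joined_symm (joined_smul q S (mul_ne_zero (mul_ne_zero hd0 hd0) hc0))))

/-- the dimension of the image of a submodule -/
theorem finrank_le_map {W : Type*} [AddCommGroup W] [Module M W] {V : Type*} [AddCommGroup V]
    [Module M V] [FiniteDimensional M V] (F : V →ₗ[M] W) (S : Submodule M V) :
    finrank M S ≤ finrank M (S.map F) + finrank M (LinearMap.ker F) := by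
  have h4 := LinearMap.finrank_range_add_finrank_ker (F.domRestrict S)
  have h5 : LinearMap.range (F.domRestrict S) = S.map F := by
    rw [LinearMap.range_domRestrict]
  obtain ⟨j, hj⟩ : ∃ j : LinearMap.ker (F.domRestrict S) →ₗ[M] LinearMap.ker F,
      ∀ x, ((j x : LinearMap.ker F) : V) = ((x : S) : V) :=
    ⟨((S.subtype).comp (LinearMap.ker (F.domRestrict S)).subtype).codRestrict (LinearMap.ker F)
      (fun x => x.2), fun x => rfl⟩
  have h6 : finrank M (LinearMap.ker (F.domRestrict S)) ≤ finrank M (LinearMap.ker F) := by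
    refine LinearMap.finrank_le_finrank_of_injective (f := j) fun a b hab => ?_
    refine Subtype.ext (Subtype.ext ?_)
    rw [← hj, ← hj, hab]
  rw [h5] at h4
  omega

/-- the rank of a restriction of a bilinear form -/
theorem rank_restrict [FiniteDimensional M V] [FiniteDimensional M V'] (b : V →ₗ[M] V →ₗ[M] M)
    (f : V' →ₗ[M] V) (hf : Function.Injective f) :
    finrank M (LinearMap.range b) + 2 * finrank M V' ≤
      finrank M (LinearMap.range (b.compl₁₂ f f)) + 2 * finrank M V := by
  have h1 : finrank M (LinearMap.range f) = finrank M V' := LinearMap.finrank_range_of_inj hf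
  have h2 := LinearMap.finrank_range_add_finrank_ker b
  -- the image of the range of `f`
  have h3 := finrank_le_map (M := M) b (LinearMap.range f)
  have h4 := finrank_le_map (M := M) (W := Module.Dual M V') (V := Module.Dual M V) f.dualMap
    ((LinearMap.range f).map b)
  have h5 : ((LinearMap.range f).map b).map f.dualMap = LinearMap.range (b.compl₁₂ f f) := by
    ext z
    constructor
    · rintro ⟨_, ⟨_, ⟨u, rfl⟩, rfl⟩, rfl⟩
      exact ⟨u, rfl⟩
    · rintro ⟨u, rfl⟩
      exact ⟨b (f u), ⟨f u, ⟨u, rfl⟩, rfl⟩, rfl⟩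
  have h6 := LinearMap.finrank_range_add_finrank_ker (K := M) (V := Module.Dual M V)
    (V₂ := Module.Dual M V') f.dualMap
  have h7 : finrank M (LinearMap.range f.dualMap) = finrank M V' := by
    rw [LinearMap.finrank_range_dualMap_eq_finrank_range, h1]
  have h8 : finrank M (Module.Dual M V) = finrank M V := Subspace.dual_finrank_eq
  rw [h5] at h4
  have h9 : finrank M ((LinearMap.range f).map b) ≤ finrank M (LinearMap.range (b.compl₁₂ f f)) +
      finrank M (LinearMap.ker f.dualMap) := h4
  omega

/-- the rank of a restriction to a complement of a vector in the radical -/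
theorem rank_restrict' [FiniteDimensional M V] [FiniteDimensional M V']
    (b : V →ₗ[M] V →ₗ[M] M) (f : V' →ₗ[M] V) (hf : Function.Injective f) (p : V)
    (hp : p ∉ LinearMap.range f) (h1 : b p p = 0) (h2 : ∀ u, b p (f u) = 0)
    (h3 : ∀ u, b (f u) p = 0) :
    finrank M (LinearMap.range b) + 2 * (finrank M V' + 1) ≤
      finrank M (LinearMap.range (b.compl₁₂ f f)) + 2 * finrank M V := by
  obtain ⟨F, hF⟩ : ∃ F : V' × M →ₗ[M] V, ∀ u, F u = f u.1 + u.2 • p :=
    ⟨(f.comp (LinearMap.fst M V' M)) + (LinearMap.snd M V' M).smulRight p, fun u => rfl⟩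
  have hinj : Function.Injective F := by
    rw [injective_iff_map_eq_zero]
    rintro ⟨u, t⟩ h
    rw [hF] at h
    simp only at h
    by_cases ht : t = 0
    · rw [ht, zero_smul, add_zero] at h
      rw [ht, (injective_iff_map_eq_zero f).1 hf u h]
      rfl
    · exfalso
      apply hp
      refine ⟨-(t⁻¹ • u), ?_⟩
      rw [map_neg, map_smul, ← smul_neg, eq_comm, eq_inv_smul_iff₀ ht]
      exact eq_neg_of_add_eq_zero_right h
  have h4 := rank_restrict b F hinj
  rw [Module.finrank_prod, Module.finrank_self] at h4
  have h5 : b.compl₁₂ F F = ((b.compl₁₂ f f).compl₁₂ (LinearMap.fst M V' M)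
      (LinearMap.fst M V' M)) := by
    refine LinearMap.ext fun x => LinearMap.ext fun y => ?_
    rw [LinearMap.compl₁₂_apply, LinearMap.compl₁₂_apply, LinearMap.compl₁₂_apply, hF, hF,
      map_add, map_add, map_smul, map_smul, LinearMap.add_apply, LinearMap.add_apply,
      LinearMap.smul_apply, LinearMap.smul_apply, h1, h2, h3]
    simp
  have h6 : finrank M (LinearMap.range (b.compl₁₂ F F)) ≤
      finrank M (LinearMap.range (b.compl₁₂ f f)) := by
    rw [h5]
    have h7 : LinearMap.range ((b.compl₁₂ f f).compl₁₂ (LinearMap.fst M V' M)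
        (LinearMap.fst M V' M)) ≤ (LinearMap.range (b.compl₁₂ f f)).map
          ((LinearMap.fst M V' M).dualMap) := by
      rintro _ ⟨x, rfl⟩
      exact ⟨b.compl₁₂ f f x.1, ⟨x.1, rfl⟩, rfl⟩
    refine (Submodule.finrank_mono (R := M) (M := Module.Dual M (V' × M)) h7).trans ?_
    exact Submodule.finrank_map_le (R := M) (M := Module.Dual M V')
      (M' := Module.Dual M (V' × M)) (LinearMap.fst M V' M).dualMap
      (LinearMap.range (b.compl₁₂ f f))
  omega

end alg

end Pool.Agent.Lib.MP_f80667_ag.Ch
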