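import Pool.Agent.Lib.MP_f80667_ag.ZC.LocB

/-!
# Local study of systems of quadratic forms over a complete field: zeros near a point
-/

set_option autoImplicit false

namespace Pool.Agent.Lib.MP_f80667_ag.Ch

open Module Filter Topology

universe u

variable {K : Type u} [NontriviallyNormedField K] [CompleteSpace K]

/-- zeros of a family of maps near a zero at which the partial derivative is onto -/
theorem exists_zero_param {L E F : Type u} [NormedAddCommGroup L] [NormedSpace K L]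
    [CompleteSpace L] [NormedAddCommGroup E] [NormedSpace K E] [CompleteSpace E]
    [NormedAddCommGroup F] [NormedSpace K F] [CompleteSpace F] {G : L × E → F} {l₀ : L} {x₀ : E}
    {G' : L × E →L[K] F} (hG : HasStrictFDerivAt G G' (l₀, x₀)) (h0 : G (l₀, x₀) = 0)
    (hs : ∀ y, ∃ dx, G' (0, dx) = y) {O : Set E} (hO : O ∈ 𝓝 x₀) :
    ∀ᶠ l in 𝓝 l₀, ∃ x ∈ O, G (l, x) = 0 := by
  have h1 : HasStrictFDerivAt (fun p : L × E => (p.1, G p))
      ((ContinuousLinearMap.fst K L E).prod G') (l₀, x₀) :=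
    hasStrictFDerivAt_fst.prodMk hG
  have h2 : LinearMap.range ((ContinuousLinearMap.fst K L E).prod G' : L × E →ₗ[K] L × F) = ⊤ := by
    rw [LinearMap.range_eq_top]
    rintro ⟨dl, y⟩
    obtain ⟨dx, hdx⟩ := hs (y - G' (dl, 0))
    refine ⟨(dl, dx), Prod.ext rfl ?_⟩
    show G' (dl, dx) = y
    have h3 : (dl, dx) = (dl, (0 : E)) + ((0 : L), dx) := by simp
    rw [h3, map_add, hdx, add_sub_cancel]
  have h3 := h1.map_nhds_eq_of_surj h2
  have h4 : {p : L × E | p.2 ∈ O} ∈ 𝓝 (l₀, x₀) := by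
    have : ContinuousAt (fun p : L × E => p.2) (l₀, x₀) := continuousAt_snd
    exact this hO
  have h5 : (fun p : L × E => (p.1, G p)) '' {p : L × E | p.2 ∈ O} ∈ 𝓝 (l₀, (0 : F)) := by
    have h6 := image_mem_map (m := fun p : L × E => (p.1, G p)) h4
    rw [h3] at h6
    simp only [h0] at h6
    exact h6
  have h6 : ContinuousAt (fun l : L => (l, (0 : F))) l₀ := by fun_prop
  filter_upwards [h6 h5] with l hl
  obtain ⟨⟨l', x⟩, hx, hlx⟩ := hl
  simp only [Prod.mk.injEq] at hlx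
  obtain ⟨rfl, hx0⟩ := hlx
  exact ⟨x, hx, hx0⟩

variable {E N : Type u} [NormedAddCommGroup E] [NormedSpace K E] [FiniteDimensional K E]
  [NormedAddCommGroup N] [NormedSpace K N] [FiniteDimensional K N]

/-- zeros of nearby systems on nearby hyperplanes, with parameters -/
theorem exists_zero_lin {L : Type u} [NormedAddCommGroup L] [NormedSpace K L] [CompleteSpace L]
    (l₀ : L) (a : L →L[K] (E →L[K] E →L[K] N)) (s : L →L[K] (E →L[K] K)) (x₀ : E)
    (h0 : a l₀ x₀ x₀ = 0) (h1 : s l₀ x₀ = 0)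
    (hs : ∀ (y : N) (c : K), ∃ x, a l₀ x₀ x + a l₀ x x₀ = y ∧ s l₀ x = c) {O : Set E}
    (hO : O ∈ 𝓝 x₀) : ∀ᶠ l : L in 𝓝 l₀, ∃ R ∈ O, s l R = 0 ∧ a l R R = 0 := by
  have cE : CompleteSpace E := FiniteDimensional.complete K E
  have cN : CompleteSpace N := FiniteDimensional.complete K N
  have d3 : HasStrictFDerivAt (𝕜 := K) (fun p : L × E => p.2) (ContinuousLinearMap.snd K L E)
    (l₀, x₀) := hasStrictFDerivAt_snd
  have d0 : HasStrictFDerivAt (𝕜 := K) (fun p : L × E => p.1) (ContinuousLinearMap.fst K L E)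
    (l₀, x₀) := hasStrictFDerivAt_fst
  have d1 := HasStrictFDerivAt.comp (𝕜 := K) (G := E →L[K] E →L[K] N) (l₀, x₀)
    (ContinuousLinearMap.hasStrictFDerivAt a) d0
  have d2 := HasStrictFDerivAt.comp (𝕜 := K) (G := E →L[K] K) (l₀, x₀)
    (ContinuousLinearMap.hasStrictFDerivAt s) d0
  have d4 := HasStrictFDerivAt.clm_apply (𝕜 := K) (G := E) (H := E →L[K] N) d1 d3
  have d4' := d4.clm_apply d3
  have d5 := d2.clm_apply d3
  have d6 := d5.prodMk d4'
  have h2 := exists_zero_param (K := K) d6 (by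
    simp only [Prod.mk_eq_zero]
    exact ⟨h1, h0⟩) (fun y => ?_) hO
  · filter_upwards [h2] with p hp
    obtain ⟨R, hR, hR0⟩ := hp
    simp only [Prod.mk_eq_zero] at hR0
    exact ⟨R, hR, hR0⟩
  · obtain ⟨x, hx1, hx2⟩ := hs y.2 y.1
    refine ⟨x, Prod.ext ?_ ?_⟩
    · rw [← hx2]
      simp
    · rw [← hx1]
      simp

/-- zeros of nearby systems on nearby hyperplanes -/
theorem exists_zero_hyp (C₀ : E →L[K] E →L[K] N) (s₀ : E →L[K] K) (x₀ : E) (h0 : qf C₀ x₀ = 0)
    (h1 : s₀ x₀ = 0) (hs : ∀ (y : N) (a : K), ∃ x, be C₀ x₀ x = y ∧ s₀ x = a) {O : Set E}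
    (hO : O ∈ 𝓝 x₀) :
    ∀ᶠ p : (E →L[K] E →L[K] N) × (E →L[K] K) in 𝓝 (C₀, s₀),
      ∃ R ∈ O, p.2 R = 0 ∧ qf p.1 R = 0 := by
  have cE : CompleteSpace E := FiniteDimensional.complete K E
  have cN : CompleteSpace N := FiniteDimensional.complete K N
  exact exists_zero_lin (K := K) (E := E) (N := N) (L := (E →L[K] E →L[K] N) × (E →L[K] K))
    (C₀, s₀) (ContinuousLinearMap.fst K (E →L[K] E →L[K] N) (E →L[K] K))
    (ContinuousLinearMap.snd K (E →L[K] E →L[K] N) (E →L[K] K)) x₀ h0 h1 hs hO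

/-- zeros of nearby systems, with parameters -/
theorem exists_zero_lin' {L : Type u} [NormedAddCommGroup L] [NormedSpace K L] [CompleteSpace L]
    (l₀ : L) (a : L →L[K] (E →L[K] E →L[K] N)) (x₀ : E)
    (h0 : a l₀ x₀ x₀ = 0)
    (hs : ∀ (y : N), ∃ x, a l₀ x₀ x + a l₀ x x₀ = y) {O : Set E}
    (hO : O ∈ 𝓝 x₀) : ∀ᶠ l : L in 𝓝 l₀, ∃ R ∈ O, a l R R = 0 := by
  have cE : CompleteSpace E := FiniteDimensional.complete K E
  have cN : CompleteSpace N := FiniteDimensional.complete K N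
  have d3 : HasStrictFDerivAt (𝕜 := K) (fun p : L × E => p.2) (ContinuousLinearMap.snd K L E)
    (l₀, x₀) := hasStrictFDerivAt_snd
  have d0 : HasStrictFDerivAt (𝕜 := K) (fun p : L × E => p.1) (ContinuousLinearMap.fst K L E)
    (l₀, x₀) := hasStrictFDerivAt_fst
  have d1 := HasStrictFDerivAt.comp (𝕜 := K) (G := E →L[K] E →L[K] N) (l₀, x₀)
    (ContinuousLinearMap.hasStrictFDerivAt a) d0
  have d4 := HasStrictFDerivAt.clm_apply (𝕜 := K) (G := E) (H := E →L[K] N) d1 d3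
  have d4' := d4.clm_apply d3
  refine exists_zero_param (K := K) d4' h0 (fun y => ?_) hO
  obtain ⟨x, hx1⟩ := hs y
  refine ⟨x, ?_⟩
  rw [← hx1]
  simp

/-- zeros of nearby systems -/
theorem exists_zero_near (C₀ : E →L[K] E →L[K] N) (x₀ : E) (h0 : qf C₀ x₀ = 0)
    (hs : Function.Surjective (be C₀ x₀)) {O : Set E} (hO : O ∈ 𝓝 x₀) :
    ∀ᶠ C : E →L[K] E →L[K] N in 𝓝 C₀, ∃ R ∈ O, qf C R = 0 := by
  have cE : CompleteSpace E := FiniteDimensional.complete K E
  have cN : CompleteSpace N := FiniteDimensional.complete K N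
  exact exists_zero_lin' (K := K) (E := E) (N := N) (L := (E →L[K] E →L[K] N))
    C₀ (ContinuousLinearMap.id K (E →L[K] E →L[K] N)) x₀ h0 (fun y => hs y) hO

/-- the approach to a zero `P` in a tangent direction `v` -/
theorem exists_arc (B : E →L[K] E →L[K] N) (P v w₀ : E)
    (hs : Function.Surjective (be B P)) (hw : qf B v + be B P w₀ = 0) {O : Set E}
    (hO : O ∈ 𝓝 w₀) :
    ∀ᶠ ε : K in 𝓝 0, ∃ w ∈ O, qf B v + be B P w + ε • be B v w + (ε * ε) • qf B w = 0 := by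
  have cE : CompleteSpace E := FiniteDimensional.complete K E
  have cN : CompleteSpace N := FiniteDimensional.complete K N
  have d3 : HasStrictFDerivAt (𝕜 := K) (fun p : K × E => p.2) (ContinuousLinearMap.snd K K E)
    (0, w₀) := hasStrictFDerivAt_snd
  have d0 : HasStrictFDerivAt (𝕜 := K) (fun p : K × E => p.1) (ContinuousLinearMap.fst K K E)
    (0, w₀) := hasStrictFDerivAt_fst
  have d1 := HasStrictFDerivAt.comp (𝕜 := K) (G := N) (0, w₀)
    (ContinuousLinearMap.hasStrictFDerivAt (be B P)) d3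
  have d2 := HasStrictFDerivAt.comp (𝕜 := K) (G := N) (0, w₀)
    (ContinuousLinearMap.hasStrictFDerivAt (be B v)) d3
  have d4 := HasStrictFDerivAt.comp (𝕜 := K) (G := E →L[K] N) (0, w₀)
    (ContinuousLinearMap.hasStrictFDerivAt B) d3
  have d5 := d4.clm_apply d3
  have d6 := ((d1.const_add (qf B v)).add (d0.smul d2)).add ((d0.mul d0).smul d5)
  refine exists_zero_param (K := K) d6 ?_ (fun y => ?_) hO
  · show qf B v + be B P w₀ + (0 : K) • be B v w₀ + ((0 : K) * 0) • B w₀ w₀ = 0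
    rw [zero_smul, mul_zero, zero_smul, add_zero, add_zero, hw]
  · obtain ⟨x, hx1⟩ := hs y
    refine ⟨x, ?_⟩
    rw [← hx1]
    simp

end Pool.Agent.Lib.MP_f80667_ag.Ch
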