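import Pool.Agent.Lib.MP_f80667_ag.ZC.LocC

/-!
# Local study of systems of quadratic forms over a complete field: the projection from a point
-/

set_option autoImplicit false

namespace Pool.Agent.Lib.MP_f80667_ag.Ch

open Module Filter Topology

universe u

/-- the rank needed for the local theorem: `0, 3, 6, 10, 16, 24, ...` -/
def cr : ℕ → ℕ
  | 0 => 0
  | 1 => 3
  | r + 2 => max (3 * (r + 2)) (cr (r + 1) + 2 * (r + 1))

/-- the local theorem for `r` forms -/
def LocP (K : Type u) [NontriviallyNormedField K] [CompleteSpace K] (r : ℕ) : Prop :=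
  ∀ (E N : Type u) [NormedAddCommGroup E] [NormedSpace K E] [FiniteDimensional K E]
    [NormedAddCommGroup N] [NormedSpace K N] [FiniteDimensional K N] (B : E →L[K] E →L[K] N)
    (P : E), finrank K N = r → (∀ mu : N →ₗ[K] K, mu ≠ 0 → cr r ≤ rk B mu) → P ≠ 0 →
    qf B P = 0 → Function.Surjective (be B P) →
    ∀ᶠ t : (E →L[K] E →L[K] N) × (E × E) in 𝓝 (B, (P, P)), qf t.1 t.2.1 = 0 →
      qf t.1 t.2.2 = 0 → Joined (qf t.1) t.2.1 t.2.2

variable {K : Type u} [NontriviallyNormedField K] [CompleteSpace K]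
  {E N : Type u} [NormedAddCommGroup E] [NormedSpace K E] [FiniteDimensional K E]
  [NormedAddCommGroup N] [NormedSpace K N] [FiniteDimensional K N]

section frame

/-- the projection to the kernel of `e` along `l` -/
noncomputable def prj (e : N →L[K] K) (l : N) (h : e l = 1) :
    N →L[K] LinearMap.ker (e : N →ₗ[K] K) :=
  (ContinuousLinearMap.id K N - e.smulRight l).codRestrict _ (fun y => by
    rw [LinearMap.mem_ker]
    show e (y - e y • l) = 0
    rw [map_sub, map_smul, h, smul_eq_mul, mul_one, sub_self])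

omit [CompleteSpace K] [FiniteDimensional K N] in
theorem prj_coe (e : N →L[K] K) (l : N) (h : e l = 1) (y : N) :
    ((prj e l h y : LinearMap.ker (e : N →ₗ[K] K)) : N) = y - e y • l := rfl

omit [CompleteSpace K] [FiniteDimensional K N] in
theorem prj_self (e : N →L[K] K) (l : N) (h : e l = 1) : prj e l h l = 0 := by
  refine Subtype.ext ?_
  rw [prj_coe, h, one_smul, sub_self]
  rfl

omit [CompleteSpace K] [FiniteDimensional K N] in
theorem prj_ker (e : N →L[K] K) (l : N) (h : e l = 1) (y : LinearMap.ker (e : N →ₗ[K] K)) :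
    prj e l h (y : N) = y := by
  refine Subtype.ext ?_
  have h1 : e (y : N) = 0 := y.2
  rw [prj_coe, h1, zero_smul, sub_zero]

/-- the projection to the kernel of `e` along `l'` (if `e l' = 1`) -/
noncomputable def psi (e : N →L[K] K) (l : N) (h : e l = 1) (l' : N) :
    N →L[K] LinearMap.ker (e : N →ₗ[K] K) :=
  prj e l h - e.smulRight (prj e l h l')

omit [CompleteSpace K] [FiniteDimensional K N] in
theorem psi_apply (e : N →L[K] K) (l : N) (h : e l = 1) (l' y : N) :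
    psi e l h l' y = prj e l h y - e y • prj e l h l' := rfl

omit [CompleteSpace K] [FiniteDimensional K N] in
theorem psi_coe (e : N →L[K] K) (l : N) (h : e l = 1) {l' : N} (h' : e l' = 1) (y : N) :
    ((psi e l h l' y : LinearMap.ker (e : N →ₗ[K] K)) : N) = y - e y • l' := by
  rw [psi_apply, Submodule.coe_sub, Submodule.coe_smul, prj_coe, prj_coe, h']
  module

omit [CompleteSpace K] [FiniteDimensional K N] in
theorem psi_zero (e : N →L[K] K) (l : N) (h : e l = 1) {l' : N} (h' : e l' = 1) (y : N) :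
    psi e l h l' y = 0 ↔ y = e y • l' := by
  rw [← sub_eq_zero (b := e y • l'), ← psi_coe e l h h', Submodule.coe_eq_zero]

omit [CompleteSpace K] [FiniteDimensional K N] in
theorem psi_self (e : N →L[K] K) (l : N) (h : e l = 1) : psi e l h l = prj e l h := by
  ext y
  rw [psi_apply, prj_self, smul_zero, sub_zero]

omit [CompleteSpace K] [FiniteDimensional K N] in
theorem continuous_psi (e : N →L[K] K) (l : N) (h : e l = 1) : Continuous (psi e l h) := by
  have h1 : Continuous fun l' : N => e.smulRight (prj e l h l') := by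
    have h2 : (fun l' : N => e.smulRight (prj e l h l')) = fun l' =>
        ContinuousLinearMap.smulRightL K N (LinearMap.ker (e : N →ₗ[K] K)) e (prj e l h l') := rfl
    rw [h2]
    fun_prop
  exact continuous_const.sub h1

end frame

/-- near a zero `P₀` in a tangent direction `v` the projection from a zero `P` gives chains from `P`
to zeros in the direction `v` -/
theorem gamma [CharZero K] (r : ℕ) (ih : LocP K r) (B₀ : E →L[K] E →L[K] N) (P₀ v : E)
    (g : E →L[K] K) (e : N →L[K] K) (hgP : g P₀ = 1) (hgv : g v = 0) (hPv : be B₀ P₀ v = 0)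
    (hqP : qf B₀ P₀ = 0) (hs : Function.Surjective (be B₀ P₀))
    (hv : ∀ y, ∃ x, be B₀ P₀ x = 0 ∧ g x = 0 ∧ be B₀ v x = y) (he : e (qf B₀ v) = 1)
    (hN : finrank K N = r + 1) (hrk : ∀ mu : N →ₗ[K] K, mu ≠ 0 → cr r + 2 * r ≤ rk B₀ mu) :
    ∀ᶠ t : ((E →L[K] E →L[K] N) × (E × N)) × E in 𝓝 ((B₀, (P₀, qf B₀ v)), v),
      ∀ (S : E) (c d : K), qf t.1.1 t.1.2.1 = 0 → qf t.1.1 S = 0 → e t.1.2.2 = 1 →
        be t.1.1 t.1.2.1 S = c • t.1.2.2 → c ≠ 0 → d ≠ 0 →
        t.2 = d • (S - (g S / g t.1.2.1) • t.1.2.1) → Joined (qf t.1.1) t.1.2.1 S := by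
  have cE : CompleteSpace E := FiniteDimensional.complete K E
  have cN : CompleteSpace N := FiniteDimensional.complete K N
  obtain ⟨l₀, hl₀⟩ : ∃ l₀, l₀ = qf B₀ v := ⟨_, rfl⟩
  rw [← hl₀] at he ⊢
  have hPP : be B₀ P₀ P₀ = 0 := by rw [be_self, hqP, smul_zero]
  -- the space `U₀`
  obtain ⟨La, hLa⟩ : ∃ La : E →L[K] LinearMap.ker (e : N →ₗ[K] K) × K,
      ∀ x, La x = (prj e l₀ he (be B₀ P₀ x), g x) :=
    ⟨((prj e l₀ he).comp (be B₀ P₀)).prod g, fun x => rfl⟩
  obtain ⟨U, hU⟩ : ∃ U : Submodule K E,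
      U = LinearMap.ker (La : E →ₗ[K] LinearMap.ker (e : N →ₗ[K] K) × K) := ⟨_, rfl⟩
  have hmem : ∀ x : E, x ∈ U ↔ prj e l₀ he (be B₀ P₀ x) = 0 ∧ g x = 0 := by
    intro x
    rw [hU, LinearMap.mem_ker, ContinuousLinearMap.coe_coe, hLa, Prod.mk_eq_zero]
  have hLaU : ∀ u : U, La (u : E) = 0 := by
    intro u
    have h1 := (hmem (u : E)).1 u.2
    rw [hLa, h1.1, h1.2]
    rfl
  have hLas : Function.Surjective La := by
    rintro ⟨y, a⟩
    obtain ⟨x, hx⟩ := hs (y : N)
    refine ⟨x + (a - g x) • P₀, ?_⟩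
    have h1 : be B₀ P₀ (x + (a - g x) • P₀) = (y : N) := by
      rw [map_add, map_smul, hPP, hx, smul_zero, add_zero]
    have h2 : g (x + (a - g x) • P₀) = a := by
      rw [map_add, map_smul, hgP, smul_eq_mul, mul_one, add_sub_cancel]
    rw [hLa, h1, h2, prj_ker]
  obtain ⟨p₀, hp₀⟩ : ∃ p₀ : E →L[K] U, ∀ u : U, p₀ u = u := by
    obtain ⟨p, hp⟩ := LinearMap.exists_leftInverse_of_injective U.subtype
      (Submodule.ker_subtype U)
    refine ⟨LinearMap.toContinuousLinearMap p, fun u => ?_⟩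
    have := LinearMap.congr_fun hp u
    exact this
  have hfin : finrank K U + (r + 1) = finrank K E := by
    have h1 := LinearMap.finrank_range_add_finrank_ker
      (La : E →ₗ[K] LinearMap.ker (e : N →ₗ[K] K) × K)
    have h2 : LinearMap.range (La : E →ₗ[K] LinearMap.ker (e : N →ₗ[K] K) × K) = ⊤ :=
      LinearMap.range_eq_top.2 hLas
    have h3 := LinearMap.finrank_range_add_finrank_ker (e : N →ₗ[K] K)
    have h4 : LinearMap.range (e : N →ₗ[K] K) = ⊤ := by
      rw [LinearMap.range_eq_top]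
      intro a
      refine ⟨a • l₀, ?_⟩
      rw [ContinuousLinearMap.coe_coe, map_smul, he, smul_eq_mul, mul_one]
    rw [h4, finrank_top, Module.finrank_self] at h3
    rw [h2, finrank_top, Module.finrank_prod, Module.finrank_self, ← hU] at h1
    omega
  have hfinN : finrank K (LinearMap.ker (e : N →ₗ[K] K)) = r := by
    have h3 := LinearMap.finrank_range_add_finrank_ker (e : N →ₗ[K] K)
    have h4 : LinearMap.range (e : N →ₗ[K] K) = ⊤ := by
      rw [LinearMap.range_eq_top]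
      intro a
      refine ⟨a • l₀, ?_⟩
      rw [ContinuousLinearMap.coe_coe, map_smul, he, smul_eq_mul, mul_one]
    rw [h4, finrank_top, Module.finrank_self] at h3
    omega
  -- the frame
  obtain ⟨Th, hTh⟩ : ∃ Th : (E →L[K] E →L[K] N) × (E × N) →
      (E →L[K] U × (LinearMap.ker (e : N →ₗ[K] K) × K)),
      ∀ t, Th t = p₀.prod (((psi e l₀ he t.2.2).comp (be t.1 t.2.1)).prod g) :=
    ⟨_, fun t => rfl⟩
  have hThx : ∀ t x, Th t x = (p₀ x, (psi e l₀ he t.2.2 (be t.1 t.2.1 x), g x)) := by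
    intro t x
    rw [hTh]
    rfl
  have hpsic : Continuous fun t : (E →L[K] E →L[K] N) × (E × N) => psi e l₀ he t.2.2 :=
    (continuous_psi e l₀ he).comp (continuous_snd.comp continuous_snd)
  have hThc : Continuous Th := by
    rw [continuous_clm_apply]
    intro x
    simp only [hThx, be_apply]
    fun_prop
  obtain ⟨Te, hTe⟩ : ∃ Te : E ≃L[K] U × (LinearMap.ker (e : N →ₗ[K] K) × K),
      (Te : E →L[K] U × (LinearMap.ker (e : N →ₗ[K] K) × K)) = Th (B₀, (P₀, l₀)) := by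
    have hb : Function.Bijective (Th (B₀, (P₀, l₀))) := by
      constructor
      · rw [injective_iff_map_eq_zero]
        intro x hx
        rw [hThx] at hx
        simp only [Prod.mk_eq_zero] at hx
        obtain ⟨h1, h2, h3⟩ := hx
        rw [psi_self] at h2
        have h4 : x ∈ U := (hmem x).2 ⟨h2, h3⟩
        have h5 := hp₀ ⟨x, h4⟩
        simp only at h5
        rw [h1] at h5
        exact (congrArg Subtype.val h5).symm
      · rintro ⟨u, y⟩
        obtain ⟨x, hx⟩ := hLas y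
        refine ⟨x + ((u : E) - ((p₀ x : U) : E)), ?_⟩
        rw [hThx]
        have h1 : p₀ (x + ((u : E) - ((p₀ x : U) : E))) = u := by
          rw [map_add, map_sub, hp₀, hp₀, add_sub_cancel]
        have h2 : La (x + ((u : E) - ((p₀ x : U) : E))) = y := by
          have h3 : La (u : E) = 0 := hLaU u
          have h4 : La ((p₀ x : U) : E) = 0 := hLaU (p₀ x)
          rw [map_add, map_sub, h3, h4, sub_zero, add_zero, hx]
        rw [h1]
        refine Prod.ext rfl ?_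
        rw [← h2, hLa, psi_self]
    refine ⟨(LinearEquiv.ofBijective ((Th (B₀, (P₀, l₀)) :
      E →L[K] U × (LinearMap.ker (e : N →ₗ[K] K) × K)) :
      E →ₗ[K] U × (LinearMap.ker (e : N →ₗ[K] K) × K)) hb).toContinuousLinearEquiv, ?_⟩
    refine ContinuousLinearMap.ext fun x => ?_
    rfl
  -- the graph
  obtain ⟨ph, hph⟩ : ∃ ph : (E →L[K] E →L[K] N) × (E × N) → (U →L[K] E),
      ∀ t, ph t = (ContinuousLinearMap.inverse (Th t)).comp
        (ContinuousLinearMap.inl K U (LinearMap.ker (e : N →ₗ[K] K) × K)) := ⟨_, fun t => rfl⟩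
  have hphx : ∀ t u, ph t u = ContinuousLinearMap.inverse (Th t)
      (u, (0 : LinearMap.ker (e : N →ₗ[K] K) × K)) := by
    intro t u
    rw [hph]
    rfl
  have hinv : ContinuousAt (fun t => ContinuousLinearMap.inverse (Th t)) (B₀, (P₀, l₀)) := by
    have h1 : ContinuousAt (ContinuousLinearMap.inverse :
        (E →L[K] U × (LinearMap.ker (e : N →ₗ[K] K) × K)) → _) (Th (B₀, (P₀, l₀))) := by
      rw [← hTe]
      exact (contDiffAt_map_inverse (n := 0) Te).continuousAt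
    exact ContinuousAt.comp (g := ContinuousLinearMap.inverse) (f := Th) h1 hThc.continuousAt
  have hphc : ContinuousAt ph (B₀, (P₀, l₀)) := by
    rw [continuousAt_clm_apply]
    intro u
    simp only [hphx]
    exact hinv.clm_apply continuousAt_const
  have hev : ∀ᶠ t in 𝓝 (B₀, (P₀, l₀)), ∃ e' : E ≃L[K] U × (LinearMap.ker (e : N →ₗ[K] K) × K),
      (e' : E →L[K] U × (LinearMap.ker (e : N →ₗ[K] K) × K)) = Th t := by
    have h1 := hThc.continuousAt (x := (B₀, (P₀, l₀)))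
    rw [ContinuousAt, ← hTe] at h1
    exact h1 (ContinuousLinearEquiv.nhds Te)
  have hphe : ∀ t, (∃ e' : E ≃L[K] U × (LinearMap.ker (e : N →ₗ[K] K) × K),
      (e' : E →L[K] U × (LinearMap.ker (e : N →ₗ[K] K) × K)) = Th t) →
      (∀ u, Th t (ph t u) = (u, 0)) ∧ ∀ x y, Th t x = (y, 0) → ph t y = x := by
    rintro t ⟨e', he'⟩
    have h1 : ∀ z, ContinuousLinearMap.inverse (Th t) z = e'.symm z := by
      intro z
      rw [← he', ContinuousLinearMap.inverse_equiv]
      rfl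
    constructor
    · intro u
      rw [hphx, h1, ← he']
      exact e'.apply_symm_apply _
    · intro x y hxy
      rw [hphx, h1, ← hxy, ← he']
      exact e'.symm_apply_apply _
  have hv0 : La v = 0 := by
    rw [hLa, hPv, hgv, map_zero]
    rfl
  have hvU : v ∈ U := by
    rw [hmem, hPv, map_zero]
    exact ⟨rfl, hgv⟩
  have hTh0 : ∀ u : U, Th (B₀, (P₀, l₀)) (u : E) = (u, 0) := by
    intro u
    have h1 := (hmem (u : E)).1 u.2
    rw [hThx, hp₀, psi_self, h1.1, h1.2]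
    rfl
  have hph0 : ∀ u : U, ph (B₀, (P₀, l₀)) u = u := by
    intro u
    exact (hphe _ ⟨Te, hTe⟩).2 _ _ (hTh0 u)
  -- the restricted system
  obtain ⟨Bt, hBt⟩ : ∃ Bt : (E →L[K] E →L[K] N) × (E × N) →
      (U →L[K] U →L[K] LinearMap.ker (e : N →ₗ[K] K)), ∀ t u u',
      Bt t u u' = psi e l₀ he t.2.2 (t.1 (ph t u) (ph t u')) :=
    ⟨fun t => (ContinuousLinearMap.compL K U N (LinearMap.ker (e : N →ₗ[K] K))
      (psi e l₀ he t.2.2)).comp (t.1.bilinearComp (ph t) (ph t)), fun t u u' => rfl⟩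
  have hBtc : ContinuousAt Bt (B₀, (P₀, l₀)) := by
    rw [continuousAt_clm_apply]
    intro u
    rw [continuousAt_clm_apply]
    intro u'
    simp only [hBt]
    exact hpsic.continuousAt.clm_apply ((continuousAt_fst.clm_apply
      (hphc.clm_apply continuousAt_const)).clm_apply (hphc.clm_apply continuousAt_const))
  obtain ⟨st, hst⟩ : ∃ st : (E →L[K] E →L[K] N) × (E × N) → (U →L[K] K), ∀ t u,
      st t u = e (be t.1 t.2.1 (ph t u)) :=
    ⟨fun t => (e.comp (be t.1 t.2.1)).comp (ph t), fun t u => rfl⟩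
  have hstc : ContinuousAt st (B₀, (P₀, l₀)) := by
    rw [continuousAt_clm_apply]
    intro u
    simp only [hst, be_apply]
    have h1 : ContinuousAt (fun t : (E →L[K] E →L[K] N) × (E × N) => t.2.1) (B₀, (P₀, l₀)) :=
      continuousAt_fst.comp continuousAt_snd
    have h2 : ContinuousAt (fun t : (E →L[K] E →L[K] N) × (E × N) => t.1) (B₀, (P₀, l₀)) :=
      continuousAt_fst
    have h3 : ContinuousAt (fun t : (E →L[K] E →L[K] N) × (E × N) => ph t u) (B₀, (P₀, l₀)) :=
      hphc.clm_apply continuousAt_const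
    exact e.continuous.continuousAt.comp (((h2.clm_apply h1).clm_apply h3).add
      ((h2.clm_apply h3).clm_apply h1))
  have hbBt : ∀ t u u', be (Bt t) u u' = psi e l₀ he t.2.2 (be t.1 (ph t u) (ph t u')) := by
    intro t u u'
    rw [be_apply, be_apply, hBt, hBt, map_add]
  have hqBt : ∀ t u, qf (Bt t) u = psi e l₀ he t.2.2 (qf t.1 (ph t u)) := by
    intro t u
    rw [qf_apply, qf_apply, hBt]
  -- the assumptions of the local theorem for `r` forms
  have hvne : (⟨v, hvU⟩ : U) ≠ 0 := by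
    intro h0
    have h1 : v = 0 := congrArg Subtype.val h0
    rw [hl₀, h1, QuadraticMap.map_zero, map_zero] at he
    exact zero_ne_one he
  have hqv : qf (Bt (B₀, (P₀, l₀))) ⟨v, hvU⟩ = 0 := by
    rw [hqBt, hph0]
    show psi e l₀ he l₀ (qf B₀ v) = 0
    rw [← hl₀, psi_self, prj_self]
  have hsv : Function.Surjective (be (Bt (B₀, (P₀, l₀))) ⟨v, hvU⟩) := by
    intro y
    obtain ⟨x, hx1, hx2, hx3⟩ := hv (y : N)
    have hxU : x ∈ U := by
      rw [hmem, hx1, map_zero]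
      exact ⟨rfl, hx2⟩
    refine ⟨⟨x, hxU⟩, ?_⟩
    rw [hbBt, hph0, hph0]
    show psi e l₀ he l₀ (be B₀ v x) = y
    rw [hx3, psi_self, prj_ker]
  have hrk' : ∀ mu : LinearMap.ker (e : N →ₗ[K] K) →ₗ[K] K, mu ≠ 0 →
      cr r ≤ rk (Bt (B₀, (P₀, l₀))) mu := by
    intro mu hmu
    obtain ⟨nu, hnu⟩ : ∃ nu : N →ₗ[K] K, ∀ y, nu y = mu (prj e l₀ he y) :=
      ⟨mu.comp (prj e l₀ he : N →ₗ[K] LinearMap.ker (e : N →ₗ[K] K)), fun y => rfl⟩
    have hnu0 : nu ≠ 0 := by
      rintro rfl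
      refine hmu (LinearMap.ext fun y => ?_)
      have h1 := hnu (y : N)
      rw [prj_ker] at h1
      exact h1.symm
    have h1 := hrk nu hnu0
    have h2 := rank_restrict' (M := K) (frm B₀ nu) U.subtype U.injective_subtype P₀
      (by
        rintro ⟨u, hu⟩
        have h3 := (hmem (u : E)).1 u.2
        have h4 : (u : E) = P₀ := hu
        rw [h4, hgP] at h3
        exact one_ne_zero h3.2)
      (by rw [frm_apply, hPP, map_zero])
      (by
        intro u
        have h3 := (hmem (u : E)).1 u.2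
        rw [frm_apply, hnu]
        show mu (prj e l₀ he (be B₀ P₀ (u : E))) = 0
        rw [h3.1, map_zero])
      (by
        intro u
        have h3 := (hmem (u : E)).1 u.2
        rw [frm_apply, hnu, be_comm]
        show mu (prj e l₀ he (be B₀ P₀ (u : E))) = 0
        rw [h3.1, map_zero])
    have h3 : (frm B₀ nu).compl₁₂ U.subtype U.subtype = frm (Bt (B₀, (P₀, l₀))) mu := by
      refine LinearMap.ext fun u => LinearMap.ext fun u' => ?_
      rw [LinearMap.compl₁₂_apply, frm_apply, frm_apply, hnu, hbBt, hph0, hph0]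
      show mu (prj e l₀ he (be B₀ (u : E) (u' : E))) = mu (psi e l₀ he l₀ (be B₀ (u : E) (u' : E)))
      rw [psi_self]
    rw [h3] at h2
    rw [rk] at h1 ⊢
    omega
  have hih := ih U (LinearMap.ker (e : N →ₗ[K] K)) (Bt (B₀, (P₀, l₀))) ⟨v, hvU⟩ hfinN hrk' hvne
    hqv hsv
  rw [nhds_prod_eq, nhds_prod_eq, Filter.eventually_prod_iff] at hih
  obtain ⟨pa, hpa, pb, hpb, hpab⟩ := hih
  rw [Filter.eventually_prod_iff] at hpb
  obtain ⟨pc, hpc, pd, hpd, hpcd⟩ := hpb
  -- the auxiliary zeros `R`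
  have hstR : ∀ (y : LinearMap.ker (e : N →ₗ[K] K)) (a : K), ∃ x,
      be (Bt (B₀, (P₀, l₀))) ⟨v, hvU⟩ x = y ∧ st (B₀, (P₀, l₀)) x = a := by
    intro y a
    obtain ⟨x₁, hx₁⟩ := hs (a • l₀)
    have h1 : be B₀ P₀ (x₁ - g x₁ • P₀) = a • l₀ := by
      rw [map_sub, map_smul, hPP, smul_zero, sub_zero, hx₁]
    have h2 : x₁ - g x₁ • P₀ ∈ U := by
      rw [hmem, h1, map_smul, prj_self, smul_zero, map_sub, map_smul, hgP, smul_eq_mul, mul_one,
        sub_self]
      exact ⟨rfl, rfl⟩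
    obtain ⟨x₂, hx₂⟩ := hv ((y - be (Bt (B₀, (P₀, l₀))) ⟨v, hvU⟩ ⟨x₁ - g x₁ • P₀, h2⟩ :
      LinearMap.ker (e : N →ₗ[K] K)) : N)
    have h3 : x₂ ∈ U := by
      rw [hmem, hx₂.1, map_zero]
      exact ⟨rfl, hx₂.2.1⟩
    have h4 : be (Bt (B₀, (P₀, l₀))) ⟨v, hvU⟩ ⟨x₂, h3⟩ =
        y - be (Bt (B₀, (P₀, l₀))) ⟨v, hvU⟩ ⟨x₁ - g x₁ • P₀, h2⟩ := by
      rw [hbBt _ _ ⟨x₂, h3⟩, hph0, hph0]
      show psi e l₀ he l₀ (be B₀ v x₂) = _
      rw [hx₂.2.2, psi_self, prj_ker]
    refine ⟨⟨x₁ - g x₁ • P₀, h2⟩ + ⟨x₂, h3⟩, ?_, ?_⟩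
    · rw [map_add, h4, add_sub_cancel]
    · rw [map_add, hst, hst, hph0, hph0]
      show e (be B₀ P₀ (x₁ - g x₁ • P₀)) + e (be B₀ P₀ x₂) = a
      rw [h1, hx₂.1, map_smul, he, map_zero, add_zero, smul_eq_mul, mul_one]
  have hst0 : st (B₀, (P₀, l₀)) ⟨v, hvU⟩ = 0 := by
    rw [hst, hph0]
    show e (be B₀ P₀ v) = 0
    rw [hPv, map_zero]
  have hR := exists_zero_hyp (Bt (B₀, (P₀, l₀))) (st (B₀, (P₀, l₀))) ⟨v, hvU⟩ hqv hst0 hstR
    (O := {x | pd x}) hpd
  have hR' : ∀ᶠ t in 𝓝 (B₀, (P₀, l₀)), ∃ R : U, pd R ∧ st t R = 0 ∧ qf (Bt t) R = 0 :=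
    (hBtc.prodMk hstc).eventually hR
  have hW : ∀ᶠ t in 𝓝 (B₀, (P₀, l₀)), pa (Bt t) := hBtc.eventually hpa
  have hgt : ∀ᶠ t : (E →L[K] E →L[K] N) × (E × N) in 𝓝 (B₀, (P₀, l₀)), g t.2.1 ≠ 0 := by
    have h1 : ContinuousAt (fun t : (E →L[K] E →L[K] N) × (E × N) => g t.2.1)
      (B₀, (P₀, l₀)) := by fun_prop
    refine h1.eventually_ne ?_
    show g P₀ ≠ 0
    rw [hgP]
    exact one_ne_zero
  have hpv : ∀ᶠ x : E in 𝓝 v, pc (p₀ x) := by
    have h1 : p₀ v = ⟨v, hvU⟩ := hp₀ ⟨v, hvU⟩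
    have h2 := p₀.continuous.continuousAt (x := v)
    rw [ContinuousAt, h1] at h2
    exact h2.eventually hpc
  rw [nhds_prod_eq]
  have hfin1 := (hev.and (hR'.and (hW.and hgt))).prod_mk hpv
  filter_upwards [hfin1] with t ht S c d hqP hqS hel hc hc0 hd0 hx
  obtain ⟨⟨hiso, ⟨R, hpR, hsR, hqR⟩, hpB, hgP'⟩, hpx⟩ := ht
  obtain ⟨t, x⟩ := t
  obtain ⟨B, P, l⟩ := t
  simp only at hqP hqS hel hc hx hiso hpR hsR hqR hpB hgP' hpx ⊢
  obtain ⟨hF1, hF2⟩ := hphe _ hiso
  have hF1' : ∀ u, p₀ (ph (B, (P, l)) u) = u ∧ psi e l₀ he l (be B P (ph (B, (P, l)) u)) = 0 ∧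
      g (ph (B, (P, l)) u) = 0 := by
    intro u
    have h1 := hF1 u
    rw [hThx] at h1
    have h2 := (Prod.mk.inj h1).2
    exact ⟨(Prod.mk.inj h1).1, (Prod.mk.inj h2).1, (Prod.mk.inj h2).2⟩
  have hbPP : be B P P = 0 := by rw [be_self, hqP, smul_zero]
  have hbx : be B P x = (d * c) • l := by
    rw [hx, map_smul, map_sub, map_smul, hbPP, smul_zero, sub_zero, hc, smul_smul]
  have hgx : g x = 0 := by
    rw [hx, map_smul, map_sub, map_smul, smul_eq_mul, smul_eq_mul, div_mul_cancel₀ _ hgP',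
      sub_self, mul_zero]
  have hThx' : Th (B, (P, l)) x = (p₀ x, 0) := by
    rw [hThx, hgx]
    refine Prod.ext rfl (Prod.ext ?_ rfl)
    show psi e l₀ he l (be B P x) = 0
    rw [psi_zero e l₀ he hel, hbx, map_smul, hel, smul_eq_mul, mul_one]
  have hphx' : ph (B, (P, l)) (p₀ x) = x := hF2 x _ hThx'
  have hqx : qf B x = (-(d * d * (g S / g P) * c)) • l := by
    have h1 : be B S P = c • l := by rw [be_comm, hc]
    have h2 : B S P + B P S = c • l := by rw [← be_apply, h1]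
    have h3 : B S S = 0 := hqS
    have h4 : B P P = 0 := hqP
    rw [qf_apply, hx]
    simp only [map_smul, map_sub, _root_.sub_apply, _root_.smul_apply, h3, h4]
    have h5 : B P S = c • l - B S P := by rw [← h2]; abel
    rw [h5]
    module
  have hqx' : qf (Bt (B, (P, l))) (p₀ x) = 0 := by
    rw [hqBt, hphx']
    show psi e l₀ he l (qf B x) = 0
    rw [psi_zero e l₀ he hel, hqx, map_smul, hel, smul_eq_mul, mul_one]
  have hJ : Joined (qf (Bt (B, (P, l)))) (p₀ x) R := by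
    have h1 := hpab hpB (hpcd hpx hpR)
    exact h1 hqx' hqR
  refine joined_of_proj (M := K) (q := qf B) (P := P) (S := S) hqP hqS (e := (e : N →ₗ[K] K))
    (g := (g : E →ₗ[K] K)) (l := l) hel hc0 hd0 (by rw [polar_qf, hc]) hgP'
    (q' := qf (Bt (B, (P, l)))) (f := (ph (B, (P, l)) : U →ₗ[K] E)) ?_ ?_ ?_ ?_ (x := p₀ x)
    (R := R) ?_ ?_ hJ
  · intro u u' huu
    have h1 : ph (B, (P, l)) u = ph (B, (P, l)) u' := huu
    rw [← (hF1' u).1, h1, (hF1' u').1]
  · intro u
    have h1 := (hF1' u).2.1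
    rw [psi_zero e l₀ he hel] at h1
    rw [polar_qf, be_comm]
    exact h1
  · intro u
    exact (hF1' u).2.2
  · intro u hu
    rw [hqBt] at hu
    exact (psi_zero e l₀ he hel _).1 hu
  · exact hphx'.trans hx
  · rw [polar_qf, be_comm]
    have h1 := hsR
    rw [hst] at h1
    exact h1

end Pool.Agent.Lib.MP_f80667_ag.Ch
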