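import Pool.Agent.Lib.MP_f80667_ag.ZC.LocD

/-!
# Local study of systems of quadratic forms over a complete field: the local theorem

If `B : E × E → N` has all its nonzero components of large rank and `P` is a zero of `q(x) = B(x, x)`
at which `q` is a submersion, then the zeros of `q` near `P` can be joined by chains of rational
curves; also for the systems near `B`.
-/

set_option autoImplicit false

namespace Pool.Agent.Lib.MP_f80667_ag.Ch

open Module Filter Topology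

universe u

variable {K : Type u} [NontriviallyNormedField K] [CompleteSpace K]
  {E N : Type u} [NormedAddCommGroup E] [NormedSpace K E] [FiniteDimensional K E]
  [NormedAddCommGroup N] [NormedSpace K N] [FiniteDimensional K N]

/-- a functional which is `1` at a nonzero vector -/
theorem exists_fun_one {P : E} (hP : P ≠ 0) : ∃ g : E →L[K] K, g P = 1 := by
  obtain ⟨f, hf⟩ : ∃ f : Module.Dual K E, f P ≠ 0 := by
    by_contra hcon
    push Not at hcon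
    exact hP ((Module.forall_dual_apply_eq_zero_iff K P).1 hcon)
  refine ⟨LinearMap.toContinuousLinearMap ((f P)⁻¹ • f), ?_⟩
  show (f P)⁻¹ • f P = 1
  rw [smul_eq_mul, inv_mul_cancel₀ hf]

/-- the good tangent direction at `P₀` -/
theorem exists_dir [CharZero K] (r : ℕ) (B₀ : E →L[K] E →L[K] N) (P₀ : E)
    (g : E →L[K] K) (hgP : g P₀ = 1) (hqP : qf B₀ P₀ = 0) (hs : Function.Surjective (be B₀ P₀))
    (hN : finrank K N = r + 1) (hrk : ∀ mu : N →ₗ[K] K, mu ≠ 0 → 3 * (r + 1) ≤ rk B₀ mu) :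
    ∃ v, g v = 0 ∧ be B₀ P₀ v = 0 ∧ qf B₀ v ≠ 0 ∧
      ∀ y, ∃ x, be B₀ P₀ x = 0 ∧ g x = 0 ∧ be B₀ v x = y := by
  have hPP : be B₀ P₀ P₀ = 0 := by rw [be_self, hqP, smul_zero]
  obtain ⟨T, hT⟩ : ∃ T : Submodule K E, T = LinearMap.ker (be B₀ P₀ : E →ₗ[K] N) := ⟨_, rfl⟩
  have hmem : ∀ x : E, x ∈ T ↔ be B₀ P₀ x = 0 := by
    intro x
    rw [hT, LinearMap.mem_ker, ContinuousLinearMap.coe_coe]
  have hfin : finrank K T + (r + 1) = finrank K E := by
    have h1 := LinearMap.finrank_range_add_finrank_ker (be B₀ P₀ : E →ₗ[K] N)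
    have h2 : LinearMap.range (be B₀ P₀ : E →ₗ[K] N) = ⊤ := LinearMap.range_eq_top.2 hs
    rw [h2, finrank_top, ← hT, hN] at h1
    omega
  obtain ⟨BT, hBT⟩ : ∃ BT : T →L[K] T →L[K] N, ∀ x y, BT x y = B₀ x y :=
    ⟨B₀.bilinearComp T.subtypeL T.subtypeL, fun x y => rfl⟩
  have hbBT : ∀ x y : T, be BT x y = be B₀ x y := by
    intro x y
    rw [be_apply, be_apply, hBT, hBT]
  have hrT : ∀ mu : N →ₗ[K] K, mu ≠ 0 → finrank K N ≤ rk BT mu := by
    intro mu hmu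
    have h1 := hrk mu hmu
    have h2 := rank_restrict (M := K) (frm B₀ mu) T.subtype T.injective_subtype
    have h3 : (frm B₀ mu).compl₁₂ T.subtype T.subtype = frm BT mu := by
      refine LinearMap.ext fun u => LinearMap.ext fun u' => ?_
      rw [LinearMap.compl₁₂_apply, frm_apply, frm_apply, hbBT]
      rfl
    rw [h3] at h2
    rw [rk] at h1 ⊢
    omega
  obtain ⟨v, hv, hqv⟩ := exists_good BT (by omega) hrT
  have hPv : be B₀ P₀ (v : E) = 0 := (hmem _).1 v.2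
  have h0 : be B₀ P₀ ((v : E) - g v • P₀) = 0 := by
    rw [map_sub, map_smul, hPP, smul_zero, sub_zero, hPv]
  refine ⟨(v : E) - g v • P₀, ?_, h0, ?_, fun y => ?_⟩
  · rw [map_sub, map_smul, hgP, smul_eq_mul, mul_one, sub_self]
  · intro h1
    apply hqv
    have h2 : qf BT v = qf B₀ v := by rw [qf_apply, qf_apply, hBT]
    rw [h2]
    have h3 : B₀ P₀ (v : E) + B₀ (v : E) P₀ = 0 := by rw [← be_apply, hPv]
    have h4 : B₀ P₀ P₀ = 0 := hqP
    rw [qf_apply] at h1 ⊢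
    simp only [map_smul, map_sub, _root_.sub_apply, _root_.smul_apply, h4] at h1
    have h5 : B₀ P₀ (v : E) = - B₀ (v : E) P₀ := eq_neg_of_add_eq_zero_left h3
    rw [h5] at h1
    rw [← h1]
    module
  · obtain ⟨x, hx⟩ := hv y
    have hPx : be B₀ P₀ (x : E) = 0 := (hmem _).1 x.2
    refine ⟨(x : E) - g x • P₀, ?_, ?_, ?_⟩
    · rw [map_sub, map_smul, hPP, smul_zero, sub_zero, hPx]
    · rw [map_sub, map_smul, hgP, smul_eq_mul, mul_one, sub_self]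
    · rw [map_sub, map_smul, be_comm B₀ _ P₀, h0, smul_zero, sub_zero, be_comm, map_sub, map_smul,
        be_comm B₀ _ P₀, hPx, smul_zero, sub_zero, be_comm, ← hbBT, hx]

/-- the zeros near `P₀` of the systems near `B₀` are joined to the zeros near a zero `S₀` -/
theorem exists_mid [CharZero K] (r : ℕ) (hr : 1 ≤ r) (ih : LocP K r) (B₀ : E →L[K] E →L[K] N)
    (P₀ : E) (hP : P₀ ≠ 0) (hqP : qf B₀ P₀ = 0) (hs : Function.Surjective (be B₀ P₀))
    (hN : finrank K N = r + 1) (hrk : ∀ mu : N →ₗ[K] K, mu ≠ 0 → cr (r + 1) ≤ rk B₀ mu) :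
    ∃ S₀, qf B₀ S₀ = 0 ∧ Function.Surjective (be B₀ S₀) ∧
      ∀ᶠ t : (E →L[K] E →L[K] N) × (E × E) in 𝓝 (B₀, (P₀, S₀)), qf t.1 t.2.1 = 0 →
        qf t.1 t.2.2 = 0 → Joined (qf t.1) t.2.1 t.2.2 := by
  have cE : CompleteSpace E := FiniteDimensional.complete K E
  have cN : CompleteSpace N := FiniteDimensional.complete K N
  obtain ⟨s, rfl⟩ : ∃ s, r = s + 1 := ⟨r - 1, by omega⟩
  have hPP : be B₀ P₀ P₀ = 0 := by rw [be_self, hqP, smul_zero]
  obtain ⟨g, hgP⟩ := exists_fun_one (K := K) hP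
  have hrk1 : ∀ mu : N →ₗ[K] K, mu ≠ 0 → 3 * (s + 1 + 1) ≤ rk B₀ mu := fun mu hmu =>
    le_trans (le_max_left _ _) (hrk mu hmu)
  have hrk2 : ∀ mu : N →ₗ[K] K, mu ≠ 0 → cr (s + 1) + 2 * (s + 1) ≤ rk B₀ mu := fun mu hmu =>
    le_trans (le_max_right _ _) (hrk mu hmu)
  obtain ⟨v, hgv, hPv, hqv, hv⟩ := exists_dir (s + 1) B₀ P₀ g hgP hqP hs hN hrk1
  obtain ⟨e, he⟩ := exists_fun_one (K := K) hqv
  have hv0 : v ≠ 0 := by
    rintro rfl
    exact hqv (QuadraticMap.map_zero _)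
  obtain ⟨h, hhv⟩ := exists_fun_one (K := K) hv0
  have hgam := gamma (s + 1) ih B₀ P₀ v g e hgP hgv hPv hqP hs hv he hN hrk2
  obtain ⟨w₀, hw₀⟩ := hs (-(qf B₀ v))
  have harc := fun (O : Set E) (hO : O ∈ 𝓝 w₀) => exists_arc B₀ P₀ v w₀ hs
    (by rw [hw₀, add_neg_cancel]) hO
  -- the point at parameter `ε` and its data
  obtain ⟨x, hx⟩ : ∃ x : K × E → E, ∀ p, x p = v + p.1 • (p.2 - g p.2 • P₀) := ⟨_, fun p => rfl⟩
  obtain ⟨W, hW⟩ : ∃ W : K × E → ((E →L[K] E →L[K] N) × (E × N)) × E, ∀ p,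
      W p = ((B₀, (P₀, (e (be B₀ P₀ p.2))⁻¹ • be B₀ P₀ p.2)), (h (x p))⁻¹ • x p) :=
    ⟨_, fun p => rfl⟩
  have hew₀ : e (be B₀ P₀ w₀) = -1 := by rw [hw₀, map_neg, he]
  have hx0 : x (0, w₀) = v := by rw [hx, zero_smul, add_zero]
  have hW0 : W (0, w₀) = ((B₀, (P₀, qf B₀ v)), v) := by
    rw [hW, hx0, hhv, inv_one, one_smul, hew₀, hw₀, smul_neg, inv_neg, inv_one, neg_smul, one_smul,
      neg_neg]
  have hxc : Continuous x := by
    have h1 : x = fun p => v + p.1 • (p.2 - g p.2 • P₀) := funext hx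
    rw [h1]
    fun_prop
  have hWc : ContinuousAt W (0, w₀) := by
    have h1 : W = fun p => ((B₀, (P₀, (e (be B₀ P₀ p.2))⁻¹ • be B₀ P₀ p.2)),
      (h (x p))⁻¹ • x p) := funext hW
    rw [h1]
    have h2 : ContinuousAt (fun p : K × E => e (be B₀ P₀ p.2)) (0, w₀) := by fun_prop
    have h3 : ContinuousAt (fun p : K × E => be B₀ P₀ p.2) (0, w₀) := by fun_prop
    have h4 : ContinuousAt (fun p : K × E => h (x p)) (0, w₀) := by fun_prop
    have h5 : ContinuousAt (fun p : K × E => (e (be B₀ P₀ p.2))⁻¹ • be B₀ P₀ p.2) (0, w₀) := by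
      refine (h2.inv₀ ?_).smul h3
      rw [hew₀]
      exact neg_ne_zero.2 one_ne_zero
    have h6 : ContinuousAt (fun p : K × E => (h (x p))⁻¹ • x p) (0, w₀) := by
      refine (h4.inv₀ ?_).smul hxc.continuousAt
      rw [hx0, hhv]
      exact one_ne_zero
    exact (continuousAt_const.prodMk (continuousAt_const.prodMk h5)).prodMk h6
  obtain ⟨Gam, hGam⟩ : ∃ Gam : ((E →L[K] E →L[K] N) × (E × N)) × E → Prop, ∀ t, Gam t ↔
      ∀ (S : E) (c d : K), qf t.1.1 t.1.2.1 = 0 → qf t.1.1 S = 0 → e t.1.2.2 = 1 →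
        be t.1.1 t.1.2.1 S = c • t.1.2.2 → c ≠ 0 → d ≠ 0 →
        t.2 = d • (S - (g S / g t.1.2.1) • t.1.2.1) → Joined (qf t.1.1) t.1.2.1 S :=
    ⟨_, fun t => Iff.rfl⟩
  simp only [← hGam] at hgam
  have hW1 : ∀ᶠ p in 𝓝 ((0 : K), w₀), ∀ᶠ t in 𝓝 (W p), Gam t := by
    have h1 := eventually_eventually_nhds.2 hgam
    rw [← hW0] at h1
    exact hWc.eventually h1
  have hSc : Continuous fun p : K × E => P₀ + p.1 • v + (p.1 * p.1) • p.2 := by fun_prop
  have hs1 : ∀ᶠ p in 𝓝 ((0 : K), w₀),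
      Function.Surjective (be B₀ (P₀ + p.1 • v + (p.1 * p.1) • p.2)) := by
    refine eventually_surj (K := K) (N := N) ((be B₀).continuous.comp hSc).continuousAt ?_
    show Function.Surjective (be B₀ (P₀ + (0 : K) • v + ((0 : K) * 0) • w₀))
    rw [zero_smul, mul_zero, zero_smul, add_zero, add_zero]
    exact hs
  have he1 : ∀ᶠ p in 𝓝 ((0 : K), w₀), e (be B₀ P₀ p.2) ≠ 0 := by
    have h2 : ContinuousAt (fun p : K × E => e (be B₀ P₀ p.2)) (0, w₀) := by fun_prop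
    refine h2.eventually_ne ?_
    rw [hew₀]
    exact neg_ne_zero.2 one_ne_zero
  have hh1 : ∀ᶠ p in 𝓝 ((0 : K), w₀), h (x p) ≠ 0 := by
    have h4 : ContinuousAt (fun p : K × E => h (x p)) (0, w₀) := by fun_prop
    refine h4.eventually_ne ?_
    rw [hx0, hhv]
    exact one_ne_zero
  have hall := hW1.and (hs1.and (he1.and hh1))
  rw [nhds_prod_eq, Filter.eventually_prod_iff] at hall
  obtain ⟨pa, hpa, pb, hpb, hpab⟩ := hall
  have hne : ∃ᶠ ε : K in 𝓝 0, ε ≠ 0 := by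
    have h1 : (𝓝[≠] (0 : K)).NeBot := inferInstance
    have h2 := (self_mem_nhdsWithin (a := (0 : K)) (s := {0}ᶜ))
    exact (Filter.Eventually.frequently (f := 𝓝[≠] (0 : K)) (p := fun ε => ε ≠ 0) h2).filter_mono
      nhdsWithin_le_nhds
  obtain ⟨ε, hε0, hεa, w, hwO, hwε⟩ := (hne.and_eventually (hpa.and (harc {w | pb w} hpb))).exists
  obtain ⟨hGW, hsS, hew, hhx⟩ := hpab hεa hwO
  simp only at hsS hew hhx
  obtain ⟨S₀, hS₀⟩ : ∃ S₀, S₀ = P₀ + ε • v + (ε * ε) • w := ⟨_, rfl⟩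
  rw [← hS₀] at hsS
  have hbP : be B₀ P₀ S₀ = (ε * ε) • be B₀ P₀ w := by
    rw [hS₀, map_add, map_add, map_smul, map_smul, hPP, hPv, smul_zero, zero_add, zero_add]
  have hqS : qf B₀ S₀ = 0 := by
    have h1 : B₀ P₀ P₀ = 0 := hqP
    have h2 : B₀ P₀ v = - B₀ v P₀ := by
      rw [be_apply] at hPv
      exact eq_neg_of_add_eq_zero_left hPv
    rw [qf_apply, qf_apply, be_apply, be_apply] at hwε
    have h3 : B₀ v v = -((B₀ P₀ w + B₀ w P₀) + ε • (B₀ v w + B₀ w v) + (ε * ε) • B₀ w w) := by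
      rw [eq_neg_iff_add_eq_zero, ← hwε]
      abel
    rw [qf_apply, hS₀]
    simp only [map_add, map_smul, _root_.add_apply, _root_.smul_apply, h1, h2, h3]
    module
  have hS1 : S₀ - (g S₀ / g P₀) • P₀ = ε • x (ε, w) := by
    rw [hx, hS₀, map_add, map_add, map_smul, map_smul, hgP, hgv, div_one, smul_eq_mul, smul_eq_mul,
      mul_zero, add_zero]
    module
  have hεe : e (be B₀ P₀ S₀) ≠ 0 := by
    rw [hbP, map_smul, smul_eq_mul]
    exact mul_ne_zero (mul_ne_zero hε0 hε0) hew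
  have hεh : h (S₀ - (g S₀ / g P₀) • P₀) ≠ 0 := by
    rw [hS1, map_smul, smul_eq_mul]
    exact mul_ne_zero hε0 hhx
  obtain ⟨D, hD⟩ : ∃ D : (E →L[K] E →L[K] N) × (E × E) → ((E →L[K] E →L[K] N) × (E × N)) × E,
      ∀ t, D t = ((t.1, (t.2.1, (e (be t.1 t.2.1 t.2.2))⁻¹ • be t.1 t.2.1 t.2.2)),
        (h (t.2.2 - (g t.2.2 / g t.2.1) • t.2.1))⁻¹ •
          (t.2.2 - (g t.2.2 / g t.2.1) • t.2.1)) := ⟨_, fun t => rfl⟩
  have hD0 : D (B₀, (P₀, S₀)) = W (ε, w) := by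
    rw [hD, hW]
    refine Prod.ext (Prod.ext rfl (Prod.ext rfl ?_)) ?_
    · show (e (be B₀ P₀ S₀))⁻¹ • be B₀ P₀ S₀ = (e (be B₀ P₀ w))⁻¹ • be B₀ P₀ w
      rw [hbP, map_smul, smul_smul, smul_eq_mul, mul_inv, mul_right_comm,
        inv_mul_cancel₀ (mul_ne_zero hε0 hε0), one_mul]
    · show (h (S₀ - (g S₀ / g P₀) • P₀))⁻¹ • (S₀ - (g S₀ / g P₀) • P₀) = _
      rw [hS1, map_smul, smul_smul, smul_eq_mul, mul_inv, mul_right_comm, inv_mul_cancel₀ hε0,
        one_mul]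
  have c1 : ContinuousAt (fun t : (E →L[K] E →L[K] N) × (E × E) => be t.1 t.2.1 t.2.2)
      (B₀, (P₀, S₀)) := by
    simp only [be_apply]
    fun_prop
  have c2 : ContinuousAt (fun t : (E →L[K] E →L[K] N) × (E × E) =>
      t.2.2 - (g t.2.2 / g t.2.1) • t.2.1) (B₀, (P₀, S₀)) := by
    have d1 : ContinuousAt (fun t : (E →L[K] E →L[K] N) × (E × E) => g t.2.2)
      (B₀, (P₀, S₀)) := by fun_prop
    have d2 : ContinuousAt (fun t : (E →L[K] E →L[K] N) × (E × E) => g t.2.1)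
      (B₀, (P₀, S₀)) := by fun_prop
    have d3 : ContinuousAt (fun t : (E →L[K] E →L[K] N) × (E × E) => t.2.1)
      (B₀, (P₀, S₀)) := by fun_prop
    have d4 : ContinuousAt (fun t : (E →L[K] E →L[K] N) × (E × E) => t.2.2)
      (B₀, (P₀, S₀)) := by fun_prop
    refine d4.sub ((d1.div d2 ?_).smul d3)
    show g P₀ ≠ 0
    rw [hgP]
    exact one_ne_zero
  have c3 : ContinuousAt (fun t : (E →L[K] E →L[K] N) × (E × E) => e (be t.1 t.2.1 t.2.2))
      (B₀, (P₀, S₀)) := e.continuous.continuousAt.comp c1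
  have c4 : ContinuousAt (fun t : (E →L[K] E →L[K] N) × (E × E) =>
      h (t.2.2 - (g t.2.2 / g t.2.1) • t.2.1)) (B₀, (P₀, S₀)) :=
    h.continuous.continuousAt.comp c2
  have cD : ContinuousAt D (B₀, (P₀, S₀)) := by
    have h1 : D = fun t => ((t.1, (t.2.1, (e (be t.1 t.2.1 t.2.2))⁻¹ • be t.1 t.2.1 t.2.2)),
        (h (t.2.2 - (g t.2.2 / g t.2.1) • t.2.1))⁻¹ •
          (t.2.2 - (g t.2.2 / g t.2.1) • t.2.1)) := funext hD
    rw [h1]
    exact (continuousAt_fst.prodMk ((continuousAt_fst.comp continuousAt_snd).prodMk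
      ((c3.inv₀ hεe).smul c1))).prodMk ((c4.inv₀ hεh).smul c2)
  have hGD : ∀ᶠ t in 𝓝 (B₀, (P₀, S₀)), Gam (D t) := by
    rw [← hD0] at hGW
    exact cD.eventually hGW
  refine ⟨S₀, hqS, hsS, ?_⟩
  filter_upwards [hGD, c3.eventually_ne hεe, c4.eventually_ne hεh] with t ht h1 h2 hq1 hq2
  rw [hGam, hD] at ht
  refine ht t.2.2 (e (be t.1 t.2.1 t.2.2)) (h (t.2.2 - (g t.2.2 / g t.2.1) • t.2.1))⁻¹ hq1 hq2
    ?_ ?_ h1 (inv_ne_zero h2) rfl
  · show e ((e (be t.1 t.2.1 t.2.2))⁻¹ • be t.1 t.2.1 t.2.2) = 1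
    rw [map_smul, smul_eq_mul, inv_mul_cancel₀ h1]
  · show be t.1 t.2.1 t.2.2 = e (be t.1 t.2.1 t.2.2) • (e (be t.1 t.2.1 t.2.2))⁻¹ •
      be t.1 t.2.1 t.2.2
    rw [smul_smul, mul_inv_cancel₀ h1, one_smul]

/-- the inductive step of the local theorem -/
theorem loc_step [CharZero K] (r : ℕ) (hr : 1 ≤ r) (ih : LocP K r) : LocP K (r + 1) := by
  intro E N _ _ _ _ _ _ B₀ P₀ hN hrk hP hqP hs
  obtain ⟨S₀, hqS, hsS, hev⟩ := exists_mid r hr ih B₀ P₀ hP hqP hs hN hrk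
  rw [nhds_prod_eq, nhds_prod_eq, Filter.eventually_prod_iff] at hev
  obtain ⟨pa, hpa, pb, hpb, hpab⟩ := hev
  rw [Filter.eventually_prod_iff] at hpb
  obtain ⟨pc, hpc, pd, hpd, hpcd⟩ := hpb
  have h1 := exists_zero_near B₀ S₀ hqS hsS (O := {x | pd x}) hpd
  rw [nhds_prod_eq, nhds_prod_eq]
  filter_upwards [(hpa.and h1).prod_mk (hpc.prod_mk hpc)] with t ht hq1 hq2
  obtain ⟨⟨hB, S, hSd, hqS'⟩, hP1, hP2⟩ := ht
  have h2 := hpab hB (hpcd hP1 hSd) hq1 hqS'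
  have h3 := hpab hB (hpcd hP2 hSd) hq2 hqS'
  exact joined_trans h2 (joined_symm h3)

omit [CompleteSpace K] in
/-- the local theorem if all nonzero zeros are joined -/
theorem loc_base (r : ℕ) (hb : ∀ s, s < r → HBq K s) (B₀ : E →L[K] E →L[K] N) (P₀ : E)
    (hN : finrank K N = r) (hE : bnd r ≤ finrank K E) (hP : P₀ ≠ 0) :
    ∀ᶠ t : (E →L[K] E →L[K] N) × (E × E) in 𝓝 (B₀, (P₀, P₀)), qf t.1 t.2.1 = 0 →
      qf t.1 t.2.2 = 0 → Joined (qf t.1) t.2.1 t.2.2 := by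
  have h1 : ∀ᶠ P in 𝓝 P₀, P ≠ 0 := isOpen_ne.mem_nhds hP
  rw [nhds_prod_eq, nhds_prod_eq]
  filter_upwards [(Filter.Eventually.of_forall (fun _ => trivial) :
    ∀ᶠ _ : E →L[K] E →L[K] N in 𝓝 B₀, True).prod_mk (h1.prod_mk h1)] with t ht hq1 hq2
  exact joined (M := K) r hb E N (qf t.1) hN hE t.2.1 t.2.2 ht.2.1 ht.2.2 hq1 hq2

/-- the local theorem for `r = 0` -/
theorem loc_zero : LocP K 0 := by
  intro E N _ _ _ _ _ _ B₀ P₀ hN hrk hP hqP hs
  refine loc_base 0 (fun s hs => absurd hs (Nat.not_lt_zero s)) B₀ P₀ hN ?_ hP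
  have h1 : Nontrivial E := ⟨⟨P₀, 0, hP⟩⟩
  exact Module.finrank_pos

/-- the local theorem for `r = 1` -/
theorem loc_one : LocP K 1 := by
  intro E N _ _ _ _ _ _ B₀ P₀ hN hrk hP hqP hs
  refine loc_base 1 (fun s hs => ?_) B₀ P₀ hN ?_ hP
  · obtain rfl : s = 0 := by omega
    intro V N' _ _ _ _ _ _ q hN' hV
    have h1 : Nontrivial V := Module.nontrivial_of_finrank_pos (R := K) (by omega)
    obtain ⟨x, hx⟩ := exists_ne (0 : V)
    have h2 := Module.finrank_zero_iff.1 hN'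
    exact ⟨x, hx, Subsingleton.elim _ _⟩
  · obtain ⟨mu, hmu⟩ : ∃ mu : N →ₗ[K] K, mu ≠ 0 := by
      have h1 : Nontrivial N := Module.nontrivial_of_finrank_pos (R := K) (by omega)
      obtain ⟨y, hy⟩ := exists_ne (0 : N)
      obtain ⟨f, hf⟩ := exists_fun_one (K := K) hy
      refine ⟨(f : N →ₗ[K] K), fun h0 => ?_⟩
      have h2 : f y = 0 := LinearMap.congr_fun h0 y
      rw [h2] at hf
      exact zero_ne_one hf
    have h1 := hrk mu hmu
    have h2 : rk B₀ mu ≤ finrank K E := LinearMap.finrank_range_le _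
    have h3 : cr 1 = 3 := rfl
    have h4 : bnd 1 = 3 := rfl
    omega

/-- **the local theorem** -/
theorem loc [CharZero K] (r : ℕ) : LocP K r := by
  rcases Nat.eq_zero_or_pos r with rfl | hr
  · exact loc_zero
  · induction r, hr using Nat.le_induction with
    | base => exact loc_one
    | succ r hr ih => exact loc_step r hr ih

end Pool.Agent.Lib.MP_f80667_ag.Ch
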