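import Pool.Agent.Lib.MP_f80667_ag.ZC.LocE
import Pool.Agent.Lib.MP_f80667_ag.ZC.RkC
import Pool.Agent.Lib.MP_f80667_ag.ZC.Conn

/-!
# The real places: smooth complete intersections of quadrics whose real points are connected
-/

set_option autoImplicit false

open Module Filter Topology

namespace ZC

open Pool.Agent.Lib.MP_f80667_ag

universe u

section rank

variable {k : Type u} [Field k] {n r : ℕ}

/-- the rank of a component of the polar form -/
theorem rank_frm {F : (Fin n → k) →ₗ[k] (Fin n → k) →ₗ[k] k} {M : Matrix (Fin n) (Fin n) k}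
    (h : ∀ x y, F x y = y ⬝ᵥ M.mulVec x) : finrank k (LinearMap.range F) = M.rank := by
  have h1 : LinearMap.ker F = LinearMap.ker M.mulVecLin := by
    ext x
    rw [LinearMap.mem_ker, LinearMap.mem_ker, Matrix.mulVecLin_apply]
    constructor
    · intro hx
      refine dotProduct_eq_zero _ fun y => ?_
      rw [dotProduct_comm, ← h, hx]
      rfl
    · intro hx
      refine LinearMap.ext fun y => ?_
      rw [h, hx, dotProduct_zero]
      rfl
  have h2 := LinearMap.finrank_range_add_finrank_ker F
  have h3 := LinearMap.finrank_range_add_finrank_ker M.mulVecLin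
  have h4 : M.rank = finrank k (LinearMap.range M.mulVecLin) := rfl
  rw [h1] at h2
  omega

end rank

variable {k Ω : Type u} [NontriviallyNormedField k] [CompleteSpace k] [CharZero k] [Field Ω]
  [IsAlgClosed Ω] [Algebra k Ω] {n r : ℕ}

/-- near a point of a smooth complete intersection of `r` quadrics in `n ≥ cr r + r - 1` variables
all points over the complete field `k` are joined -/
theorem loc_qm (A : Fin r → Matrix (Fin n) (Fin n) k) (hn : Ch.cr r + (r - 1) ≤ n)
    (hsm : ∀ x : Fin n → Ω, x ≠ 0 → (∀ i, qv (A i) x = 0) →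
      ∀ c : Fin r → Ω, (∀ y, ∑ i, c i * bv (A i) x y = 0) → c = 0)
    (P : Fin n → k) (hP : P ≠ 0) (hq : qm k A P = 0) :
    ∀ᶠ Q in 𝓝 P, qm k A Q = 0 → Ch.Joined (qm k A) P Q := by
  obtain ⟨B, hB⟩ : ∃ B : (Fin n → k) →L[k] (Fin n → k) →L[k] (Fin r → k),
      ∀ x y i, B x y i = ∑ a, ∑ b, A i a b * (x a * y b) := by
    refine ⟨LinearMap.toContinuousBilinearMap (LinearMap.mk₂ k
      (fun x y i => ∑ a, ∑ b, A i a b * (x a * y b)) ?_ ?_ ?_ ?_), fun x y i => rfl⟩
    · intro x x' y
      funext i
      simp only [Pi.add_apply, add_mul, mul_add, Finset.sum_add_distrib]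
    · intro c x y
      funext i
      simp only [Pi.smul_apply, smul_eq_mul, Finset.mul_sum]
      exact Finset.sum_congr rfl fun a _ => Finset.sum_congr rfl fun b _ => by ring
    · intro x y y'
      funext i
      simp only [Pi.add_apply, mul_add, Finset.sum_add_distrib]
    · intro c x y
      funext i
      simp only [Pi.smul_apply, smul_eq_mul, Finset.mul_sum]
      exact Finset.sum_congr rfl fun a _ => Finset.sum_congr rfl fun b _ => by ring
  have hqf : Ch.qf B = qm k A := by
    refine QuadraticMap.ext fun x => funext fun i => ?_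
    rw [Ch.qf_apply, hB]
    rfl
  have hbe : ∀ x y i, Ch.be B x y i = bv (A i) x y := by
    intro x y i
    rw [Ch.be_apply, Pi.add_apply, hB, hB, bv, ← Finset.sum_add_distrib]
    refine Finset.sum_congr rfl fun a _ => ?_
    rw [← Finset.sum_add_distrib]
    refine Finset.sum_congr rfl fun b _ => ?_
    show A i a b * (x a * y b) + A i a b * (y a * x b) = A i a b * (x a * y b + y a * x b)
    rw [mul_add]
  have hmu : ∀ (mu : (Fin r → k) →ₗ[k] k) (y : Fin r → k),
      mu y = ∑ i, mu (Pi.single i 1) * y i := by
    intro mu y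
    conv_lhs => rw [← Finset.univ_sum_single y, map_sum]
    refine Finset.sum_congr rfl fun i _ => ?_
    have h1 : (Pi.single i (y i) : Fin r → k) = y i • Pi.single i 1 := by
      rw [← Pi.single_smul, smul_eq_mul, mul_one]
    rw [h1, map_smul, smul_eq_mul, mul_comm]
  have hmu0 : ∀ mu : (Fin r → k) →ₗ[k] k, (fun i => mu (Pi.single i 1)) = 0 → mu = 0 := by
    intro mu h0
    refine LinearMap.ext fun y => ?_
    rw [hmu]
    exact Finset.sum_eq_zero fun i _ => by rw [show mu (Pi.single i 1) = 0 from congrFun h0 i,
      zero_mul]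
  -- the ranks
  have hrk : ∀ mu : (Fin r → k) →ₗ[k] k, mu ≠ 0 → Ch.cr r ≤ Ch.rk B mu := by
    intro mu hmu'
    have h1 := le_rank_add A hsm (fun i => mu (Pi.single i 1)) fun h0 => hmu' (hmu0 mu h0)
    have h2 : Ch.rk B mu = (∑ i, mu (Pi.single i 1) • (A i + (A i).transpose)).rank := by
      refine rank_frm fun x y => ?_
      rw [Ch.frm_apply, hmu]
      have h3 : ∀ i, bv (A i) x y = y ⬝ᵥ (A i + (A i).transpose).mulVec x := by
        intro i
        have h4 : ∀ a b, (A i + (A i).transpose) a b = A i a b + A i b a := fun a b => rfl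
        simp only [bv, Matrix.mulVec, dotProduct, h4, mul_add, add_mul, Finset.sum_add_distrib,
          Finset.mul_sum]
        rw [add_comm]
        refine congrArg₂ (· + ·) ?_ ?_
        · exact Finset.sum_congr rfl fun a _ => Finset.sum_congr rfl fun b _ => by
            show A i a b * (y a * x b) = y a * (A i a b * x b)
            ring
        · rw [Finset.sum_comm]
          exact Finset.sum_congr rfl fun a _ => Finset.sum_congr rfl fun b _ => by
            show A i b a * (x b * y a) = y a * (A i b a * x b)
            ring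
      rw [Matrix.sum_mulVec, dotProduct_sum]
      refine Finset.sum_congr rfl fun i _ => ?_
      rw [hbe, h3, Matrix.smul_mulVec, dotProduct_smul, smul_eq_mul]
    omega
  -- smoothness
  have hs : Function.Surjective (Ch.be B P) := by
    have h1 : LinearMap.range (Ch.be B P : (Fin n → k) →ₗ[k] (Fin r → k)) = ⊤ := by
      by_contra hcon
      obtain ⟨mu, hmu1, hmu2⟩ := Submodule.exists_le_ker_of_lt_top _ (lt_top_iff_ne_top.2 hcon)
      have h3 : ∀ y, ∑ i, mu (Pi.single i 1) * bv (A i) P y = 0 := by
        intro y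
        have h4 : mu (Ch.be B P y) = 0 := hmu2 ⟨y, rfl⟩
        rw [hmu] at h4
        rw [← h4]
        exact Finset.sum_congr rfl fun i _ => by rw [hbe]
      obtain ⟨L, hL⟩ : ∃ L : (Fin n → Ω) →ₗ[Ω] Ω, ∀ y, L y =
          ∑ i, algebraMap k Ω (mu (Pi.single i 1)) * bv (A i) (fun j => algebraMap k Ω (P j)) y :=
        ⟨{ toFun := fun y => ∑ i, algebraMap k Ω (mu (Pi.single i 1)) *
            bv (A i) (fun j => algebraMap k Ω (P j)) y
           map_add' := fun y z => by
            simp only [bv_add_right, mul_add, Finset.sum_add_distrib]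
           map_smul' := fun c y => by
            simp only [bv_smul_right, Finset.mul_sum, RingHom.id_apply, smul_eq_mul]
            exact Finset.sum_congr rfl fun i _ => by ring }, fun y => rfl⟩
      have hL0 : L = 0 := by
        refine LinearMap.pi_ext fun j c => ?_
        have h5 : (Pi.single j c : Fin n → Ω) = c • fun l => algebraMap k Ω
            ((Pi.single j 1 : Fin n → k) l) := by
          funext l
          rw [Pi.smul_apply, Pi.single_apply, Pi.single_apply]
          by_cases h6 : l = j
          · rw [if_pos h6, if_pos h6, map_one, smul_eq_mul, mul_one]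
          · rw [if_neg h6, if_neg h6, map_zero, smul_zero]
        have h6 : L (fun l => algebraMap k Ω ((Pi.single j 1 : Fin n → k) l)) = 0 := by
          rw [hL]
          have h7 := congrArg (algebraMap k Ω) (h3 (Pi.single j 1))
          rw [map_zero, map_sum] at h7
          rw [← h7]
          exact Finset.sum_congr rfl fun i _ => by rw [map_mul, bv_map]
        rw [h5, map_smul, h6, smul_zero]
        rfl
      have h8 := hsm (fun j => algebraMap k Ω (P j)) (fun h0 => hP (funext fun j =>
        (map_eq_zero (algebraMap k Ω)).1 (congrFun h0 j))) (fun i => by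
          rw [qv_map, show qv (A i) P = 0 from congrFun hq i, map_zero])
        (fun i => algebraMap k Ω (mu (Pi.single i 1))) (fun y => by rw [← hL, hL0]; rfl)
      exact hmu1 (hmu0 mu (funext fun i => (map_eq_zero (algebraMap k Ω)).1 (congrFun h8 i)))
    exact LinearMap.range_eq_top.1 h1
  have h1 := Ch.loc (K := k) r (Fin n → k) (Fin r → k) B P (by simp) hrk hP (by rw [hqf]; exact hq)
    hs
  have h2 : Tendsto (fun Q : Fin n → k => (B, (P, Q))) (𝓝 P) (𝓝 (B, (P, P))) :=
    (continuous_const.prodMk (continuous_const.prodMk continuous_id)).tendsto P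
  filter_upwards [h2.eventually h1] with Q hQ hqQ
  rw [← hqf] at hq hqQ ⊢
  exact hQ hq hqQ

omit [CompleteSpace k] [CharZero k] [IsAlgClosed Ω] in
/-- the polar form and the partial derivatives -/
theorem sum_pderiv {f : MvPolynomial (Fin n) k} {A : Matrix (Fin n) (Fin n) k}
    (hA : f = ∑ a, ∑ b, MvPolynomial.C (A a b) * (MvPolynomial.X a * MvPolynomial.X b))
    (x : Fin n → Ω) (j : Fin n) :
    MvPolynomial.aeval x (MvPolynomial.pderiv j f) = bv A x (Pi.single j 1) := by
  rw [hA, bv]
  simp only [map_sum, map_mul, map_add, Derivation.leibniz, MvPolynomial.pderiv_C,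
    MvPolynomial.pderiv_X, smul_eq_mul, mul_zero, add_zero, MvPolynomial.aeval_C,
    MvPolynomial.aeval_X]
  refine Finset.sum_congr rfl fun a _ => Finset.sum_congr rfl fun b _ => ?_
  have h1 : ∀ a : Fin n, MvPolynomial.aeval x ((Pi.single j 1 : Fin n → MvPolynomial (Fin n) k)
      a) = (Pi.single j 1 : Fin n → Ω) a := by
    intro a
    rw [Pi.single_apply, Pi.single_apply]
    by_cases h2 : a = j
    · rw [if_pos h2, if_pos h2, map_one]
    · rw [if_neg h2, if_neg h2, map_zero]
  rw [h1, h1]
  ring

/-- the real place: a smooth complete intersection of quadrics whose real points are connected -/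
theorem F1bar_smooth [IsAlgClosure k Ω] (e : k ≃+* ℝ) (he : Continuous e)
    (he' : Continuous e.symm) (f : Fin r → MvPolynomial (Fin n) k)
    (hf : ∀ i, (f i).IsHomogeneous 2) (hn : Ch.cr r + (r - 1) ≤ n)
    (hsm : ∀ x : Fin n → Ω, x ≠ 0 → Zer f Ω x →
      LinearIndependent Ω fun i j => MvPolynomial.aeval x (MvPolynomial.pderiv j (f i)))
    (hconn : IsPreconnected ((fun (x : Fin n → k) (i j : Fin n) => x i * x j) ''
      {x | x ≠ 0 ∧ Zer f k x})) : Subsingleton (F1bar Ω f) := by
  choose A hA using fun i => exists_mat (f i) (hf i)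
  refine F1bar_conn e he he' f hf hA (fun P hP hq => ?_) hconn
  refine loc_qm (Ω := Ω) A hn (fun x hx hqx c hc => ?_) P hP hq
  have h1 := hsm x hx (fun i => by rw [aeval_eq_qv (hA i)]; exact hqx i)
  rw [Fintype.linearIndependent_iff] at h1
  refine funext fun i => h1 c (funext fun j => ?_) i
  rw [Finset.sum_apply, Pi.zero_apply, ← hc (Pi.single j 1)]
  refine Finset.sum_congr rfl fun i _ => ?_
  rw [Pi.smul_apply, smul_eq_mul, sum_pderiv (hA i)]

end ZC
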