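import Pool.Agent.Lib.MP_f80667_ag.ZC.Main
import Pool.Agent.Lib.MP_f80667_ag.ZC.JoinTr

/-! Zero-cycles of degree `0` on an intersection of `r` quadrics in `n ≥ bnd r` variables over a
good field are rationally equivalent to `0` (the version of `Main` with the bound of `Chain`). -/

open Polynomial
open scoped LinearAlgebra.Projectivization

namespace ZC

open Pool.Agent.Lib.MP_f80667_ag

universe u

variable {k Ω : Type u} [Field k] [Field Ω] [Algebra k Ω] [IsAlgClosure k Ω] [CharZero k] {n r : ℕ}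

/-- The statement which is proved by induction on the generators of the group of zero-cycles. -/
def St' (k : Type u) {Ω : Type u} [Field k] [Field Ω] [Algebra k Ω] {n : ℕ} {ι' : Type}
    (f : ι' → MvPolynomial (Fin n) k) (r : ℕ) (z : ℙ Ω (Fin n → Ω) →₀ ℤ) : Prop :=
  ∃ N : ℕ, N ≠ 0 ∧ ∀ (L : IntermediateField k Ω) (_ : FiniteDimensional k L),
    (Module.finrank k L).Coprime N →
    (∀ M : IntermediateField k Ω, FiniteDimensional k M → L ≤ M → ∀ s, s < r → Iso M s) →
    ∀ P0 : ℙ L (Fin n → L), Zer f L P0.rep →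
      (Module.finrank k L : ℤ) • z - deg Ω z • trPt k Ω P0 ∈ ratEq Ω f

variable {f : Fin r → MvPolynomial (Fin n) k}

theorem st_tr' (hf : ∀ i, (f i).IsHomogeneous 2) (hn : Ch.bnd r ≤ n)
    (K : IntermediateField k Ω) [FiniteDimensional k K] (y : ℙ K (Fin n → K))
    (hy : Zer f K y.rep) : St' k f r (trPt k Ω y) := by
  have : IsAlgClosed Ω := IsAlgClosure.isAlgClosed k
  have hKpos : Module.finrank k K ≠ 0 := Module.finrank_pos.ne'
  refine ⟨Module.finrank k K, hKpos, ?_⟩
  intro L hL hcop hIso P0 hP0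
  have hLpos : Module.finrank k L ≠ 0 := Module.finrank_pos.ne'
  set M := K ⊔ L with hM
  have hfd : FiniteDimensional k M := IntermediateField.finiteDimensional_sup K L
  have hch : CharZero M := charZero_of_injective_algebraMap (algebraMap k M).injective
  have hfin : Module.finrank k M = Module.finrank k K * Module.finrank k L :=
    (IntermediateField.LinearDisjoint.of_finrank_coprime hcop.symm).finrank_sup
  have hKM : K ≤ M := le_sup_left
  have hLM : L ≤ M := le_sup_right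
  set yM := mapPt (IntermediateField.inclusion hKM : K →+* M) y with hyM
  set PM := mapPt (IntermediateField.inclusion hLM : L →+* M) P0 with hPM
  have hyz : Zer f M yM.rep := (zer_mapPt hf (IntermediateField.inclusion hKM) y).2 hy
  have hPz : Zer f M PM.rep := (zer_mapPt hf (IntermediateField.inclusion hLM) P0).2 hP0
  have hj := join' (Ω := Ω) f hf hn (hIso M hfd hLM) yM.rep PM.rep yM.rep_nonzero PM.rep_nonzero
    hyz hPz
  rw [Projectivization.mk_rep, Projectivization.mk_rep] at hj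
  have h1 : trPt k Ω yM = Module.finrank k L • trPt k Ω y := by
    have h := trPt_le (Ω := Ω) hKM y
    rw [hfin, mul_smul] at h
    exact smul_right_injective _ hKpos h
  have h2 : trPt k Ω PM = Module.finrank k K • trPt k Ω P0 := by
    have h := trPt_le (Ω := Ω) hLM P0
    rw [hfin, mul_comm, mul_smul] at h
    exact smul_right_injective _ hLpos h
  rw [h1, h2] at hj
  rw [deg_trPt, natCast_zsmul, natCast_zsmul]
  exact hj

theorem st_all' (hf : ∀ i, (f i).IsHomogeneous 2) (hn : Ch.bnd r ≤ n)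
    (z : ℙ Ω (Fin n → Ω) →₀ ℤ) (hz : z ∈ cyc Ω f) : St' k f r z := by
  refine AddSubgroup.closure_induction (p := fun z _ => St' k f r z) ?_ ?_ ?_ ?_
    (mem_closure_tr hf z hz)
  · rintro t ⟨K, hK, y, hy, rfl⟩
    exact st_tr' hf hn K y hy
  · exact ⟨1, one_ne_zero, fun L _ _ _ P0 _ => by simp⟩
  · rintro a b _ _ ⟨N, hN, ha⟩ ⟨N', hN', hb⟩
    refine ⟨N * N', mul_ne_zero hN hN', ?_⟩
    intro L hL hcop hIso P0 hP0
    have h1 := ha L hL (hcop.coprime_dvd_right ⟨N', rfl⟩) hIso P0 hP0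
    have h2 := hb L hL (hcop.coprime_dvd_right ⟨N, mul_comm _ _⟩) hIso P0 hP0
    have h3 := add_mem h1 h2
    rw [smul_add, map_add, add_smul]
    convert h3 using 1
    abel
  · rintro a _ ⟨N, hN, ha⟩
    refine ⟨N, hN, ?_⟩
    intro L hL hcop hIso P0 hP0
    have h1 := neg_mem (ha L hL hcop hIso P0 hP0)
    rw [smul_neg, map_neg, neg_smul]
    convert h1 using 1
    abel

omit [CharZero k] in
theorem exists_pt' (hf : ∀ i, (f i).IsHomogeneous 2) {M : Type*} [Field M] [Algebra k M]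
    (hM : Iso M r) (hn : 4 * r < n) :
    ∃ P : ℙ M (Fin n → M), Zer f M P.rep := by
  choose A hA using fun i => exists_mat (f i) (hf i)
  obtain ⟨x, hx, hz⟩ := hM n hn (fun i => (A i).map (algebraMap k M))
  refine ⟨Projectivization.mk M x hx, zer_mk_rep hf hx ?_⟩
  intro i
  rw [aeval_eq_qv (hA i), qv_eq_dot]
  exact hz i

/-- Zero-cycles of degree `0` on an intersection of `r` quadrics in `P^(n-1)`, `n ≥ bnd r`,
`n > 4r`, over a good field are rationally equivalent to `0`. -/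
theorem mem_ratEq' (hf : ∀ i, (f i).IsHomogeneous 2) (hn : Ch.bnd r ≤ n)
    (hn' : 4 * r < n) (hG : Good k Ω r) (z : ℙ Ω (Fin n → Ω) →₀ ℤ)
    (hz : z ∈ cyc0 Ω f) : z ∈ ratEq Ω f := by
  obtain ⟨hzc, hz0⟩ := AddSubgroup.mem_inf.1 hz
  rw [AddMonoidHom.mem_ker] at hz0
  obtain ⟨N, hN, h⟩ := st_all' hf hn z hzc
  obtain ⟨L, hL, hcop, hLM⟩ := hG N hN
  obtain ⟨P, hP⟩ := exists_pt' hf (hLM L hL le_rfl r le_rfl) hn'
  have hLpos : Module.finrank k L ≠ 0 := Module.finrank_pos.ne'
  have h1 := h L hL hcop (fun M hM hle s hs => hLM M hM hle s hs.le) P hP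
  obtain ⟨L', hL', hcop', hLM'⟩ := hG (N * Module.finrank k L) (mul_ne_zero hN hLpos)
  obtain ⟨P', hP'⟩ := exists_pt' hf (hLM' L' hL' le_rfl r le_rfl) hn'
  have h2 := h L' hL' (hcop'.coprime_dvd_right ⟨_, rfl⟩)
    (fun M hM hle s hs => hLM' M hM hle s hs.le) P' hP'
  rw [hz0, zero_smul, sub_zero] at h1 h2
  have hc : IsCoprime (Module.finrank k L : ℤ) (Module.finrank k L' : ℤ) :=
    Nat.isCoprime_iff_coprime.2 (hcop'.coprime_dvd_right ⟨N, mul_comm _ _⟩).symm
  obtain ⟨a, b, hab⟩ := hc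
  have h3 := add_mem (zsmul_mem h1 a) (zsmul_mem h2 b)
  rw [smul_smul, smul_smul, ← add_smul, hab, one_smul] at h3
  exact h3

/-- There is a zero-cycle of degree `1`. -/
theorem exists_deg_one' (hf : ∀ i, (f i).IsHomogeneous 2)
    (hn' : 4 * r < n) (hG : Good k Ω r) :
    ∃ z ∈ cyc Ω f, deg Ω z = 1 := by
  have : IsAlgClosed Ω := IsAlgClosure.isAlgClosed k
  obtain ⟨L, hL, hcop, hLM⟩ := hG 1 one_ne_zero
  obtain ⟨P, hP⟩ := exists_pt' hf (hLM L hL le_rfl r le_rfl) hn'
  have hLpos : Module.finrank k L ≠ 0 := Module.finrank_pos.ne'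
  obtain ⟨L', hL', hcop', hLM'⟩ := hG (Module.finrank k L) hLpos
  obtain ⟨P', hP'⟩ := exists_pt' hf (hLM' L' hL' le_rfl r le_rfl) hn'
  have hc : IsCoprime (Module.finrank k L : ℤ) (Module.finrank k L' : ℤ) :=
    Nat.isCoprime_iff_coprime.2 hcop'.symm
  obtain ⟨a, b, hab⟩ := hc
  refine ⟨a • trPt k Ω P + b • trPt k Ω P', add_mem (zsmul_mem (trPt_mem_cyc hf P hP) a)
    (zsmul_mem (trPt_mem_cyc hf P' hP') b), ?_⟩
  rw [map_add, map_zsmul, map_zsmul, deg_trPt, deg_trPt]
  simpa using hab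

theorem F1_subsingleton' (hf : ∀ i, (f i).IsHomogeneous 2) (hn : Ch.bnd r ≤ n)
    (hn' : 4 * r < n) (hG : Good k Ω r) : Subsingleton (F1 Ω f) := by
  rw [QuotientAddGroup.subsingleton_iff, AddSubgroup.addSubgroupOf_eq_top]
  intro z hz
  exact mem_ratEq' hf hn hn' hG z hz

end ZC
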