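import Pool.Agent.Lib.MP_f80667_ag.ZC.RkC
import Pool.Agent.Lib.MP_f80667_ag.ZC.JoinTr

/-! Smooth complete intersections of quadrics: the Jacobian criterion in terms of the polar forms. -/

open MvPolynomial

namespace ZC

open Pool.Agent.Lib.MP_f80667_ag

universe u

/-- The Jacobian criterion: at every zero `x ≠ 0` over `Ω` the gradients of the `f i` are linearly
independent (`X` is a smooth complete intersection). -/
def Jac {k : Type u} [Field k] (Ω : Type u) [Field Ω] [Algebra k Ω] {n r : ℕ}
    (f : Fin r → MvPolynomial (Fin n) k) : Prop :=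
  ∀ x : Fin n → Ω, x ≠ 0 → Zer f Ω x → ∀ c : Fin r → Ω,
    (∀ j, ∑ i, c i * aeval x (pderiv j (f i)) = 0) → c = 0

variable {k : Type u} [Field k] {n r : ℕ}

theorem bv_eq_pderiv {f : MvPolynomial (Fin n) k} {A : Matrix (Fin n) (Fin n) k}
    (hA : f = ∑ a, ∑ b, C (A a b) * (X a * X b)) {R : Type*} [CommRing R] [Algebra k R]
    (x y : Fin n → R) : bv A x y = ∑ j, y j * aeval x (pderiv j f) := by
  have h0 : ∀ j a : Fin n, aeval x ((Pi.single j (1 : MvPolynomial (Fin n) k) :
      Fin n → MvPolynomial (Fin n) k) a) = if a = j then (1 : R) else 0 := by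
    intro j a
    rw [Pi.single_apply]
    split_ifs <;> simp
  have h1 : ∀ j, aeval x (pderiv j f) = ∑ a, ∑ b, algebraMap k R (A a b) *
      ((if a = j then 1 else 0) * x b + x a * (if b = j then 1 else 0)) := by
    intro j
    rw [hA, map_sum, map_sum]
    refine Finset.sum_congr rfl fun a _ => ?_
    rw [map_sum, map_sum]
    refine Finset.sum_congr rfl fun b _ => ?_
    rw [pderiv_C_mul, pderiv_mul, pderiv_X, pderiv_X, map_mul, aeval_C, map_add, map_mul, map_mul,
      aeval_X, aeval_X, h0, h0]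
  simp only [h1, Finset.mul_sum]
  rw [Finset.sum_comm, bv]
  refine Finset.sum_congr rfl fun a _ => ?_
  rw [Finset.sum_comm]
  refine Finset.sum_congr rfl fun b _ => ?_
  simp only [mul_add, Finset.sum_add_distrib, mul_ite, ite_mul, mul_one, mul_zero, one_mul, zero_mul,
    Finset.sum_ite_eq, Finset.mem_univ, if_true]
  ring

variable {Ω : Type u} [Field Ω] [Algebra k Ω] {f : Fin r → MvPolynomial (Fin n) k}
  {A : Fin r → Matrix (Fin n) (Fin n) k}

theorem Jac.bv (h : Jac Ω f)
    (hA : ∀ i, f i = ∑ a, ∑ b, C (A i a b) * (X a * X b)) (x : Fin n → Ω) (hx : x ≠ 0)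
    (hz : ∀ i, qv (A i) x = 0) (c : Fin r → Ω)
    (hc : ∀ y, ∑ i, c i * ZC.bv (A i) x y = 0) : c = 0 := by
  refine h x hx (fun i => by rw [aeval_eq_qv (hA i)]; exact hz i) c fun j => ?_
  have h1 := hc (Pi.single j 1)
  rw [← h1]
  refine Finset.sum_congr rfl fun i _ => ?_
  rw [bv_eq_pderiv (hA i)]
  congr 1
  rw [Finset.sum_eq_single j]
  · simp
  · intro b _ hb
    simp [hb]
  · intro h2
    exact absurd (Finset.mem_univ j) h2

/-- At a zero over `k` the polar forms are a surjective map `k ^ n → k ^ r`. -/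
theorem Jac.surj (h : Jac Ω f)
    (hA : ∀ i, f i = ∑ a, ∑ b, C (A i a b) * (X a * X b)) (x : Fin n → k) (hx : x ≠ 0)
    (hz : ∀ i, qv (A i) x = 0) :
    Function.Surjective (fun (y : Fin n → k) (i : Fin r) => ZC.bv (A i) x y) := by
  let l : (Fin n → k) →ₗ[k] (Fin r → k) :=
    { toFun := fun y i => ZC.bv (A i) x y
      map_add' := fun y z => by funext i; exact bv_add_right (A i) x y z
      map_smul' := fun c y => by funext i; exact bv_smul_right (A i) c x y }
  change Function.Surjective l
  rw [← LinearMap.range_eq_top]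
  by_contra hcon
  obtain ⟨φ, hφ, hφ'⟩ := Submodule.exists_le_ker_of_lt_top _ (lt_top_iff_ne_top.2 hcon)
  -- the linear form
  let c : Fin r → k := fun i => φ (Pi.single i 1)
  have hφc : ∀ v : Fin r → k, φ v = ∑ i, c i * v i := by
    intro v
    rw [LinearMap.pi_apply_eq_sum_univ φ v]
    refine Finset.sum_congr rfl fun i _ => ?_
    rw [smul_eq_mul, mul_comm]
    congr 2
    funext j
    rw [Pi.single_apply]
    exact if_congr eq_comm rfl rfl
  apply hφ
  have hx' : (fun i => algebraMap k Ω (x i)) ≠ 0 := comp_ne (algebraMap k Ω) hx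
  have hz' : Zer f Ω (fun i => algebraMap k Ω (x i)) := by
    intro i
    have h1 : aeval (fun i => algebraMap k Ω (x i)) (f i) = algebraMap k Ω (aeval x (f i)) :=
      aeval_algebraMap_apply (B := Ω) x (f i)
    rw [h1, aeval_eq_qv (hA i), hz i, map_zero]
  have h2 := h _ hx' hz' (fun i => algebraMap k Ω (c i)) (fun j => by
    have h3 : ∀ i, aeval (fun i => algebraMap k Ω (x i)) (pderiv j (f i)) =
        algebraMap k Ω (aeval x (pderiv j (f i))) := fun i =>
      aeval_algebraMap_apply (B := Ω) x (pderiv j (f i))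
    simp only [h3, ← map_mul, ← map_sum]
    have h4 : l (Pi.single j 1) ∈ LinearMap.ker φ := hφ' ⟨_, rfl⟩
    rw [LinearMap.mem_ker, hφc] at h4
    have h5 : ∀ i, l (Pi.single j 1) i = aeval x (pderiv j (f i)) := by
      intro i
      change ZC.bv (A i) x (Pi.single j 1) = _
      rw [bv_eq_pderiv (hA i), Finset.sum_eq_single j]
      · simp
      · intro b _ hb
        simp [hb]
      · intro h2
        exact absurd (Finset.mem_univ j) h2
    simp only [h5] at h4
    rw [h4, map_zero])
  refine LinearMap.ext fun v => ?_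
  rw [LinearMap.zero_apply]
  have h3 : ∀ i, c i = 0 := fun i => (map_eq_zero (algebraMap k Ω)).1 (congrFun h2 i)
  rw [hφc]
  simp [h3]

end ZC
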