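import Pool.Agent.Lib.MP_f80667_ag.ZC.LocE
import Pool.Agent.Lib.MP_f80667_ag.ZC.SmR
import Pool.Agent.Lib.MP_f80667_ag.ZC.Conn

/-! The real places: smooth complete intersections of quadrics with connected real locus. -/

open Topology Filter Module Matrix

namespace ZC

open Pool.Agent.Lib.MP_f80667_ag

universe u

section form

variable {K : Type u} [NontriviallyNormedField K] [CompleteSpace K] {n r : ℕ}

/-- The bilinear map of the matrices `A i`. -/
noncomputable def bil (A : Fin r → Matrix (Fin n) (Fin n) K) :
    (Fin n → K) →L[K] (Fin n → K) →L[K] (Fin r → K) :=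
  LinearMap.toContinuousLinearMap
    ((LinearMap.toContinuousLinearMap (𝕜 := K) (E := Fin n → K) (F' := Fin r → K)).toLinearMap ∘ₗ
      LinearMap.mk₂ K (fun x y i => ∑ a, ∑ b, A i a b * (x a * y b))
        (by
          intro x x' y
          funext i
          simp only [Pi.add_apply, ← Finset.sum_add_distrib]
          refine Finset.sum_congr rfl fun a _ => Finset.sum_congr rfl fun b _ => ?_
          ring)
        (by
          intro c x y
          funext i
          simp only [Pi.smul_apply, smul_eq_mul, Finset.mul_sum]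
          refine Finset.sum_congr rfl fun a _ => Finset.sum_congr rfl fun b _ => ?_
          ring)
        (by
          intro x y y'
          funext i
          simp only [Pi.add_apply, ← Finset.sum_add_distrib]
          refine Finset.sum_congr rfl fun a _ => Finset.sum_congr rfl fun b _ => ?_
          ring)
        (by
          intro c x y
          funext i
          simp only [Pi.smul_apply, smul_eq_mul, Finset.mul_sum]
          refine Finset.sum_congr rfl fun a _ => Finset.sum_congr rfl fun b _ => ?_
          ring))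

theorem bil_apply (A : Fin r → Matrix (Fin n) (Fin n) K) (x y : Fin n → K) (i : Fin r) :
    bil A x y i = ∑ a, ∑ b, A i a b * (x a * y b) := rfl

theorem qf_bil (A : Fin r → Matrix (Fin n) (Fin n) K) : Ch.qf (bil A) = qm K A := by
  ext x i
  rw [Ch.qf_apply, bil_apply, qm_apply]
  rfl

theorem be_bil (A : Fin r → Matrix (Fin n) (Fin n) K) (x y : Fin n → K) (i : Fin r) :
    Ch.be (bil A) x y i = bv (A i) x y := by
  rw [Ch.be_apply, Pi.add_apply, bil_apply, bil_apply, bv, ← Finset.sum_add_distrib]
  refine Finset.sum_congr rfl fun a _ => ?_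
  rw [← Finset.sum_add_distrib]
  refine Finset.sum_congr rfl fun b _ => ?_
  change _ = A i a b * _
  ring

theorem frm_bil (A : Fin r → Matrix (Fin n) (Fin n) K) (mu : (Fin r → K) →ₗ[K] K) :
    Ch.frm (bil A) mu = (dotProductEquiv K (Fin n)).toLinearMap ∘ₗ
      (∑ i, mu (Pi.single i 1) • (A i + (A i).transpose)).mulVecLin := by
  refine LinearMap.ext fun x => LinearMap.ext fun y => ?_
  rw [Ch.frm_apply, LinearMap.comp_apply, LinearEquiv.coe_coe, dotProductEquiv_apply_apply,
    Matrix.mulVecLin_apply, LinearMap.pi_apply_eq_sum_univ mu]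
  simp only [be_bil, smul_eq_mul]
  have h1 : ∀ i : Fin r, (mu fun j => if i = j then 1 else 0) = mu (Pi.single i 1) := by
    intro i
    congr 1
    funext j
    rw [Pi.single_apply]
    exact if_congr eq_comm rfl rfl
  simp only [h1]
  have h2 : ∀ i : Fin r, bv (A i) x y =
      Matrix.mulVec (A i + (A i).transpose) x ⬝ᵥ y := by
    intro i
    have h3 : ∀ M : Matrix (Fin n) (Fin n) K, Matrix.mulVec M x ⬝ᵥ y =
        ∑ a, ∑ b, M a b * x b * y a := by
      intro M
      simp only [dotProduct, Matrix.mulVec, Finset.sum_mul]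
    rw [Matrix.add_mulVec, add_dotProduct, h3, h3, bv]
    rw [Finset.sum_comm (f := fun a b => (A i).transpose a b * x b * y a),
      ← Finset.sum_add_distrib]
    refine Finset.sum_congr rfl fun a _ => ?_
    rw [← Finset.sum_add_distrib]
    refine Finset.sum_congr rfl fun b _ => ?_
    rw [Matrix.transpose_apply]
    change A i a b * _ = _
    ring
  simp only [h2]
  rw [Matrix.sum_mulVec, sum_dotProduct]
  refine Finset.sum_congr rfl fun i _ => ?_
  rw [Matrix.smul_mulVec, smul_dotProduct, smul_eq_mul, mul_comm]

theorem rk_bil (A : Fin r → Matrix (Fin n) (Fin n) K) (mu : (Fin r → K) →ₗ[K] K) :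
    Ch.rk (bil A) mu =
      (∑ i, mu (Pi.single i 1) • (A i + (A i).transpose)).rank := by
  rw [Ch.rk, frm_bil, LinearMap.range_comp, Matrix.rank]
  exact LinearEquiv.finrank_map_eq (dotProductEquiv K (Fin n)) _

end form

section main

/-- The real place: a smooth complete intersection of `r` quadrics in `P^(n-1)`,
`n ≥ c(r) + r - 1`, whose set of real points is connected (or empty). -/
theorem F1bar_smooth {k Ω : Type u} [NontriviallyNormedField k] [CompleteSpace k] [Field Ω]
    [Algebra k Ω] [IsAlgClosure k Ω] {n r : ℕ} (e : k ≃+* ℝ) (he : Continuous e)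
    (he' : Continuous e.symm) (f : Fin r → MvPolynomial (Fin n) k)
    (hf : ∀ i, (f i).IsHomogeneous 2) (hJ : Jac Ω f) (hn : Ch.cr r + (r - 1) ≤ n)
    (hconn : IsPreconnected ((fun (x : Fin n → k) (i j : Fin n) => x i * x j) ''
      {x | x ≠ 0 ∧ Zer f k x})) : Subsingleton (F1bar Ω f) := by
  have hch : CharZero k := charZero_of_injective_ringHom (f := e.symm.toRingHom) e.symm.injective
  have hac : IsAlgClosed Ω := IsAlgClosure.isAlgClosed k
  choose A hA using fun i => exists_mat (f i) (hf i)
  refine F1bar_conn e he he' f hf hA ?_ hconn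
  intro P hP hqP
  have hz : ∀ i, qv (A i) P = 0 := fun i => by
    have h1 := congrFun hqP i
    rwa [qm_apply] at h1
  have hrk : ∀ mu : (Fin r → k) →ₗ[k] k, mu ≠ 0 → Ch.cr r ≤ Ch.rk (bil A) mu := by
    intro mu hmu
    have h1 : (fun i => mu (Pi.single i 1)) ≠ 0 := by
      intro h2
      apply hmu
      refine LinearMap.ext fun v => ?_
      rw [LinearMap.pi_apply_eq_sum_univ mu v, LinearMap.zero_apply]
      refine Finset.sum_eq_zero fun i _ => ?_
      have h3 : (fun j => if i = j then (1 : k) else 0) = Pi.single i 1 := by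
        funext j
        rw [Pi.single_apply]
        exact if_congr eq_comm rfl rfl
      rw [h3]
      have h4 : mu (Pi.single i 1) = 0 := congrFun h2 i
      rw [h4, smul_zero]
    have h2 := le_rank_add (Ω := Ω) A (fun x hx hxz c hc => hJ.bv hA x hx hxz c hc) _ h1
    rw [rk_bil]
    omega
  have hs : Function.Surjective (Ch.be (bil A) P) := by
    intro v
    obtain ⟨y, hy⟩ := hJ.surj hA P hP hz v
    refine ⟨y, ?_⟩
    funext i
    rw [be_bil]
    exact congrFun hy i
  have h := Ch.loc (K := k) r (Fin n → k) (Fin r → k) (bil A) P (by simp) hrk hP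
    (by rw [qf_bil]; exact hqP) hs
  have hc : Tendsto (fun Q : Fin n → k => (bil A, (P, Q))) (𝓝 P) (𝓝 (bil A, (P, P))) :=
    (Continuous.prodMk continuous_const (Continuous.prodMk continuous_const continuous_id)).tendsto P
  filter_upwards [hc.eventually h] with Q hQ hqQ
  rw [← qf_bil]
  refine hQ ?_ ?_
  · change Ch.qf (bil A) P = 0
    rw [qf_bil]
    exact hqP
  · change Ch.qf (bil A) Q = 0
    rw [qf_bil]
    exact hqQ

end main

end ZC
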